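import Pool.Agent.NH81.NS.BLc

/-!
# Project NS: the normal form
-/

set_option autoImplicit false

open Set
open scoped ComplexConjugate

namespace Pool.Agent.NH81.NS

namespace Alg

/-- coefficient of `ε` of the nonlinear part -/
noncomputable def G1 (A : ℂ) : ℂ := -(g : ℂ) ^ 2 * (s0 A * b0 A)

/-- coefficient of `ε ^ 2` of the nonlinear part -/
noncomputable def G2 (A : ℂ) (w : ℝ) : ℂ :=
  -(g : ℂ) ^ 2 * (s0 A * ((1 + g) * w - 1) + w * b0 A) + (g : ℂ) ^ 3 * (s0 A * b0 A ^ 2)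

/-- `b - ε` -/
noncomputable def tau (ε : ℝ) (A : ℂ) (w : ℝ) : ℂ := b0 A + ε * ((1 + g) * w - 1)

/-- the remainder of the nonlinear part -/
noncomputable def G3 (ε : ℝ) (A : ℂ) (w : ℝ) : ℂ :=
  -(g : ℂ) ^ 2 * (w * ((1 + g) * w - 1)) +
    (g : ℂ) ^ 3 * (w * tau ε A w ^ 2 +
      s0 A * (2 * b0 A * ((1 + g) * w - 1) + ε * ((1 + g) * w - 1) ^ 2)) -
    (g : ℂ) ^ 3 * ((s0 A + ε * w) * tau ε A w ^ 3 * HH ε A w)

/-- `GG / ε` -/
noncomputable def JJ (ε : ℝ) (A : ℂ) (w : ℝ) : ℂ := G1 A + ε * (G2 A w + ε * G3 ε A w)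

theorem mu_eq : mu = (1 + g) * lam := by
  unfold mu
  rw [conj_lam]
  linear_combination lam_rel + g_relC

theorem conj_mu_eq : conj mu = (1 + g) * (-g - lam) := by
  rw [mu_eq]
  simp only [map_mul, map_add, map_one, Complex.conj_ofReal, conj_lam]

theorem s0_eq (A : ℂ) : s0 A = (1 + g) * (lam * A + (-g - lam) * conj A) := by
  unfold s0
  rw [conj_mu_eq, mu_eq]
  ring

theorem b0_eq (A : ℂ) : b0 A = (-g - lam) * A + lam * conj A := by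
  unfold b0
  rw [conj_lam]

theorem G1_eq (A : ℂ) : G1 A = A * conj A - g * (A ^ 2 + conj A ^ 2) := by
  unfold G1
  rw [s0_eq, b0_eq]
  linear_combination ((1) * (g : ℂ) ^ 3 * A ^ 2 + (-2) * (g : ℂ) ^ 3 * A * conj A + (1) * (g : ℂ) ^ 3 * conj
    A ^ 2 + (1) * (g : ℂ) ^ 2 * A ^ 2 + (-2) * (g : ℂ) ^ 2 * A * conj A + (1) * (g : ℂ) ^ 2
    * conj A ^ 2) * lam_rel + ((-1) * (g : ℂ) ^ 3 * A * conj A + (-1) * (g : ℂ) * A ^ 2 +
    (1) * (g : ℂ) * A * conj A + (-1) * (g : ℂ) * conj A ^ 2 + (1) * A * conj A) * g_relC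

theorem G2_eq (A : ℂ) (w : ℝ) : G2 A w = -w * (lam * A + (-g - lam) * conj A) -
    (g : ℂ) ^ 2 * w * ((-g - lam) * A + lam * conj A) + g * (lam * A + (-g - lam) * conj A) +
    ((g : ℂ) ^ 2 * (A ^ 2 + conj A ^ 2) - g * A * conj A) * ((-g - lam) * A + lam * conj A) := by
  unfold G2
  rw [s0_eq, b0_eq]
  linear_combination ((1) * lam * (g : ℂ) ^ 4 * A ^ 3 + (-3) * lam * (g : ℂ) ^ 4 * A ^ 2 * conj A + (3) * lam
    * (g : ℂ) ^ 4 * A * conj A ^ 2 + (-1) * lam * (g : ℂ) ^ 4 * conj A ^ 3 + (1) * lam * (g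
    : ℂ) ^ 3 * A ^ 3 + (-3) * lam * (g : ℂ) ^ 3 * A ^ 2 * conj A + (3) * lam * (g : ℂ) ^ 3 *
    A * conj A ^ 2 + (-1) * lam * (g : ℂ) ^ 3 * conj A ^ 3 + (1) * (g : ℂ) ^ 5 * A ^ 3 +
    (-2) * (g : ℂ) ^ 5 * A ^ 2 * conj A + (1) * (g : ℂ) ^ 5 * A * conj A ^ 2 + (1) * (g : ℂ)
    ^ 4 * A ^ 3 + (-2) * (g : ℂ) ^ 4 * A ^ 2 * conj A + (1) * (g : ℂ) ^ 4 * A * conj A ^ 2)
    * lam_rel + ((-1) * lam * (g : ℂ) ^ 4 * A ^ 2 * conj A + (1) * lam * (g : ℂ) ^ 4 * A *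
    conj A ^ 2 + (-1) * lam * (g : ℂ) ^ 2 * A ^ 3 + (2) * lam * (g : ℂ) ^ 2 * A ^ 2 * conj A
    + (-2) * lam * (g : ℂ) ^ 2 * A * conj A ^ 2 + (-1) * lam * (g : ℂ) ^ 2 * A * (w : ℂ) +
    (1) * lam * (g : ℂ) ^ 2 * conj A ^ 3 + (1) * lam * (g : ℂ) ^ 2 * conj A * (w : ℂ) + (1)
    * lam * (g : ℂ) * A ^ 2 * conj A + (-1) * lam * (g : ℂ) * A * conj A ^ 2 + (-1) * lam *
    (g : ℂ) * A * (w : ℂ) + (1) * lam * (g : ℂ) * A + (1) * lam * (g : ℂ) * conj A * (w : ℂ)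
    + (-1) * lam * (g : ℂ) * conj A + (-1) * lam * A * (w : ℂ) + (1) * lam * conj A * (w :
    ℂ) + (-1) * (g : ℂ) ^ 5 * A ^ 2 * conj A + (-1) * (g : ℂ) ^ 3 * A ^ 3 + (1) * (g : ℂ) ^
    3 * A ^ 2 * conj A + (-1) * (g : ℂ) ^ 3 * A * conj A ^ 2 + (1) * (g : ℂ) ^ 3 * conj A *
    (w : ℂ) + (1) * (g : ℂ) ^ 2 * A ^ 2 * conj A + (1) * (g : ℂ) ^ 2 * conj A * (w : ℂ) +
    (-1) * (g : ℂ) ^ 2 * conj A + (1) * (g : ℂ) * conj A * (w : ℂ)) * g_relC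

theorem conj_kk : conj kk = (23 - 7 * (-g - lam) - 4 * g + 6 * g * (-g - lam)) / 55 := by
  unfold kk
  simp only [map_div₀, map_add, map_sub, map_mul, Complex.conj_ofReal, conj_lam, map_ofNat]

theorem eq1 (A : ℂ) : kk * G1 A + (al * (lam * A) ^ 2 + be * (lam * A) * (conj lam * conj A) +
    ga * (conj lam * conj A) ^ 2) - lam * (al * A ^ 2 + be * A * conj A + ga * conj A ^ 2) = 0 := by
  rw [G1_eq, conj_lam]
  unfold kk al be ga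
  linear_combination ((1 / 55) * lam * (g : ℂ) * A ^ 2 + (-12 / 55) * lam * (g : ℂ) * A * conj A + (21 / 55)
    * lam * (g : ℂ) * conj A ^ 2 + (8 / 55) * lam * A ^ 2 + (14 / 55) * lam * A * conj A +
    (3 / 55) * lam * conj A ^ 2 + (-1 / 55) * (g : ℂ) ^ 2 * A ^ 2 + (21 / 55) * (g : ℂ) ^ 2
    * conj A ^ 2 + (-28 / 55) * (g : ℂ) * A ^ 2 + (-4 / 55) * (g : ℂ) * A * conj A + (-32 /
    55) * (g : ℂ) * conj A ^ 2 + (1 / 11) * A ^ 2 + (23 / 55) * A * conj A + (-1 / 11) *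
    conj A ^ 2) * lam_rel + ((1 / 55) * lam * (g : ℂ) * A ^ 2 + (21 / 55) * lam * A ^ 2 +
    (12 / 55) * lam * A * conj A + (1 / 55) * lam * conj A ^ 2 + (-14 / 55) * (g : ℂ) * conj
    A ^ 2 + (1 / 11) * A ^ 2 + (-1 / 11) * conj A ^ 2) * g_relC

theorem eq2 (A : ℂ) (w : ℝ) : kk * G2 A w + 2 * al * (lam * A) * (kk * G1 A) +
    be * (lam * A * (conj kk * G1 A) + conj lam * conj A * (kk * G1 A)) +
    2 * ga * (conj lam * conj A) * (conj kk * G1 A) +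
    ((g * w + k0 * G1 A) * (ka1 * (lam * A) + ka2 * (conj lam * conj A)) + ka3 * (lam * A) ^ 3 +
      ka4 * (lam * A) * (conj lam * conj A) ^ 2 + ka5 * (conj lam * conj A) ^ 3 +
      ka6 * (conj lam * conj A)) -
    lam * (w * (ka1 * A + ka2 * conj A) + ka3 * A ^ 3 + ka4 * A * conj A ^ 2 + ka5 * conj A ^ 3 +
      ka6 * conj A) - lam * A * (v0 + v1 * (A * conj A)) = 0 := by
  rw [G1_eq, G2_eq, conj_kk, conj_lam]
  unfold kk al be ga ka1 ka2 ka3 ka4 ka5 ka6 v0 v1 k0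
  push_cast
  linear_combination ((13 / 55) * lam ^ 2 * (g : ℂ) * A ^ 3 + (47 / 55) * lam ^ 2 * (g : ℂ) * A * conj A ^ 2
    + (-1 / 11) * lam ^ 2 * (g : ℂ) * conj A ^ 3 + (-6 / 55) * lam ^ 2 * A ^ 3 + (-34 / 55)
    * lam ^ 2 * A * conj A ^ 2 + (12 / 605) * lam * (g : ℂ) ^ 3 * A ^ 3 + (-36 / 605) * lam
    * (g : ℂ) ^ 3 * A ^ 2 * conj A + (12 / 605) * lam * (g : ℂ) ^ 3 * A * conj A ^ 2 + (-36
    / 605) * lam * (g : ℂ) ^ 3 * conj A ^ 3 + (-193 / 605) * lam * (g : ℂ) ^ 2 * A ^ 3 + (6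
    / 605) * lam * (g : ℂ) ^ 2 * A ^ 2 * conj A + (503 / 605) * lam * (g : ℂ) ^ 2 * A * conj
    A ^ 2 + (-92 / 605) * lam * (g : ℂ) ^ 2 * conj A ^ 3 + (-62 / 121) * lam * (g : ℂ) * A ^
    3 + (78 / 605) * lam * (g : ℂ) * A ^ 2 * conj A + (-125 / 121) * lam * (g : ℂ) * A *
    conj A ^ 2 + (10 / 121) * lam * (g : ℂ) * conj A ^ 3 + (26 / 55) * lam * A ^ 3 + (-42 /
    605) * lam * A ^ 2 * conj A + (137 / 605) * lam * A * conj A ^ 2 + (-9 / 55) * lam *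
    conj A ^ 3 + (12 / 3025) * (g : ℂ) ^ 4 * A ^ 3 + (-252 / 3025) * (g : ℂ) ^ 4 * A ^ 2 *
    conj A + (12 / 3025) * (g : ℂ) ^ 4 * A * conj A ^ 2 + (-252 / 3025) * (g : ℂ) ^ 4 * conj
    A ^ 3 + (603 / 3025) * (g : ℂ) ^ 3 * A ^ 3 + (101 / 605) * (g : ℂ) ^ 3 * A ^ 2 * conj A
    + (28 / 605) * (g : ℂ) ^ 3 * A * conj A ^ 2 + (6 / 55) * (g : ℂ) ^ 3 * A * (w : ℂ) + (2
    / 25) * (g : ℂ) ^ 3 * conj A ^ 3 + (-6 / 55) * (g : ℂ) ^ 3 * conj A * (w : ℂ) + (1624 /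
    3025) * (g : ℂ) ^ 2 * A ^ 3 + (823 / 3025) * (g : ℂ) ^ 2 * A ^ 2 * conj A + (-2028 /
    3025) * (g : ℂ) ^ 2 * A * conj A ^ 2 + (-27 / 55) * (g : ℂ) ^ 2 * A * (w : ℂ) + (6 / 55)
    * (g : ℂ) ^ 2 * A + (931 / 3025) * (g : ℂ) ^ 2 * conj A ^ 3 + (12 / 55) * (g : ℂ) ^ 2 *
    conj A * (w : ℂ) + (-6 / 55) * (g : ℂ) ^ 2 * conj A + (-2736 / 3025) * (g : ℂ) * A ^ 3 +
    (-203 / 275) * (g : ℂ) * A ^ 2 * conj A + (-4932 / 3025) * (g : ℂ) * A * conj A ^ 2 +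
    (19 / 55) * (g : ℂ) * A * (w : ℂ) + (6 / 55) * (g : ℂ) * A + (-1214 / 3025) * (g : ℂ) *
    conj A ^ 3 + (16 / 55) * (g : ℂ) * conj A * (w : ℂ) + (19 / 55) * (g : ℂ) * conj A + (12
    / 55) * A ^ 3 + (1141 / 3025) * A ^ 2 * conj A + (3964 / 3025) * A * conj A ^ 2 + (2 /
    55) * A * (w : ℂ) + (-6 / 55) * A + (-2 / 55) * conj A * (w : ℂ) + (-14 / 55) * conj A)
    * lam_rel + ((-12 / 3025) * lam * (g : ℂ) ^ 3 * A ^ 3 + (-12 / 3025) * lam * (g : ℂ) ^ 3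
    * A * conj A ^ 2 + (-969 / 3025) * lam * (g : ℂ) ^ 2 * A ^ 3 + (-6 / 121) * lam * (g :
    ℂ) ^ 2 * A ^ 2 * conj A + (-254 / 3025) * lam * (g : ℂ) ^ 2 * A * conj A ^ 2 + (-162 /
    3025) * lam * (g : ℂ) ^ 2 * conj A ^ 3 + (6 / 55) * lam * (g : ℂ) ^ 2 * conj A * (w : ℂ)
    + (-329 / 3025) * lam * (g : ℂ) * A ^ 3 + (658 / 3025) * lam * (g : ℂ) * A ^ 2 * conj A
    + (878 / 3025) * lam * (g : ℂ) * A * conj A ^ 2 + (16 / 55) * lam * (g : ℂ) * A * (w :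
    ℂ) + (-6 / 55) * lam * (g : ℂ) * A + (514 / 3025) * lam * (g : ℂ) * conj A ^ 3 + (-9 /
    55) * lam * (g : ℂ) * conj A * (w : ℂ) + (52 / 55) * lam * A ^ 3 + (1484 / 3025) * lam *
    A ^ 2 * conj A + (1136 / 3025) * lam * A * conj A ^ 2 + (-17 / 55) * lam * A * (w : ℂ) +
    (-4 / 55) * lam * A + (-28 / 55) * lam * conj A * (w : ℂ) + (-2 / 55) * lam * conj A +
    (168 / 3025) * (g : ℂ) ^ 3 * A ^ 2 * conj A + (168 / 3025) * (g : ℂ) ^ 3 * conj A ^ 3 +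
    (208 / 3025) * (g : ℂ) ^ 2 * A ^ 3 + (-19 / 3025) * (g : ℂ) ^ 2 * A ^ 2 * conj A + (8 /
    605) * (g : ℂ) ^ 2 * A * conj A ^ 2 + (-4 / 55) * (g : ℂ) ^ 2 * A * (w : ℂ) + (91 /
    3025) * (g : ℂ) ^ 2 * conj A ^ 3 + (-2076 / 3025) * (g : ℂ) * A ^ 3 + (-1092 / 3025) *
    (g : ℂ) * A ^ 2 * conj A + (-122 / 275) * (g : ℂ) * A * conj A ^ 2 + (21 / 55) * (g : ℂ)
    * A * (w : ℂ) + (-1214 / 3025) * (g : ℂ) * conj A ^ 3 + (-9 / 55) * (g : ℂ) * conj A *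
    (w : ℂ) + (4 / 55) * (g : ℂ) * conj A + (12 / 55) * A ^ 3 + (1141 / 3025) * A ^ 2 * conj
    A + (3964 / 3025) * A * conj A ^ 2 + (2 / 55) * A * (w : ℂ) + (-6 / 55) * A + (-2 / 55)
    * conj A * (w : ℂ) + (-14 / 55) * conj A) * g_relC

theorem den_norm {ε : ℝ} (hε : ε ∈ Ioc (0 : ℝ) (1 / 100)) {A : ℂ} {w : ℝ} (h : Dom A w) :
    1 ≤ ‖((1 + g) + ε * (b0 A + ε * ((1 + g) * w - 1)) : ℂ)‖ := by
  obtain ⟨_, hA, hw⟩ := h
  have hb : ‖b0 A‖ ≤ 8 := by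
    unfold b0
    refine (norm_add_le _ _).trans ?_
    rw [norm_mul, norm_mul, RCLike.norm_conj, RCLike.norm_conj, norm_lam]
    linarith
  have hg1 := g_gt
  have hg2 := g_lt
  have h1 : ‖((1 + g) * w - 1 : ℂ)‖ ≤ 50 := by
    refine (norm_sub_le _ _).trans ?_
    rw [norm_mul, norm_one, Complex.norm_real, Real.norm_eq_abs]
    have h2 : ‖(1 + g : ℂ)‖ ≤ 1.6181 := by
      have : (1 + g : ℂ) = ((1 + g : ℝ) : ℂ) := by push_cast; ring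
      rw [this, Complex.norm_real, Real.norm_eq_abs, abs_of_pos (by linarith)]
      linarith
    have h3 := mul_le_mul h2 hw (abs_nonneg _) (by norm_num)
    linarith
  have h2 : ‖(ε : ℂ) * (b0 A + ε * ((1 + g) * w - 1))‖ ≤ 0.1 := by
    rw [norm_mul, Complex.norm_real, Real.norm_eq_abs, abs_of_pos hε.1]
    have h3 : ‖b0 A + ε * ((1 + g) * w - 1)‖ ≤ 10 := by
      refine (norm_add_le _ _).trans ?_
      rw [norm_mul, Complex.norm_real, Real.norm_eq_abs, abs_of_pos hε.1]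
      have := mul_le_mul hε.2 h1 (norm_nonneg _) (by norm_num)
      linarith
    have := mul_le_mul hε.2 h3 (norm_nonneg _) (by norm_num)
    linarith
  have h3 : ‖(1 + g : ℂ)‖ = 1 + g := by
    have : (1 + g : ℂ) = ((1 + g : ℝ) : ℂ) := by push_cast; ring
    rw [this, Complex.norm_real, Real.norm_eq_abs, abs_of_pos (by linarith)]
  have h4 := norm_sub_norm_le (1 + g : ℂ) (-(ε * (b0 A + ε * ((1 + g) * w - 1))))
  rw [norm_neg, sub_neg_eq_add, h3] at h4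
  linarith

theorem bl_HH : BL HH := by
  have h1 : BL fun ε A w => ((1 + g) + ε * (b0 A + ε * ((1 + g) * w - 1)) : ℂ) :=
    (BL.const _).add (BL.eps.mul (bl_b0.add (BL.eps.mul ((BL.varw.cmul _).sub (BL.const 1)))))
  have h2 := h1.inv one_pos (fun ε hε A w h => den_norm hε h)
  refine h2.congr fun ε _ A w _ => ?_
  unfold HH
  rw [one_div]

theorem bl_G1 : BL fun _ A _ => G1 A := (bl_s0.mul bl_b0).cmul _

theorem bl_t1 : BL fun _ _ w => ((1 + g) * w - 1 : ℂ) := (BL.varw.cmul _).sub (BL.const 1)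

theorem bl_G2 : BL fun _ A w => G2 A w :=
  (((bl_s0.mul bl_t1).add (BL.varw.mul bl_b0)).cmul _).add ((bl_s0.mul (bl_b0.pow 2)).cmul _)

theorem bl_tau : BL tau := bl_b0.add (BL.eps.mul bl_t1)

theorem bl_G3 : BL G3 := by
  refine BL.sub (BL.add (BL.cmul _ (BL.varw.mul bl_t1)) (BL.cmul _ (BL.add
    (BL.varw.mul (bl_tau.pow 2)) (bl_s0.mul (BL.add ((bl_b0.cmul 2).mul bl_t1)
      (BL.eps.mul (bl_t1.pow 2))))))) (BL.cmul _ (BL.mul (BL.mul (bl_s0.add (BL.eps.mul BL.varw))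
      (bl_tau.pow 3)) bl_HH))

theorem bl_JJ : BL JJ := bl_G1.add (BL.eps.mul (bl_G2.add (BL.eps.mul bl_G3)))

theorem HH_rel {ε : ℝ} (hε : ε ∈ Ioc (0 : ℝ) (1 / 100)) {A : ℂ} {w : ℝ} (h : Dom A w) :
    HH ε A w - g + g * ε * tau ε A w * HH ε A w = 0 := by
  have h1 : ((1 + g) + ε * (b0 A + ε * ((1 + g) * w - 1)) : ℂ) ≠ 0 :=
    norm_pos_iff.1 (one_pos.trans_le (den_norm hε h))
  have h2 : ((1 + g) + ε * tau ε A w) * HH ε A w = 1 := by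
    unfold HH tau
    rw [mul_one_div, div_self h1]
  have h3 := g_relC
  linear_combination (g : ℂ) * h2 - HH ε A w * h3

theorem GG_eq {ε : ℝ} (hε : ε ∈ Ioc (0 : ℝ) (1 / 100)) {A : ℂ} {w : ℝ} (h : Dom A w) :
    GG ε A w = ε * JJ ε A w := by
  have h1 := HH_rel hε h
  have h2 : GG ε A w = -ε * g * (s0 A + ε * w) * tau ε A w * HH ε A w := by
    unfold GG tau
    ring
  have h3 : tau ε A w = b0 A + ε * ((1 + g) * w - 1) := rfl
  have h4 : GG ε A w = -ε * (g : ℂ) ^ 2 * (s0 A + ε * w) * tau ε A w +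
      ε ^ 2 * (g : ℂ) ^ 3 * (s0 A + ε * w) * tau ε A w ^ 2 -
      ε ^ 3 * (g : ℂ) ^ 3 * (s0 A + ε * w) * tau ε A w ^ 3 * HH ε A w := by
    rw [h2]
    linear_combination (-ε * g * (s0 A + ε * w) * tau ε A w * (1 - g * ε * tau ε A w)) * h1
  rw [h4]
  unfold JJ G1 G2 G3
  rw [h3]
  ring

theorem conj_s0 (A : ℂ) : conj (s0 A) = s0 A := by
  unfold s0
  simp only [map_add, map_mul, Complex.conj_conj]
  ring

theorem conj_b0 (A : ℂ) : conj (b0 A) = b0 A := by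
  unfold b0
  simp only [map_add, map_mul, Complex.conj_conj]
  ring

theorem conj_GG (ε : ℝ) (A : ℂ) (w : ℝ) : conj (GG ε A w) = GG ε A w := by
  unfold GG HH
  simp only [map_add, map_mul, map_sub, map_neg, map_div₀, map_one, Complex.conj_ofReal, conj_s0,
    conj_b0]

theorem GG_re (ε : ℝ) (A : ℂ) (w : ℝ) : ((GG ε A w).re : ℂ) = GG ε A w :=
  Complex.conj_eq_iff_re.1 (conj_GG ε A w)

theorem Fw_eq {ε : ℝ} (hε : ε ∈ Ioc (0 : ℝ) (1 / 100)) {A : ℂ} {w : ℝ} (h : Dom A w) :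
    (Fw ε A w : ℂ) = g * w + k0 * JJ ε A w := by
  have h0 : (ε : ℂ) ≠ 0 := by exact_mod_cast hε.1.ne'
  unfold Fw
  push_cast
  rw [GG_re, GG_eq hε h]
  field_simp

theorem FA_eq {ε : ℝ} (hε : ε ∈ Ioc (0 : ℝ) (1 / 100)) {A : ℂ} {w : ℝ} (h : Dom A w) :
    FA ε A w = lam * A + ε * (kk * JJ ε A w) := by
  unfold FA
  rw [GG_eq hε h]
  ring

theorem conj_FA {ε : ℝ} (hε : ε ∈ Ioc (0 : ℝ) (1 / 100)) {A : ℂ} {w : ℝ} (h : Dom A w) :
    conj (FA ε A w) = conj lam * conj A + ε * (conj kk * JJ ε A w) := by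
  unfold FA
  rw [map_add, map_mul, map_mul, conj_GG, GG_eq hε h]
  ring

/-- the right side of `FA_eq` -/
noncomputable def A' (ε : ℝ) (A : ℂ) (w : ℝ) : ℂ := lam * A + ε * (kk * JJ ε A w)

/-- the right side of `conj_FA` -/
noncomputable def C' (ε : ℝ) (A : ℂ) (w : ℝ) : ℂ := conj lam * conj A + ε * (conj kk * JJ ε A w)

theorem bl_A' : BL A' := (BL.varA.cmul _).add (BL.eps.mul (bl_JJ.cmul _))

theorem bl_C' : BL C' := (BL.conjA.cmul _).add (BL.eps.mul (bl_JJ.cmul _))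

/-- `G2 + ε G3` -/
noncomputable def J2 (ε : ℝ) (A : ℂ) (w : ℝ) : ℂ := G2 A w + ε * G3 ε A w

theorem bl_J2 : BL J2 := bl_G2.add (BL.eps.mul bl_G3)

/-- the remainder of the normal form -/
noncomputable def RR (ε : ℝ) (A : ℂ) (w : ℝ) : ℂ :=
  kk * G3 ε A w +
  (al * (2 * (lam * A) * (kk * J2 ε A w) + (kk * JJ ε A w) ^ 2) +
    be * (lam * A * (conj kk * J2 ε A w) + conj lam * conj A * (kk * J2 ε A w) +
      kk * JJ ε A w * (conj kk * JJ ε A w)) +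
    ga * (2 * (conj lam * conj A) * (conj kk * J2 ε A w) + (conj kk * JJ ε A w) ^ 2)) +
  (k0 * J2 ε A w * (ka1 * A' ε A w + ka2 * C' ε A w) +
    (g * w + k0 * G1 A) * (ka1 * (kk * JJ ε A w) + ka2 * (conj kk * JJ ε A w)) +
    ka3 * (kk * JJ ε A w) * (A' ε A w ^ 2 + A' ε A w * (lam * A) + (lam * A) ^ 2) +
    ka4 * (kk * JJ ε A w * C' ε A w ^ 2 +
      lam * A * (conj kk * JJ ε A w) * (C' ε A w + conj lam * conj A)) +
    ka5 * (conj kk * JJ ε A w) *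
      (C' ε A w ^ 2 + C' ε A w * (conj lam * conj A) + (conj lam * conj A) ^ 2) +
    ka6 * (conj kk * JJ ε A w))

theorem bl_RR : BL RR := by
  have hX : BL fun _ A _ => lam * A := BL.varA.cmul _
  have hY : BL fun _ A _ => conj lam * conj A := BL.conjA.cmul _
  have hkJ : BL fun ε A w => kk * JJ ε A w := bl_JJ.cmul _
  have hcJ : BL fun ε A w => conj kk * JJ ε A w := bl_JJ.cmul _
  have hkJ2 : BL fun ε A w => kk * J2 ε A w := bl_J2.cmul _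
  have hcJ2 : BL fun ε A w => conj kk * J2 ε A w := bl_J2.cmul _
  have p1 : BL fun ε A w => kk * G3 ε A w := bl_G3.cmul _
  have p2 : BL fun ε A w => al * (2 * (lam * A) * (kk * J2 ε A w) + (kk * JJ ε A w) ^ 2) :=
    BL.cmul _ (((hX.cmul 2).mul hkJ2).add (hkJ.pow 2))
  have p3 : BL fun ε A w => be * (lam * A * (conj kk * J2 ε A w) +
      conj lam * conj A * (kk * J2 ε A w) + kk * JJ ε A w * (conj kk * JJ ε A w)) :=
    BL.cmul _ (((hX.mul hcJ2).add (hY.mul hkJ2)).add (hkJ.mul hcJ))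
  have p4 : BL fun ε A w => ga * (2 * (conj lam * conj A) * (conj kk * J2 ε A w) +
      (conj kk * JJ ε A w) ^ 2) :=
    BL.cmul _ (((hY.cmul 2).mul hcJ2).add (hcJ.pow 2))
  have p5 : BL fun ε A w => k0 * J2 ε A w * (ka1 * A' ε A w + ka2 * C' ε A w) :=
    (bl_J2.cmul _).mul ((bl_A'.cmul _).add (bl_C'.cmul _))
  have p6 : BL fun ε A w => (g * w + k0 * G1 A) *
      (ka1 * (kk * JJ ε A w) + ka2 * (conj kk * JJ ε A w)) :=
    ((BL.varw.cmul _).add (bl_G1.cmul _)).mul ((hkJ.cmul _).add (hcJ.cmul _))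
  have p7 : BL fun ε A w => ka3 * (kk * JJ ε A w) *
      (A' ε A w ^ 2 + A' ε A w * (lam * A) + (lam * A) ^ 2) :=
    (hkJ.cmul _).mul (((bl_A'.pow 2).add (bl_A'.mul hX)).add (hX.pow 2))
  have p8 : BL fun ε A w => ka4 * (kk * JJ ε A w * C' ε A w ^ 2 +
      lam * A * (conj kk * JJ ε A w) * (C' ε A w + conj lam * conj A)) :=
    BL.cmul _ ((hkJ.mul (bl_C'.pow 2)).add ((hX.mul hcJ).mul (bl_C'.add hY)))
  have p9 : BL fun ε A w => ka5 * (conj kk * JJ ε A w) *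
      (C' ε A w ^ 2 + C' ε A w * (conj lam * conj A) + (conj lam * conj A) ^ 2) :=
    (hcJ.cmul _).mul (((bl_C'.pow 2).add (bl_C'.mul hY)).add (hY.pow 2))
  have p10 : BL fun ε A w => ka6 * (conj kk * JJ ε A w) := hcJ.cmul _
  exact (p1.add ((p2.add p3).add p4)).add (((((p5.add p6).add p7).add p8).add p9).add p10)

end Alg

open Alg in
/-- NS-ALG -/
theorem alg : S_ALG := by
  refine ⟨RR, bl_RR, fun ε hε A w h => ?_⟩
  have e1 := eq1 A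
  have e2 := eq2 A w
  have hJ : JJ ε A w = G1 A + ε * J2 ε A w := rfl
  have hJ2 : J2 ε A w = G2 A w + ε * G3 ε A w := rfl
  have hA' : A' ε A w = lam * A + ε * (kk * JJ ε A w) := rfl
  have hC' : C' ε A w = conj lam * conj A + ε * (conj kk * JJ ε A w) := rfl
  unfold UU QQ KK RR
  rw [Fw_eq hε h, conj_FA hε h, FA_eq hε h, hA', hC', hJ, hJ2]
  linear_combination (ε : ℂ) * e1 + (ε : ℂ) ^ 2 * e2

open Alg in
/-- NS-W -/
theorem stab : S_W := by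
  refine ⟨fun ε A w => k0 * J2 ε A w, bl_J2.cmul _, fun ε hε A w h => ?_⟩
  rw [Fw_eq hε h]
  unfold JJ G1 J2
  ring

end Pool.Agent.NH81.NS
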