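import Pool.Agent.NH81.NS.Stm

/-!
# Project NS: calculus of bounded Lipschitz families
-/

set_option autoImplicit false

open Set
open scoped ComplexConjugate

namespace Pool.Agent.NH81.NS

namespace BL

theorem const (c : ℂ) : BL fun _ _ _ => c := by
  refine ⟨‖c‖, norm_nonneg _, fun ε _ A w _ => ⟨le_rfl, fun A' w' _ => ?_⟩⟩
  rw [sub_self, norm_zero]
  positivity

theorem eps : BL fun ε _ _ => (ε : ℂ) := by
  refine ⟨1, zero_le_one, fun ε hε A w _ => ⟨?_, fun A' w' _ => ?_⟩⟩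
  · rw [Complex.norm_real, Real.norm_eq_abs, abs_of_pos hε.1]
    linarith [hε.2]
  · rw [sub_self, norm_zero]
    positivity

theorem varA : BL fun _ A _ => A := by
  refine ⟨4, by norm_num, fun ε hε A w h => ⟨h.2.1, fun A' w' _ => ?_⟩⟩
  have h1 := norm_nonneg (A - A')
  have h2 := abs_nonneg (w - w')
  linarith

theorem conjA : BL fun _ A _ => conj A := by
  refine ⟨4, by norm_num, fun ε hε A w h => ⟨?_, fun A' w' _ => ?_⟩⟩
  · rw [RCLike.norm_conj]
    exact h.2.1
  · rw [← map_sub, RCLike.norm_conj]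
    have h1 := norm_nonneg (A - A')
    have h2 := abs_nonneg (w - w')
    linarith

theorem varw : BL fun _ _ w => (w : ℂ) := by
  refine ⟨30, by norm_num, fun ε hε A w h => ⟨?_, fun A' w' _ => ?_⟩⟩
  · rw [Complex.norm_real, Real.norm_eq_abs]
    exact h.2.2
  · rw [← Complex.ofReal_sub, Complex.norm_real, Real.norm_eq_abs]
    have h1 := norm_nonneg (A - A')
    have h2 := abs_nonneg (w - w')
    linarith

variable {f h : ℝ → ℂ → ℝ → ℂ}

theorem add (hf : BL f) (hh : BL h) : BL fun ε A w => f ε A w + h ε A w := by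
  obtain ⟨K, hK, H⟩ := hf
  obtain ⟨K', hK', H'⟩ := hh
  refine ⟨K + K', by positivity, fun ε hε A w hd => ⟨?_, fun A' w' hd' => ?_⟩⟩
  · exact (norm_add_le _ _).trans (add_le_add (H ε hε A w hd).1 (H' ε hε A w hd).1)
  · have h1 := (H ε hε A w hd).2 A' w' hd'
    have h2 := (H' ε hε A w hd).2 A' w' hd'
    have h3 : f ε A w + h ε A w - (f ε A' w' + h ε A' w') =
      (f ε A w - f ε A' w') + (h ε A w - h ε A' w') := by ring
    rw [h3, add_mul]
    exact (norm_add_le _ _).trans (add_le_add h1 h2)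

theorem neg (hf : BL f) : BL fun ε A w => -f ε A w := by
  obtain ⟨K, hK, H⟩ := hf
  refine ⟨K, hK, fun ε hε A w hd => ⟨?_, fun A' w' hd' => ?_⟩⟩
  · rw [norm_neg]
    exact (H ε hε A w hd).1
  · have h3 : -f ε A w - -f ε A' w' = -(f ε A w - f ε A' w') := by ring
    rw [h3, norm_neg]
    exact (H ε hε A w hd).2 A' w' hd'

theorem sub (hf : BL f) (hh : BL h) : BL fun ε A w => f ε A w - h ε A w := by
  have := hf.add hh.neg
  simpa only [← sub_eq_add_neg] using this

theorem mul (hf : BL f) (hh : BL h) : BL fun ε A w => f ε A w * h ε A w := by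
  obtain ⟨K, hK, H⟩ := hf
  obtain ⟨K', hK', H'⟩ := hh
  refine ⟨K * K' + K * K', by positivity, fun ε hε A w hd => ⟨?_, fun A' w' hd' => ?_⟩⟩
  · rw [norm_mul]
    have h1 := mul_le_mul (H ε hε A w hd).1 (H' ε hε A w hd).1 (norm_nonneg _) hK
    have h2 : 0 ≤ K * K' := by positivity
    linarith
  · have h1 := (H ε hε A w hd).2 A' w' hd'
    have h2 := (H' ε hε A w hd).2 A' w' hd'
    have h3 : f ε A w * h ε A w - f ε A' w' * h ε A' w' =
      (f ε A w - f ε A' w') * h ε A w + f ε A' w' * (h ε A w - h ε A' w') := by ring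
    rw [h3]
    have h4 : ‖(f ε A w - f ε A' w') * h ε A w‖ ≤ K * (‖A - A'‖ + |w - w'|) * K' := by
      rw [norm_mul]
      exact mul_le_mul h1 (H' ε hε A w hd).1 (norm_nonneg _) (by positivity)
    have h5 : ‖f ε A' w' * (h ε A w - h ε A' w')‖ ≤ K * (K' * (‖A - A'‖ + |w - w'|)) := by
      rw [norm_mul]
      exact mul_le_mul (H ε hε A' w' hd').1 h2 (norm_nonneg _) hK
    refine (norm_add_le _ _).trans ((add_le_add h4 h5).trans (le_of_eq ?_))
    ring

theorem pow (hf : BL f) (n : ℕ) : BL fun ε A w => f ε A w ^ n := by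
  induction n with
  | zero => simpa using const 1
  | succ n ih =>
    have := ih.mul hf
    simpa only [pow_succ] using this

theorem cmul (c : ℂ) (hf : BL f) : BL fun ε A w => c * f ε A w := (const c).mul hf

theorem congr (hf : BL f) (e : ∀ ε ∈ Ioc (0 : ℝ) (1 / 100), ∀ A w, Dom A w → f ε A w = h ε A w) :
    BL h := by
  obtain ⟨K, hK, H⟩ := hf
  refine ⟨K, hK, fun ε hε A w hd => ⟨?_, fun A' w' hd' => ?_⟩⟩
  · rw [← e ε hε A w hd]
    exact (H ε hε A w hd).1
  · rw [← e ε hε A w hd, ← e ε hε A' w' hd']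
    exact (H ε hε A w hd).2 A' w' hd'

/-- Inverses. -/
theorem inv {c : ℝ} (hc : 0 < c) (hf : BL f)
    (hb : ∀ ε ∈ Ioc (0 : ℝ) (1 / 100), ∀ A w, Dom A w → c ≤ ‖f ε A w‖) :
    BL fun ε A w => (f ε A w)⁻¹ := by
  obtain ⟨K, hK, H⟩ := hf
  refine ⟨c⁻¹ + K * (c⁻¹ * c⁻¹), by positivity, fun ε hε A w hd => ⟨?_, fun A' w' hd' => ?_⟩⟩
  · rw [norm_inv]
    have h1 := inv_anti₀ hc (hb ε hε A w hd)
    have h2 : 0 ≤ K * (c⁻¹ * c⁻¹) := by positivity
    linarith
  · have n1 := hb ε hε A w hd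
    have n2 := hb ε hε A' w' hd'
    have z1 : f ε A w ≠ 0 := norm_pos_iff.1 (hc.trans_le n1)
    have z2 : f ε A' w' ≠ 0 := norm_pos_iff.1 (hc.trans_le n2)
    have h3 : (f ε A w)⁻¹ - (f ε A' w')⁻¹ =
        -(f ε A w - f ε A' w') * ((f ε A w)⁻¹ * (f ε A' w')⁻¹) := by
      field_simp
      ring
    have h4 : ‖(f ε A w)⁻¹ * (f ε A' w')⁻¹‖ ≤ c⁻¹ * c⁻¹ := by
      rw [norm_mul, norm_inv, norm_inv]
      exact mul_le_mul (inv_anti₀ hc n1) (inv_anti₀ hc n2) (by positivity) (by positivity)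
    rw [h3, norm_mul, norm_neg]
    have h5 := mul_le_mul ((H ε hε A w hd).2 A' w' hd') h4 (norm_nonneg _)
      (by positivity : 0 ≤ K * (‖A - A'‖ + |w - w'|))
    have h6 : 0 ≤ c⁻¹ * (‖A - A'‖ + |w - w'|) := by positivity
    refine h5.trans ?_
    have : K * (‖A - A'‖ + |w - w'|) * (c⁻¹ * c⁻¹) = K * (c⁻¹ * c⁻¹) * (‖A - A'‖ + |w - w'|) := by
      ring
    rw [this, add_mul]
    linarith

/-- Inverses for small `ε`. -/
theorem inv_if {c ε₀ : ℝ} (hc : 0 < c) (hf : BL f)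
    (hb : ∀ ε ∈ Ioc (0 : ℝ) (1 / 100), ε ≤ ε₀ → ∀ A w, Dom A w → c ≤ ‖f ε A w‖) :
    BL fun ε A w => if ε ≤ ε₀ then (f ε A w)⁻¹ else 0 := by
  have h1 : BL fun ε A w => if ε ≤ ε₀ then f ε A w else (c : ℂ) := by
    obtain ⟨K, hK, H⟩ := hf
    refine ⟨K + c, by positivity, fun ε hε A w hd => ⟨?_, fun A' w' hd' => ?_⟩⟩
    · by_cases h : ε ≤ ε₀
      · simp only [if_pos h]
        linarith [(H ε hε A w hd).1]
      · simp only [if_neg h, Complex.norm_real, Real.norm_eq_abs, abs_of_pos hc]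
        linarith
    · have h0 : 0 ≤ ‖A - A'‖ + |w - w'| := by positivity
      by_cases h : ε ≤ ε₀
      · simp only [if_pos h]
        refine ((H ε hε A w hd).2 A' w' hd').trans ?_
        exact mul_le_mul_of_nonneg_right (by linarith) h0
      · simp only [if_neg h, sub_self, norm_zero]
        positivity
  have h2 := h1.inv hc (fun ε hε A w hd => by
    by_cases h : ε ≤ ε₀
    · simp only [if_pos h]
      exact hb ε hε h A w hd
    · simp only [if_neg h, Complex.norm_real, Real.norm_eq_abs, abs_of_pos hc]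
      exact le_rfl)
  have h3 : BL fun ε _ _ => if ε ≤ ε₀ then (1 : ℂ) else 0 := by
    refine ⟨1, zero_le_one, fun ε hε A w hd => ⟨?_, fun A' w' hd' => ?_⟩⟩
    · by_cases h : ε ≤ ε₀
      · simp only [if_pos h, norm_one, le_refl]
      · simp only [if_neg h, norm_zero, zero_le_one]
    · rw [sub_self, norm_zero]
      positivity
  refine (h2.mul h3).congr fun ε _ A w _ => ?_
  by_cases h : ε ≤ ε₀
  · simp only [if_pos h, mul_one]
  · simp only [if_neg h, mul_zero]

theorem conj' (hf : BL f) : BL fun ε A w => conj (f ε A w) := by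
  obtain ⟨K, hK, H⟩ := hf
  refine ⟨K, hK, fun ε hε A w hd => ⟨?_, fun A' w' hd' => ?_⟩⟩
  · rw [RCLike.norm_conj]
    exact (H ε hε A w hd).1
  · rw [← map_sub, RCLike.norm_conj]
    exact (H ε hε A w hd).2 A' w' hd'

end BL

theorem bl_b0 : BL fun _ A _ => b0 A := by
  unfold b0
  exact (BL.varA.cmul _).add (BL.conjA.cmul _)

theorem bl_s0 : BL fun _ A _ => s0 A := by
  unfold s0
  exact (BL.varA.cmul _).add (BL.conjA.cmul _)

theorem bl_QQ : BL fun _ A _ => QQ A := by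
  unfold QQ
  exact (((BL.varA.pow 2).cmul _).add ((BL.varA.cmul _).mul BL.conjA)).add
    ((BL.conjA.pow 2).cmul _)

theorem bl_KK : BL fun _ A w => KK A w := by
  unfold KK
  exact ((((BL.varw.mul ((BL.varA.cmul _).add (BL.conjA.cmul _))).add
    ((BL.varA.pow 3).cmul _)).add ((BL.varA.cmul _).mul (BL.conjA.pow 2))).add
    ((BL.conjA.pow 3).cmul _)).add (BL.conjA.cmul _)

theorem bl_UU : BL UU := by
  have := (BL.varA.add (BL.eps.mul bl_QQ)).add ((BL.eps.pow 2).mul bl_KK)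
  exact this

theorem lam_norm_sq : sg ^ 2 = 1 - g ^ 2 / 4 := by
  have h5 : Real.sqrt 5 ^ 2 = 5 := Real.sq_sqrt (by norm_num)
  have h5' : 0 ≤ Real.sqrt 5 := Real.sqrt_nonneg _
  have h3 : Real.sqrt 5 ≤ 3 := by nlinarith
  have hg : g ^ 2 ≤ 4 := by
    unfold g
    nlinarith
  exact Real.sq_sqrt (by linarith)

theorem g_sq : g ^ 2 = 1 - g := by
  have h5 : Real.sqrt 5 ^ 2 = 5 := Real.sq_sqrt (by norm_num)
  unfold g
  nlinarith

theorem g_gt : (0.618 : ℝ) < g := by
  have h : (2.236 : ℝ) < Real.sqrt 5 := by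
    rw [Real.lt_sqrt (by norm_num)]
    norm_num
  unfold g
  linarith

theorem g_lt : g < 0.6181 := by
  have h : Real.sqrt 5 < 2.2362 := by
    rw [Real.sqrt_lt' (by norm_num)]
    norm_num
  unfold g
  linarith

theorem conj_lam : conj lam = -g - lam := by
  apply Complex.ext
  · simp [lam]
    ring
  · simp [lam]

theorem lam_rel : lam ^ 2 + g * lam + 1 = 0 := by
  have h := lam_norm_sq
  apply Complex.ext
  · simp [lam, pow_two]
    nlinarith
  · simp [lam, pow_two]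
    ring

theorem g_relC : (g : ℂ) ^ 2 + g - 1 = 0 := by
  have h := g_sq
  have : ((g ^ 2 + g - 1 : ℝ) : ℂ) = 0 := by
    rw [h]
    simp
  simpa using this

theorem norm_lam : ‖lam‖ = 1 := by
  have h : ‖lam‖ ^ 2 = 1 := by
    rw [← Complex.normSq_eq_norm_sq, Complex.normSq_apply]
    have := lam_norm_sq
    simp only [lam]
    nlinarith
  nlinarith [norm_nonneg lam, sq_nonneg (‖lam‖ - 1)]

end Pool.Agent.NH81.NS
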