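import Pool.Agent.NH81.NS.Stm

set_option autoImplicit false

open Set
open scoped ComplexConjugate

namespace Pool.Agent.NH81.NS
namespace ConeAux

theorem exp_sub_lower {s t : ℝ} : (t - s) * Real.exp s ≤ Real.exp t - Real.exp s := by
  have h1 : Real.exp t = Real.exp s * Real.exp (t - s) := by rw [← Real.exp_add]; ring_nf
  have h2 := Real.add_one_le_exp (t - s)
  have h3 := Real.exp_pos s
  rw [h1]
  nlinarith

theorem exp_sub_upper {s t : ℝ} : Real.exp t - Real.exp s ≤ (t - s) * Real.exp t := by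
  have h1 : Real.exp s = Real.exp t * Real.exp (s - t) := by rw [← Real.exp_add]; ring_nf
  have h2 := Real.add_one_le_exp (s - t)
  have h3 := Real.exp_pos t
  rw [h1]
  nlinarith

/-- bounds of the increments of `exp (2 x)` near `x₁` -/
theorem h_bounds {x₁ x x' : ℝ} (hx : |x - x₁| ≤ 1 / 10) (hx' : |x' - x₁| ≤ 1 / 10) (hle : x' ≤ x) :
    2 * Real.exp (2 * x₁ - 1) * (x - x') ≤ Real.exp (2 * x) - Real.exp (2 * x') ∧
    Real.exp (2 * x) - Real.exp (2 * x') ≤ 2 * Real.exp (2 * x₁ + 1) * (x - x') := by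
  have a := abs_le.1 hx
  have a' := abs_le.1 hx'
  constructor
  · have h1 := exp_sub_lower (s := 2 * x') (t := 2 * x)
    have h2 : Real.exp (2 * x₁ - 1) ≤ Real.exp (2 * x') := Real.exp_le_exp.2 (by linarith [a'.1])
    have h3 : 0 ≤ x - x' := by linarith
    nlinarith [mul_le_mul_of_nonneg_right h2 h3]
  · have h1 := exp_sub_upper (s := 2 * x') (t := 2 * x)
    have h2 : Real.exp (2 * x) ≤ Real.exp (2 * x₁ + 1) := Real.exp_le_exp.2 (by linarith [a.2])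
    have h3 : 0 ≤ x - x' := by linarith
    nlinarith [mul_le_mul_of_nonneg_right h2 h3]

/-- contraction of `x - ε² kap exp (2 x)` -/
theorem contr {x₁ x x' k e : ℝ} (hx : |x - x₁| ≤ 1 / 10) (hx' : |x' - x₁| ≤ 1 / 10)
    (hk : 0 ≤ k) (he : e = k) (hke : k * (2 * Real.exp (2 * x₁ + 1)) ≤ 1) :
    |(x - x') - e * (Real.exp (2 * x) - Real.exp (2 * x'))| ≤
      (1 - k * (2 * Real.exp (2 * x₁ - 1))) * |x - x'| := by
  subst he
  rcases le_total x' x with h | h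
  · obtain ⟨h1, h2⟩ := h_bounds hx hx' h
    have h3 : 0 ≤ x - x' := by linarith
    rw [abs_of_nonneg h3, abs_of_nonneg]
    · nlinarith [mul_le_mul_of_nonneg_left h1 hk]
    · nlinarith [mul_le_mul_of_nonneg_left h2 hk, mul_le_mul_of_nonneg_right hke h3]
  · obtain ⟨h1, h2⟩ := h_bounds hx' hx h
    have h3 : 0 ≤ x' - x := by linarith
    rw [abs_sub_comm x x', abs_of_nonneg h3, abs_of_nonpos]
    · nlinarith [mul_le_mul_of_nonneg_left h1 hk]
    · nlinarith [mul_le_mul_of_nonneg_left h2 hk, mul_le_mul_of_nonneg_right hke h3]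

theorem h_abs {x₁ x x' : ℝ} (hx : |x - x₁| ≤ 1 / 10) (hx' : |x' - x₁| ≤ 1 / 10) :
    |Real.exp (2 * x) - Real.exp (2 * x')| ≤ 2 * Real.exp (2 * x₁ + 1) * |x - x'| := by
  have hp := Real.exp_pos (2 * x₁ - 1)
  rcases le_total x' x with h | h
  · obtain ⟨h1, h2⟩ := h_bounds hx hx' h
    have h3 : 0 ≤ x - x' := by linarith
    rw [abs_of_nonneg h3, abs_of_nonneg]
    · exact h2
    · nlinarith [mul_nonneg hp.le h3]
  · obtain ⟨h1, h2⟩ := h_bounds hx' hx h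
    have h3 : 0 ≤ x' - x := by linarith
    rw [abs_sub_comm x x', abs_sub_comm (Real.exp _), abs_of_nonneg h3, abs_of_nonneg]
    · exact h2
    · nlinarith [mul_nonneg hp.le h3]

theorem cexp_lip {a : ℝ} {Z Z' : ℂ} (h : Z.re ≤ a) (h' : Z'.re ≤ a) :
    ‖Complex.exp Z - Complex.exp Z'‖ ≤ Real.exp a * ‖Z - Z'‖ := by
  have hc : Convex ℝ {z : ℂ | z.re ≤ a} := by
    have := (convex_Iic a).linear_preimage Complex.reLm
    exact this
  refine hc.norm_image_sub_le_of_norm_deriv_le (f := Complex.exp) (𝕜 := ℂ)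
    (fun z _ => Complex.differentiable_exp z) (fun z hz => ?_) h' h
  rw [Complex.deriv_exp, Complex.norm_exp]
  exact Real.exp_le_exp.2 hz

theorem norm_le_re_im (z : ℂ) : ‖z‖ ≤ |z.re| + |z.im| := Complex.norm_le_abs_re_add_abs_im z

theorem main_eq (ε : ℝ) (v v' : ℂ) (r : ℝ) :
    ((ε : ℂ) ^ 2 * (v + v' * (r : ℂ) ^ 2)).re = ε ^ 2 * (v.re + v'.re * r ^ 2) ∧
    ((ε : ℂ) ^ 2 * (v + v' * (r : ℂ) ^ 2)).im = ε ^ 2 * (v.im + v'.im * r ^ 2) := by
  have h1 : (ε : ℂ) ^ 2 = ((ε ^ 2 : ℝ) : ℂ) := by push_cast; ring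
  have h2 : (r : ℂ) ^ 2 = ((r ^ 2 : ℝ) : ℂ) := by push_cast; ring
  rw [h1, h2]
  constructor
  · rw [Complex.re_ofReal_mul, Complex.add_re, Complex.mul_re, Complex.ofReal_re,
      Complex.ofReal_im]; ring
  · rw [Complex.im_ofReal_mul, Complex.add_im, Complex.mul_im, Complex.ofReal_re,
      Complex.ofReal_im]; ring

set_option linter.unusedVariables false in
/-- one step of the cone argument, in real numbers -/
theorem real_step {ε K K' C C1 C3 c1 c2 kap vi E0 q T dx dw h r1 r2 dU T1 dx1 dw1 : ℝ}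
    (hε : 0 < ε) (hε1 : ε ≤ 1) (hK : 0 < K) (hK' : 0 < K') (hC : 0 < C) (hc1 : 0 < c1)
    (hkap : 0 < kap) (hE0 : 0 < E0) (hq : 0 ≤ q) (hc2 : 0 < c2)
    (hC1 : C1 = C * (2 * E0 + K')) (hC3 : C3 = |vi| * c2 * K + C1)
    (hKε : K * ε ≤ 1) (hk1 : ε ^ 2 * kap * c1 ≤ 1) (hKC : 2 * C1 ≤ kap * c1 * K)
    (hεC3 : 2 * (ε * C3) ≤ kap * c1) (hCε : 4 * (C * ε) ≤ 1 - q) (hεC3' : 4 * (ε * C3) ≤ 1 - q)
    (hKq : 8 * (C * E0) ≤ (1 - q) * K')
    (hT : 0 ≤ T) (hdx : |dx| ≤ K * ε * T) (hdw : |dw| ≤ K' * T) (hdU : dU ≤ E0 * (|dx| + T))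
    (hh : |h| ≤ c2 * |dx|) (hcon : |dx - ε ^ 2 * kap * h| ≤ (1 - ε ^ 2 * kap * c1) * |dx|)
    (hr1 : |r1| ≤ C * ε ^ 3 * (dU + |dw|)) (hr2 : |r2| ≤ C * ε ^ 3 * (dU + |dw|))
    (hT1 : T1 = T + ε ^ 2 * vi * h + r2) (hdx1 : dx1 = dx - ε ^ 2 * kap * h + r1)
    (hdw1 : |dw1| ≤ q * |dw| + C * (dU + ε * |dw|)) :
    0 ≤ T1 ∧ |dx1| ≤ K * ε * T1 ∧ |dw1| ≤ K' * T1 := by
  have hC10 : 0 < C1 := by rw [hC1]; positivity
  have hC30 : 0 < C3 := by rw [hC3]; positivity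
  have hdxT : |dx| ≤ T := hdx.trans (by nlinarith)
  have hdU2 : dU ≤ 2 * E0 * T := hdU.trans (by nlinarith)
  have hs : dU + |dw| ≤ (2 * E0 + K') * T := by linarith
  have hε3 : 0 < ε ^ 3 := by positivity
  have hrr : C * ε ^ 3 * (dU + |dw|) ≤ ε ^ 3 * C1 * T := by
    have := mul_le_mul_of_nonneg_left hs (by positivity : 0 ≤ C * ε ^ 3)
    rw [hC1]; linarith [this]
  have hε3C3 : 4 * (ε ^ 3 * C3) ≤ 1 - q := by
    have h1 : ε ^ 3 ≤ ε := by
      calc ε ^ 3 = ε * (ε * ε) := by ring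
        _ ≤ ε * (1 * 1) := by gcongr
        _ = ε := by ring
    have : ε ^ 3 * C3 ≤ ε * C3 := mul_le_mul_of_nonneg_right h1 hC30.le
    linarith
  -- lower bound of `T1`
  have hT1l : (1 - ε ^ 3 * C3) * T ≤ T1 := by
    have h1 : |ε ^ 2 * vi * h| ≤ ε ^ 3 * (|vi| * c2 * K) * T := by
      rw [abs_mul, abs_mul, abs_of_pos (by positivity : (0:ℝ) < ε ^ 2)]
      calc ε ^ 2 * |vi| * |h| ≤ ε ^ 2 * |vi| * (c2 * (K * ε * T)) := by
            gcongr
            exact hh.trans (by gcongr)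
        _ = ε ^ 3 * (|vi| * c2 * K) * T := by ring
    have h2 := (abs_le.1 (h1)).1
    have h3 := (abs_le.1 (hr2.trans hrr)).1
    have e : (1 - ε ^ 3 * (|vi| * c2 * K + C1)) * T =
        T - ε ^ 3 * (|vi| * c2 * K) * T - ε ^ 3 * C1 * T := by ring
    rw [hT1, hC3, e]; linarith
  have hT10 : 0 ≤ T1 := by
    refine le_trans (mul_nonneg ?_ hT) hT1l
    linarith
  refine ⟨hT10, ?_, ?_⟩
  · have h1 : |dx1| ≤ (1 - ε ^ 2 * kap * c1) * |dx| + ε ^ 3 * C1 * T := by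
      rw [hdx1]
      exact (abs_add_le _ _).trans (add_le_add hcon (hr1.trans hrr))
    have h2 : (1 - ε ^ 2 * kap * c1) * |dx| ≤ (1 - ε ^ 2 * kap * c1) * (K * ε * T) :=
      mul_le_mul_of_nonneg_left hdx (by linarith)
    have h3 : K * ε * ((1 - ε ^ 3 * C3) * T) ≤ K * ε * T1 :=
      mul_le_mul_of_nonneg_left hT1l (by positivity)
    have h4 : (1 - ε ^ 2 * kap * c1) * (K * ε * T) + ε ^ 3 * C1 * T ≤
        K * ε * ((1 - ε ^ 3 * C3) * T) := by
      have h5 : ε ^ 3 * T * (C1 + K * (ε * C3)) ≤ ε ^ 3 * T * (kap * c1 * K) := by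
        refine mul_le_mul_of_nonneg_left ?_ (by positivity)
        have h6 := mul_le_mul_of_nonneg_left hεC3 hK.le
        have h7 : K * (2 * (ε * C3)) = 2 * (K * (ε * C3)) := by ring
        have h8 : K * (kap * c1) = kap * c1 * K := by ring
        linarith
      have e : K * ε * ((1 - ε ^ 3 * C3) * T) -
          ((1 - ε ^ 2 * kap * c1) * (K * ε * T) + ε ^ 3 * C1 * T) =
          ε ^ 3 * T * (kap * c1 * K) - ε ^ 3 * T * (C1 + K * (ε * C3)) := by ring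
      linarith
    linarith
  · have h1 : q * |dw| + C * (dU + ε * |dw|) ≤ (q * K' + 2 * (C * E0) + C * ε * K') * T := by
      have a1 : q * |dw| ≤ q * (K' * T) := mul_le_mul_of_nonneg_left hdw hq
      have a2 : C * dU ≤ C * (2 * E0 * T) := mul_le_mul_of_nonneg_left hdU2 hC.le
      have a3 : C * ε * |dw| ≤ C * ε * (K' * T) := mul_le_mul_of_nonneg_left hdw (by positivity)
      linarith
    have h2 : (q * K' + 2 * (C * E0) + C * ε * K') * T ≤ K' * ((1 - ε ^ 3 * C3) * T) := by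
      have b1 : 4 * (C * ε) * K' ≤ (1 - q) * K' := mul_le_mul_of_nonneg_right hCε hK'.le
      have b2 : 4 * (ε ^ 3 * C3) * K' ≤ (1 - q) * K' := mul_le_mul_of_nonneg_right hε3C3 hK'.le
      have b0 : 0 < C * E0 := by positivity
      have b3 : q * K' + 2 * (C * E0) + C * ε * K' ≤ K' * (1 - ε ^ 3 * C3) := by linarith
      have := mul_le_mul_of_nonneg_right b3 hT
      linarith
    have h3 : K' * ((1 - ε ^ 3 * C3) * T) ≤ K' * T1 := mul_le_mul_of_nonneg_left hT1l hK'.le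
    linarith

/-- the hypothesis on the abstract map -/
def Hy (v v' : ℂ) (x₁ q M C ε : ℝ) {X : Type} (B : Set X) (F : X → X) (U l : X → ℂ) (W : X → ℝ)
    (m : ℂ) : Prop :=
    ∀ p ∈ B, U p ≠ 0 ∧ |W p| ≤ M ∧ (|Real.log ‖U p‖ - x₁| ≤ 1 / 10 → F p ∈ B) ∧
      U (F p) = m * U p * Complex.exp (l p) ∧
      ‖l p - ε ^ 2 * (v + v' * (‖U p‖ : ℂ) ^ 2)‖ ≤ C * ε ^ 3 ∧
      ∀ p' ∈ B, ‖(l p - ε ^ 2 * (v + v' * (‖U p‖ : ℂ) ^ 2)) -
          (l p' - ε ^ 2 * (v + v' * (‖U p'‖ : ℂ) ^ 2))‖ ≤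
          C * ε ^ 3 * (‖U p - U p'‖ + |W p - W p'|) ∧
        |W (F p) - W (F p')| ≤ q * |W p - W p'| + C * (‖U p - U p'‖ + ε * |W p - W p'|)

theorem log_step {X : Type} {F : X → X} {U l : X → ℂ} {m : ℂ} {p : X} (hm : ‖m‖ = 1)
    (hU : U p ≠ 0) (hF : U (F p) = m * U p * Complex.exp (l p)) :
    Real.log ‖U (F p)‖ = Real.log ‖U p‖ + (l p).re := by
  rw [hF, norm_mul, norm_mul, hm, one_mul, Complex.norm_exp,
    Real.log_mul (norm_ne_zero_iff.2 hU) (Real.exp_ne_zero _), Real.log_exp]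

theorem sq_eq {z : ℂ} (h : z ≠ 0) : ‖z‖ ^ 2 = Real.exp (2 * Real.log ‖z‖) := by
  rw [two_mul, Real.exp_add, Real.exp_log (norm_pos_iff.2 h), sq]

set_option linter.unusedVariables false in
/-- part (A) -/
theorem partA {v v' : ℂ} {x₁ q M C ε K₁ : ℝ} {X : Type} {B : Set X} {F : X → X} {U l : X → ℂ}
    {W : X → ℝ} {m : ℂ} (hv : v.re + v'.re * Real.exp (2 * x₁) = 0) (hm : ‖m‖ = 1)
    (hv' : v'.re < 0) (hε : 0 < ε) (hK₁ε : K₁ * ε ≤ 1 / 10)
    (hk2 : ε ^ 2 * (-v'.re) * (2 * Real.exp (2 * x₁ + 1)) ≤ 1)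
    (hCK : C ≤ (-v'.re) * (2 * Real.exp (2 * x₁ - 1)) * K₁)
    (H : Hy v v' x₁ q M C ε B F U l W m) {p : X} (hp : p ∈ B)
    (hx : |Real.log ‖U p‖ - x₁| ≤ K₁ * ε) :
    F p ∈ B ∧ |Real.log ‖U (F p)‖ - x₁| ≤ K₁ * ε ∧
      |(l p).im - ε ^ 2 * (v.im + v'.im * Real.exp (2 * x₁))| ≤
        (|v'.im| * (2 * Real.exp (2 * x₁ + 1)) * K₁ + C) * ε ^ 3 := by
  obtain ⟨hU, hW, hFB, hF, hl, -⟩ := H p hp
  set x := Real.log ‖U p‖ with hxd
  have hx10 : |x - x₁| ≤ 1 / 10 := hx.trans hK₁ε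
  have hx0 : |x₁ - x₁| ≤ 1 / 10 := by simp
  obtain ⟨e1, e2⟩ := main_eq ε v v' ‖U p‖
  rw [sq_eq hU, ← hxd] at e1 e2
  have hre := (Complex.abs_re_le_norm _).trans hl
  have him := (Complex.abs_im_le_norm _).trans hl
  rw [Complex.sub_re, e1] at hre
  rw [Complex.sub_im, e2] at him
  refine ⟨hFB hx10, ?_, ?_⟩
  · rw [log_step hm hU hF, ← hxd]
    have h1 := contr (k := ε ^ 2 * (-v'.re)) (e := ε ^ 2 * (-v'.re)) hx10 hx0
      (by have : 0 < -v'.re := by linarith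
          positivity) rfl hk2
    have h2 : x + (l p).re - x₁ = ((x - x₁) - ε ^ 2 * (-v'.re) *
        (Real.exp (2 * x) - Real.exp (2 * x₁))) +
        ((l p).re - ε ^ 2 * (v.re + v'.re * Real.exp (2 * x))) := by
      have : v.re = - (v'.re * Real.exp (2 * x₁)) := by linarith
      rw [this]; ring
    rw [h2]
    refine (abs_add_le _ _).trans ((add_le_add h1 hre).trans ?_)
    have h3 : (1 - ε ^ 2 * (-v'.re) * (2 * Real.exp (2 * x₁ - 1))) * |x - x₁| ≤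
        (1 - ε ^ 2 * (-v'.re) * (2 * Real.exp (2 * x₁ - 1))) * (K₁ * ε) := by
      refine mul_le_mul_of_nonneg_left hx ?_
      have : Real.exp (2 * x₁ - 1) ≤ Real.exp (2 * x₁ + 1) := Real.exp_le_exp.2 (by linarith)
      have hpos : 0 ≤ ε ^ 2 * (-v'.re) := by
        have : 0 < -v'.re := by linarith
        positivity
      nlinarith [mul_le_mul_of_nonneg_left this hpos]
    have h4 : ε ^ 3 * C ≤ ε ^ 3 * ((-v'.re) * (2 * Real.exp (2 * x₁ - 1)) * K₁) :=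
      mul_le_mul_of_nonneg_left hCK (by positivity)
    nlinarith
  · have h1 : (l p).im - ε ^ 2 * (v.im + v'.im * Real.exp (2 * x₁)) =
        ((l p).im - ε ^ 2 * (v.im + v'.im * Real.exp (2 * x))) +
        ε ^ 2 * v'.im * (Real.exp (2 * x) - Real.exp (2 * x₁)) := by ring
    rw [h1]
    refine (abs_add_le _ _).trans ?_
    have h2 : |ε ^ 2 * v'.im * (Real.exp (2 * x) - Real.exp (2 * x₁))| ≤
        ε ^ 2 * |v'.im| * (2 * Real.exp (2 * x₁ + 1) * (K₁ * ε)) := by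
      rw [abs_mul, abs_mul, abs_of_pos (by positivity : (0:ℝ) < ε ^ 2)]
      gcongr
      exact (h_abs hx10 hx0).trans (by gcongr)
    nlinarith

/-- part (B): the cone is preserved -/
theorem partB {v v' : ℂ} {x₁ q M C ε K₁ K K' C1 C3 : ℝ} {X : Type} {B : Set X} {F : X → X}
    {U l : X → ℂ} {W : X → ℝ} {m : ℂ} (hm : ‖m‖ = 1) (hv' : v'.re < 0)
    (hK₁ε : K₁ * ε ≤ 1 / 10)
    (hε : 0 < ε) (hε1 : ε ≤ 1) (hK : 0 < K) (hK' : 0 < K') (hC : 0 < C) (hq : 0 ≤ q)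
    (hC1 : C1 = C * (2 * Real.exp (x₁ + 1) + K'))
    (hC3 : C3 = |v'.im| * (2 * Real.exp (2 * x₁ + 1)) * K + C1)
    (hKε : K * ε ≤ 1) (hk2 : ε ^ 2 * (-v'.re) * (2 * Real.exp (2 * x₁ + 1)) ≤ 1)
    (hk1 : ε ^ 2 * (-v'.re) * (2 * Real.exp (2 * x₁ - 1)) ≤ 1)
    (hKC : 2 * C1 ≤ (-v'.re) * (2 * Real.exp (2 * x₁ - 1)) * K)
    (hεC3 : 2 * (ε * C3) ≤ (-v'.re) * (2 * Real.exp (2 * x₁ - 1)))
    (hCε : 4 * (C * ε) ≤ 1 - q) (hεC3' : 4 * (ε * C3) ≤ 1 - q)
    (hKq : 8 * (C * Real.exp (x₁ + 1)) ≤ (1 - q) * K')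
    (H : Hy v v' x₁ q M C ε B F U l W m) {p p' : X} (hp : p ∈ B) (hp' : p' ∈ B)
    (hx : |Real.log ‖U p‖ - x₁| ≤ K₁ * ε) (hx' : |Real.log ‖U p'‖ - x₁| ≤ K₁ * ε)
    {μ Z Z' : ℂ} (hμ : ‖μ‖ = 1) (hZ : U p = μ * Complex.exp Z) (hZ' : U p' = μ * Complex.exp Z')
    (hT : 0 ≤ (Z - Z').im) (hdx : |(Z - Z').re| ≤ K * ε * (Z - Z').im)
    (hdw : |W p - W p'| ≤ K' * (Z - Z').im) :
    0 ≤ ((Z + l p) - (Z' + l p')).im ∧
      |((Z + l p) - (Z' + l p')).re| ≤ K * ε * ((Z + l p) - (Z' + l p')).im ∧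
      |W (F p) - W (F p')| ≤ K' * ((Z + l p) - (Z' + l p')).im := by
  obtain ⟨hU, -, -, hF, hl, H2⟩ := H p hp
  obtain ⟨hU', -, -, hF', hl', -⟩ := H p' hp'
  obtain ⟨H3, H4⟩ := H2 p' hp'
  have hxZ : Real.log ‖U p‖ = Z.re := by
    rw [hZ, norm_mul, hμ, one_mul, Complex.norm_exp, Real.log_exp]
  have hxZ' : Real.log ‖U p'‖ = Z'.re := by
    rw [hZ', norm_mul, hμ, one_mul, Complex.norm_exp, Real.log_exp]
  have h10 := hx.trans hK₁ε
  have h10' := hx'.trans hK₁ε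
  obtain ⟨e1, e2⟩ := main_eq ε v v' ‖U p‖
  obtain ⟨e1', e2'⟩ := main_eq ε v v' ‖U p'‖
  rw [sq_eq hU, hxZ] at e1 e2
  rw [sq_eq hU', hxZ'] at e1' e2'
  rw [hxZ] at h10
  rw [hxZ'] at h10'
  have hkap : 0 < -v'.re := by linarith
  -- `‖U p - U p'‖`
  have hdU : ‖U p - U p'‖ ≤ Real.exp (x₁ + 1) * (|(Z - Z').re| + (Z - Z').im) := by
    rw [hZ, hZ', ← mul_sub, norm_mul, hμ, one_mul]
    refine (cexp_lip (a := x₁ + 1) ?_ ?_).trans ?_
    · linarith [(abs_le.1 h10).2]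
    · linarith [(abs_le.1 h10').2]
    · refine mul_le_mul_of_nonneg_left ?_ (Real.exp_pos _).le
      have := norm_le_re_im (Z - Z')
      rwa [abs_of_nonneg hT] at this
  have hre := (Complex.abs_re_le_norm _).trans H3
  have him := (Complex.abs_im_le_norm _).trans H3
  rw [Complex.sub_re, Complex.sub_re, Complex.sub_re, e1, e1'] at hre
  rw [Complex.sub_im, Complex.sub_im, Complex.sub_im, e2, e2'] at him
  have hh := h_abs h10 h10'
  have hcon := contr (k := ε ^ 2 * (-v'.re)) (e := ε ^ 2 * (-v'.re)) h10 h10'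
      (by positivity) rfl hk2
  rw [← Complex.sub_re] at hh hcon
  exact real_step (h := Real.exp (2 * Z.re) - Real.exp (2 * Z'.re)) (vi := v'.im)
    hε hε1 hK hK' hC (by positivity) hkap (Real.exp_pos (x₁ + 1)) hq
    (by positivity) hC1 hC3 hKε hk1 hKC hεC3 hCε hεC3' hKq hT hdx hdw hdU hh hcon hre him
    (by rw [Complex.sub_im, Complex.add_im, Complex.add_im, Complex.sub_im]; ring)
    (by rw [Complex.sub_re, Complex.add_re, Complex.add_re, Complex.sub_re]; ring)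
    H4

end ConeAux

theorem cone : S_CONE := by
  intro v v' x₁ q M C hv' hv hq0 hq1 hM hC
  have hkap : 0 < -v'.re := by linarith
  obtain ⟨c1, hc1⟩ : ∃ c1, c1 = 2 * Real.exp (2 * x₁ - 1) := ⟨_, rfl⟩
  obtain ⟨c2, hc2⟩ : ∃ c2, c2 = 2 * Real.exp (2 * x₁ + 1) := ⟨_, rfl⟩
  obtain ⟨E0, hE0⟩ : ∃ E0, E0 = Real.exp (x₁ + 1) := ⟨_, rfl⟩
  have c1p : 0 < c1 := by rw [hc1]; positivity
  have c2p : 0 < c2 := by rw [hc2]; positivity
  have E0p : 0 < E0 := by rw [hE0]; positivity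
  have c12 : c1 ≤ c2 := by
    rw [hc1, hc2]
    have : Real.exp (2 * x₁ - 1) ≤ Real.exp (2 * x₁ + 1) := Real.exp_le_exp.2 (by linarith)
    linarith
  have hq : 0 < 1 - q := by linarith
  obtain ⟨K', hK'⟩ : ∃ K', K' = 8 * (C * E0) / (1 - q) := ⟨_, rfl⟩
  have K'p : 0 < K' := by rw [hK']; positivity
  obtain ⟨C1, hC1⟩ : ∃ C1, C1 = C * (2 * E0 + K') := ⟨_, rfl⟩
  have C1p : 0 < C1 := by rw [hC1]; positivity
  obtain ⟨K, hK⟩ : ∃ K, K = 2 * C1 / (-v'.re * c1) := ⟨_, rfl⟩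
  have Kp : 0 < K := by rw [hK]; positivity
  obtain ⟨C3, hC3⟩ : ∃ C3, C3 = |v'.im| * c2 * K + C1 := ⟨_, rfl⟩
  have C3p : 0 < C3 := by rw [hC3]; positivity
  obtain ⟨K₁, hK₁⟩ : ∃ K₁, K₁ = C + C / (-v'.re * c1) := ⟨_, rfl⟩
  have K₁p : 0 < K₁ := by rw [hK₁]; positivity
  obtain ⟨S, hS⟩ : ∃ S, S = 10 * K₁ + -v'.re * c2 + K + 2 * C3 / (-v'.re * c1) +
    4 * C / (1 - q) + 4 * C3 / (1 - q) + 1 := ⟨_, rfl⟩
  have t1 : 0 < 2 * C3 / (-v'.re * c1) := by positivity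
  have t2 : 0 < 4 * C / (1 - q) := by positivity
  have t3 : 0 < 4 * C3 / (1 - q) := by positivity
  have t4 : 0 < -v'.re * c2 := by positivity
  have Sp : 0 < S := by linarith
  obtain ⟨L0, hL0⟩ : ∃ L0, L0 = 2 * K₁ / K + 2 * M / K' := ⟨_, rfl⟩
  have u1 : 0 < 2 * K₁ / K := by positivity
  have u2 : 0 < 2 * M / K' := by positivity
  have L0p : 0 < L0 := by linarith
  have hpi := Real.pi_pos
  have u3 : 0 ≤ |v'.im| * c2 * K₁ := by positivity
  refine ⟨1 / S, K₁, L0 + 2 * Real.pi + (|v'.im| * c2 * K₁ + C), by positivity, ?_, ?_, by linarith,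
    ?_⟩
  · rw [hK₁]
    have : 0 < C / (-v'.re * c1) := by positivity
    linarith
  · rw [mul_one_div, div_le_iff₀ Sp]
    linarith
  rintro ε ⟨hε, hεS⟩ X B F U l W m hm H
  have key : ∀ x : ℝ, 0 ≤ x → x ≤ S → x * ε ≤ 1 := by
    intro x hx hxS
    calc x * ε ≤ S * (1 / S) := by gcongr
      _ = 1 := by field_simp
  have hε1 : ε ≤ 1 := by
    have := key 1 zero_le_one (by linarith)
    linarith
  have hK₁ε : K₁ * ε ≤ 1 / 10 := by
    have := key (10 * K₁) (by positivity) (by linarith)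
    linarith
  have hk2 : ε ^ 2 * (-v'.re) * c2 ≤ 1 := by
    have h1 := key (-v'.re * c2) t4.le (by linarith)
    calc ε ^ 2 * (-v'.re) * c2 = (-v'.re * c2 * ε) * ε := by ring
      _ ≤ 1 * 1 := by gcongr
      _ = 1 := by ring
  have hk1 : ε ^ 2 * (-v'.re) * c1 ≤ 1 :=
    le_trans (mul_le_mul_of_nonneg_left c12 (by positivity)) hk2
  have hKε : K * ε ≤ 1 := key K Kp.le (by linarith)
  have hεC3 : 2 * (ε * C3) ≤ -v'.re * c1 := by
    have h1 := key _ t1.le (by linarith)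
    rw [div_mul_eq_mul_div, div_le_one (by positivity)] at h1
    linarith
  have hCε : 4 * (C * ε) ≤ 1 - q := by
    have h1 := key _ t2.le (by linarith)
    rw [div_mul_eq_mul_div, div_le_one (by positivity)] at h1
    linarith
  have hεC3' : 4 * (ε * C3) ≤ 1 - q := by
    have h1 := key _ t3.le (by linarith)
    rw [div_mul_eq_mul_div, div_le_one (by positivity)] at h1
    linarith
  have hKC : 2 * C1 ≤ -v'.re * c1 * K := by
    have := div_mul_cancel₀ (2 * C1) (ne_of_gt (by positivity : 0 < -v'.re * c1))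
    rw [← hK] at this
    linarith
  have hKq : 8 * (C * E0) ≤ (1 - q) * K' := by
    have := div_mul_cancel₀ (8 * (C * E0)) (ne_of_gt hq)
    rw [← hK'] at this
    linarith
  have hCK : C ≤ (-v'.re) * c1 * K₁ := by
    rw [hK₁, mul_add]
    have h1 := div_mul_cancel₀ C (ne_of_gt (by positivity : 0 < -v'.re * c1))
    have h2 : 0 < -v'.re * c1 * C := by positivity
    linarith
  have A := fun (p : X) (hp : p ∈ B) (hx : |Real.log ‖U p‖ - x₁| ≤ K₁ * ε) =>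
    ConeAux.partA hv hm hv' hε hK₁ε (by rw [← hc2]; exact hk2) (by rw [← hc1]; exact hCK) H hp hx
  refine ⟨fun p hp hx => ?_, ?_⟩
  · obtain ⟨a1, a2, a3⟩ := A p hp hx
    refine ⟨a1, a2, a3.trans ?_⟩
    rw [← hc2]
    refine mul_le_mul_of_nonneg_right ?_ (by positivity)
    linarith
  -- one sided bound
  have one : ∀ p ∈ B, ∀ p' ∈ B, |Real.log ‖U p‖ - x₁| ≤ K₁ * ε →
      |Real.log ‖U p'‖ - x₁| ≤ K₁ * ε → ∀ n, Sm F l n p' - Sm F l n p ≤ L0 + 2 * Real.pi := by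
    intro p hp p' hp' hx hx' n
    obtain ⟨hU, hW, -⟩ := H p hp
    obtain ⟨hU', hW', -⟩ := H p' hp'
    obtain ⟨τ, hτ⟩ : ∃ τ, τ = (Complex.log (U p) - Complex.log (U p')).im := ⟨_, rfl⟩
    obtain ⟨k, hk⟩ : ∃ k : ℤ, k = ⌈(L0 - τ) / (2 * Real.pi)⌉ := ⟨_, rfl⟩
    have k1 : (L0 - τ) / (2 * Real.pi) ≤ k := by rw [hk]; exact Int.le_ceil _
    have k2 : (k : ℝ) < (L0 - τ) / (2 * Real.pi) + 1 := by rw [hk]; exact Int.ceil_lt_add_one _
    rw [div_le_iff₀ (by positivity)] at k1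
    have k3 : (k : ℝ) * (2 * Real.pi) < L0 - τ + 2 * Real.pi := by
      have := mul_lt_mul_of_pos_right k2 (by positivity : 0 < 2 * Real.pi)
      have e : ((L0 - τ) / (2 * Real.pi) + 1) * (2 * Real.pi) = L0 - τ + 2 * Real.pi := by
        field_simp
      rwa [e] at this
    obtain ⟨c, hc⟩ : ∃ c : ℂ, c = Complex.log (U p) + k * (2 * Real.pi * Complex.I) := ⟨_, rfl⟩
    obtain ⟨c', hc'⟩ : ∃ c' : ℂ, c' = Complex.log (U p') := ⟨_, rfl⟩
    have ec : Complex.exp c = U p := by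
      rw [hc, Complex.exp_add, Complex.exp_int_mul_two_pi_mul_I, mul_one, Complex.exp_log hU]
    have ec' : Complex.exp c' = U p' := by rw [hc', Complex.exp_log hU']
    have imc : (c - c').im = τ + k * (2 * Real.pi) := by
      rw [hc, hc', hτ]
      simp
      ring
    have hrec : |(c - c').re| ≤ 2 * K₁ * ε := by
      have h1 : Real.log ‖U p‖ = c.re := by rw [← ec, Complex.norm_exp, Real.log_exp]
      have h2 : Real.log ‖U p'‖ = c'.re := by rw [← ec', Complex.norm_exp, Real.log_exp]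
      rw [h1] at hx
      rw [h2] at hx'
      rw [Complex.sub_re]
      have a := abs_le.1 hx
      have b := abs_le.1 hx'
      rw [abs_le]
      constructor <;> linarith [a.1, a.2, b.1, b.2]
    have T0 : L0 ≤ (c - c').im := by rw [imc]; linarith
    have T0' : (c - c').im ≤ L0 + 2 * Real.pi := by rw [imc]; linarith
    have main : ∀ n, F^[n] p ∈ B ∧ F^[n] p' ∈ B ∧ |Real.log ‖U (F^[n] p)‖ - x₁| ≤ K₁ * ε ∧
        |Real.log ‖U (F^[n] p')‖ - x₁| ≤ K₁ * ε ∧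
        ∃ Z Z' : ℂ, U (F^[n] p) = m ^ n * Complex.exp Z ∧ U (F^[n] p') = m ^ n * Complex.exp Z' ∧
          (Z - Z').im = (c - c').im + Sm F l n p - Sm F l n p' ∧ 0 ≤ (Z - Z').im ∧
          |(Z - Z').re| ≤ K * ε * (Z - Z').im ∧
          |W (F^[n] p) - W (F^[n] p')| ≤ K' * (Z - Z').im := by
      intro n
      induction n with
      | zero =>
        refine ⟨hp, hp', hx, hx', c, c', ?_, ?_, ?_, ?_, ?_, ?_⟩
        · simp [ec]
        · simp [ec']
        · simp [Sm]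
        · linarith
        · refine hrec.trans ?_
          have : 2 * K₁ ≤ K * (c - c').im := by
            have h1 : 2 * K₁ / K ≤ (c - c').im := by linarith
            rw [div_le_iff₀ Kp] at h1
            linarith
          have h2 := mul_le_mul_of_nonneg_right this hε.le
          linarith
        · have h1 : 2 * M / K' ≤ (c - c').im := by linarith
          rw [div_le_iff₀ K'p] at h1
          have a := abs_le.1 hW
          have b := abs_le.1 hW'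
          simp only [Function.iterate_zero, id_eq]
          rw [abs_le]
          constructor <;> linarith [a.1, a.2, b.1, b.2]
      | succ n ih =>
        obtain ⟨b1, b2, b3, b4, Z, Z', z1, z2, z3, z4, z5, z6⟩ := ih
        obtain ⟨a1, a2, -⟩ := A _ b1 b3
        obtain ⟨a1', a2', -⟩ := A _ b2 b4
        have hmn : ‖m ^ n‖ = 1 := by rw [norm_pow, hm, one_pow]
        obtain ⟨s1, s2, s3⟩ := ConeAux.partB (C1 := C1) (C3 := C3) hm hv' hK₁ε hε hε1 Kp K'p hC hq0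
          (by rw [← hE0]; exact hC1) (by rw [← hc2]; exact hC3) hKε (by rw [← hc2]; exact hk2)
          (by rw [← hc1]; exact hk1) (by rw [← hc1]; exact hKC) (by rw [← hc1]; exact hεC3)
          hCε hεC3' (by rw [← hE0]; exact hKq) H b1 b2 b3 b4 hmn z1 z2 z4 z5 z6
        obtain ⟨-, -, -, g1, -⟩ := H _ b1
        obtain ⟨-, -, -, g2, -⟩ := H _ b2
        rw [Function.iterate_succ_apply', Function.iterate_succ_apply']
        refine ⟨a1, a1', a2, a2', Z + l (F^[n] p), Z' + l (F^[n] p'), ?_, ?_, ?_, s1, s2, s3⟩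
        · rw [g1, z1, Complex.exp_add]; ring
        · rw [g2, z2, Complex.exp_add]; ring
        · have e1 : Sm F l (n + 1) p = Sm F l n p + (l (F^[n] p)).im := by
            unfold Sm; rw [Finset.sum_range_succ]
          have e2 : Sm F l (n + 1) p' = Sm F l n p' + (l (F^[n] p')).im := by
            unfold Sm; rw [Finset.sum_range_succ]
          have e3 : ((Z + l (F^[n] p)) - (Z' + l (F^[n] p'))).im =
              (Z - Z').im + (l (F^[n] p)).im - (l (F^[n] p')).im := by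
            simp only [Complex.sub_im, Complex.add_im]; ring
          rw [e1, e2, e3, z3]; ring
    obtain ⟨-, -, -, -, Z, Z', -, -, z3, z4, -⟩ := main n
    linarith
  intro p hp p' hp' hx hx' n
  have o1 := one p hp p' hp' hx hx' n
  have o2 := one p' hp' p hp hx' hx n
  rw [abs_le]
  constructor <;> linarith

end Pool.Agent.NH81.NS
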