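import Pool.Agent.NH81.NS.Main

/-!
# Project NS: the recurrence
-/

set_option autoImplicit false

open Set Filter Topology
open scoped ComplexConjugate

namespace Pool.Agent.NH81.NS

namespace Main

open Alg Step

/-- The state in the coordinates. -/
noncomputable def PP (ε : ℝ) (s : ℝ × ℝ × ℝ) : ℂ × ℝ := (cA ε s.1 s.2.1 s.2.2, cw ε s.1 s.2.1 s.2.2)

theorem cont_PP (ε : ℝ) : Continuous (PP ε) := by
  unfold PP cA cw
  fun_prop

/-- States in the domain are bounded below. -/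
theorem state_pos {ε : ℝ} (hε : ε ∈ Ioc (0 : ℝ) (1 / 100)) {x y z : ℝ}
    (h : PP ε (x, y, z) ∈ BB) : 1 ≤ x ∧ 1 ≤ y := by
  obtain ⟨_, h2, _⟩ := link ε hε.1
  obtain ⟨hx, hy, _⟩ := h2 x y z
  have hg1 := g_gt
  have hg2 := g_lt
  have hA : ‖cA ε x y z‖ ≤ 4 := h.2.1
  have hw : |cw ε x y z| ≤ 30 := h.2.2
  have hεw : |ε * cw ε x y z| ≤ 0.3 := by
    rw [abs_mul, abs_of_pos hε.1]
    have := mul_le_mul hε.2 hw (abs_nonneg _) (by norm_num)
    linarith
  have key : ∀ (u c : ℝ) (T : ℂ), 0 ≤ c → c ≤ 3 → ‖T‖ ≤ 8 →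
      (u : ℂ) = (1 + g - ε ^ 2) + ε * (T + c * ε * cw ε x y z) → 1 ≤ u := by
    intro u c T hc0 hc hT hu
    have h3 : u = (1 + g - ε ^ 2) + ε * (T.re + c * (ε * cw ε x y z)) := by
      have := congrArg Complex.re hu
      have e1 : ((1 + g - ε ^ 2 : ℂ) + ε * (T + c * ε * cw ε x y z)) =
        ((1 + g - ε ^ 2 + ε * (c * (ε * cw ε x y z)) : ℝ) : ℂ) + ((ε : ℝ) : ℂ) * T := by
        push_cast
        ring
      rw [e1, Complex.add_re, Complex.re_ofReal_mul, Complex.ofReal_re, Complex.ofReal_re] at this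
      rw [this]
      ring
    have h4 : -8 ≤ T.re := by
      have := (abs_le.1 (Complex.abs_re_le_norm T)).1
      linarith
    have h5 : -0.9 ≤ c * (ε * cw ε x y z) := by
      have := (abs_le.1 hεw).1
      nlinarith
    have h6 : -8.9 ≤ T.re + c * (ε * cw ε x y z) := by linarith
    have h7 : -0.089 ≤ ε * (T.re + c * (ε * cw ε x y z)) := by
      have := mul_le_mul_of_nonneg_left h6 hε.1.le
      have := hε.2
      nlinarith
    have h8 : ε ^ 2 ≤ 0.0001 := by
      have := hε.1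
      have := hε.2
      nlinarith
    rw [h3]
    linarith
  constructor
  · refine key x (2 + g) (conj lam ^ 2 * cA ε x y z + lam ^ 2 * conj (cA ε x y z)) (by linarith)
      (by linarith) ?_ ?_
    · refine (norm_add_le _ _).trans ?_
      rw [norm_mul, norm_mul, norm_pow, norm_pow, RCLike.norm_conj, RCLike.norm_conj, norm_lam]
      linarith
    · rw [hx]
      push_cast
      ring
  · refine key y (1 + g) (b0 (cA ε x y z)) (by linarith) (by linarith) (norm_b0 hA) ?_
    · rw [hy]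
      push_cast
      ring

/-- One step of the recurrence. -/
theorem PP_step {ε : ℝ} (hε : ε ∈ Ioc (0 : ℝ) (1 / 100)) {x y z t : ℝ} (hy : y ≠ 0)
    (ht : t = g - ε ^ 2 + x / y) : PP ε (y, z, t) = FF ε (PP ε (x, y, z)) := by
  obtain ⟨h1, _, _⟩ := link ε hε.1
  obtain ⟨h2, h3⟩ := h1 x y z hy
  subst ht
  exact Prod.ext h2 h3

theorem uu_iter {K ε : ℝ}
    (hrel : ∀ p ∈ BB, uu ε (FF ε p) = lam * uu ε p * Complex.exp (ll ε p))
    (hD : ∀ p ∈ DD K ε, FF ε p ∈ DD K ε) {q : ℂ × ℝ} (hq : q ∈ DD K ε) (n : ℕ) :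
    (FF ε)^[n] q ∈ DD K ε ∧ uu ε ((FF ε)^[n] q) = lam ^ n * uu ε q *
      Complex.exp (∑ j ∈ Finset.range n, ll ε ((FF ε)^[j] q)) := by
  induction n with
  | zero => simpa using hq
  | succ n ih =>
    obtain ⟨h1, h2⟩ := ih
    rw [Function.iterate_succ_apply']
    refine ⟨hD _ h1, ?_⟩
    rw [hrel _ h1.1, h2, Finset.sum_range_succ, Complex.exp_add, pow_succ]
    ring

theorem Sm_mul {X : Type} (F : X → X) (l : X → ℂ) {k : ℕ} {q : X} (hq : F^[k] q = q) (j : ℕ) :
    Sm F l (j * k) q = j * Sm F l k q := by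
  induction j with
  | zero => simp [Sm]
  | succ j ih =>
    have h1 : F^[j * k] q = q := by
      rw [Nat.mul_comm, Function.iterate_mul]
      exact Function.iterate_fixed hq j
    rw [Nat.succ_mul, Sm_add, ih, h1]
    push_cast
    ring

/-- Periodic orbits in the region have a rational rotation number. -/
theorem not_periodic {K ε L ρ : ℝ} (hρ : Irrational ρ)
    (hU : ∀ p ∈ BB, uu ε p ≠ 0)
    (hrel : ∀ p ∈ BB, uu ε (FF ε p) = lam * uu ε p * Complex.exp (ll ε p))
    (hD : ∀ p ∈ DD K ε, FF ε p ∈ DD K ε)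
    (hL : ∀ p ∈ DD K ε, ∀ n : ℕ, |n * Complex.arg lam + Sm (FF ε) (ll ε) n p -
      2 * Real.pi * n * ρ| ≤ L) {q : ℂ × ℝ} (hq : q ∈ DD K ε) {k : ℕ} (hk : 0 < k)
    (hper : (FF ε)^[k] q = q) : False := by
  obtain ⟨_, h1⟩ := uu_iter hrel hD hq k
  rw [hper] at h1
  have hUq := hU q hq.1
  have hlam : lam = Complex.exp (Complex.arg lam * Complex.I) := by
    have := Complex.norm_mul_exp_arg_mul_I lam
    rw [norm_lam, Complex.ofReal_one, one_mul] at this
    exact this.symm
  have h2 : Complex.exp (k * (Complex.arg lam * Complex.I) +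
      ∑ j ∈ Finset.range k, ll ε ((FF ε)^[j] q)) = 1 := by
    rw [Complex.exp_add, Complex.exp_nat_mul, ← hlam]
    have h3 : uu ε q * (lam ^ k * Complex.exp (∑ j ∈ Finset.range k, ll ε ((FF ε)^[j] q)) - 1) = 0 := by
      linear_combination -h1
    rcases mul_eq_zero.1 h3 with h4 | h4
    · exact absurd h4 hUq
    · linear_combination h4
  obtain ⟨m, hm⟩ := Complex.exp_eq_one_iff.1 h2
  have h3 : k * Complex.arg lam + Sm (FF ε) (ll ε) k q = 2 * Real.pi * m := by
    have h4 := congrArg Complex.im hm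
    have e1 : ((k : ℂ) * (Complex.arg lam * Complex.I)).im = k * Complex.arg lam := by simp
    have e2 : ((m : ℂ) * (2 * Real.pi * Complex.I)).im = 2 * Real.pi * m := by
      simp
      ring
    have e3 : (∑ j ∈ Finset.range k, ll ε ((FF ε)^[j] q)).im = Sm (FF ε) (ll ε) k q := by
      rw [Complex.im_sum]
      rfl
    rw [Complex.add_im, e1, e2, e3] at h4
    exact h4
  have h4 : ∀ j : ℕ, (j : ℝ) * |2 * Real.pi * (m - k * ρ)| ≤ L := by
    intro j
    have h5 := hL q hq (j * k)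
    rw [Sm_mul (FF ε) (ll ε) hper j] at h5
    have h6 : ((j * k : ℕ) : ℝ) * Complex.arg lam + j * Sm (FF ε) (ll ε) k q -
        2 * Real.pi * ((j * k : ℕ) : ℝ) * ρ = j * (2 * Real.pi * (m - k * ρ)) := by
      push_cast
      linear_combination (j : ℝ) * h3
    rw [h6, abs_mul, Nat.abs_cast] at h5
    exact h5
  have h5 : |2 * Real.pi * (m - k * ρ)| = 0 := by
    by_contra hne
    have hpos : 0 < |2 * Real.pi * (m - k * ρ)| := lt_of_le_of_ne (abs_nonneg _) (Ne.symm hne)
    obtain ⟨j, hj⟩ := exists_nat_gt (L / |2 * Real.pi * (m - k * ρ)|)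
    rw [div_lt_iff₀ hpos] at hj
    linarith [h4 j]
  have h6 : (m : ℝ) - k * ρ = 0 := by
    have := abs_eq_zero.1 h5
    rcases mul_eq_zero.1 this with h7 | h7
    · exact absurd h7 (by positivity)
    · exact h7
  apply hρ
  refine ⟨(m : ℚ) / (k : ℚ), ?_⟩
  have hk0 : (k : ℝ) ≠ 0 := by exact_mod_cast hk.ne'
  push_cast
  rw [div_eq_iff hk0]
  linarith

/-- Parameters close to `g`, with an open set of initial values. -/
theorem main {δ : ℝ} (hδ : 0 < δ) : ∃ γ : ℝ, g - δ < γ ∧ γ < g ∧ 0 < γ ∧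
    ∃ O : Set (ℝ × ℝ × ℝ), IsOpen O ∧ O.Nonempty ∧ ∀ x : ℕ → ℝ, (x 0, x 1, x 2) ∈ O →
      (∀ n, x (n + 3) = γ + x n / x (n + 1)) → (∀ n, 0 < x n) ∧
      ∀ (p : ℕ → ℝ) (k : ℕ), 0 < k → (∀ n, p (n + k) = p n) →
        ¬ Tendsto (fun n => x n - p n) atTop (𝓝 0) := by
  obtain ⟨ε, K, L, ρ, hε, hεδ, hρ, _, hU, hrel, hD, hps, hL⟩ := exists_eps hδ
  have hg1 := g_gt
  have hg2 := g_lt
  have hε0 := hε.1
  have hε1 := hε.2
  have hε2 : ε ^ 2 ≤ ε / 100 := by nlinarith
  refine ⟨g - ε ^ 2, by linarith, by nlinarith, by linarith, ?_⟩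
  set O : Set (ℝ × ℝ × ℝ) := {s | (1 < ‖(PP ε s).1‖ ∧ ‖(PP ε s).1‖ < 4) ∧ (|(PP ε s).2| < 30 ∧
    (Real.exp (x₀ - K * ε) < ‖uu ε (PP ε s)‖ ∧ ‖uu ε (PP ε s)‖ < Real.exp (x₀ + K * ε)))} with hO
  have hOD : ∀ s ∈ O, PP ε s ∈ DD K ε := by
    rintro s ⟨⟨h1, h2⟩, h3, h4, h5⟩
    have hB : PP ε s ∈ BB := ⟨h1.le, h2.le, h3.le⟩
    have hpos : 0 < ‖uu ε (PP ε s)‖ := norm_pos_iff.2 (hU _ hB)
    refine ⟨hB, abs_le.2 ⟨?_, ?_⟩⟩
    · have := (Real.lt_log_iff_exp_lt hpos).2 h4
      linarith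
    · have := (Real.log_lt_iff_lt_exp hpos).2 h5
      linarith
  refine ⟨O, ?_, ?_, ?_⟩
  · have c1 : Continuous fun s => ‖(PP ε s).1‖ := (cont_PP ε).fst.norm
    have c2 : Continuous fun s => |(PP ε s).2| := (cont_PP ε).snd.abs
    have c3 : Continuous fun s => ‖uu ε (PP ε s)‖ := ((cont_uu ε).comp (cont_PP ε)).norm
    exact ((isOpen_lt continuous_const c1).inter (isOpen_lt c1 continuous_const)).inter
      ((isOpen_lt c2 continuous_const).inter
        ((isOpen_lt continuous_const c3).inter (isOpen_lt c3 continuous_const)))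
  · obtain ⟨_, _, h3⟩ := link ε hε0
    obtain ⟨x, y, z, hA, hw⟩ := h3 ps.1 ps.2
    have hP : PP ε (x, y, z) = ps := Prod.ext hA hw
    refine ⟨(x, y, z), ?_⟩
    have hn : ‖ps.1‖ = Real.exp x₀ := by
      change ‖((Real.exp x₀ : ℝ) : ℂ)‖ = Real.exp x₀
      rw [Complex.norm_real, Real.norm_eq_abs, abs_of_pos (Real.exp_pos _)]
    obtain ⟨hx1, hx2⟩ := exp_x₀
    have hpos : 0 < ‖uu ε ps‖ := norm_pos_iff.2 (hU _ hps.1)
    obtain ⟨h5, h6⟩ := abs_lt.1 hps.2
    rw [hO]
    simp only [mem_setOf_eq, hP, hn]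
    refine ⟨⟨by linarith, by linarith⟩, ?_, ?_, ?_⟩
    · change |(0 : ℝ)| < 30
      rw [abs_zero]
      norm_num
    · exact (Real.lt_log_iff_exp_lt hpos).1 (by linarith)
    · exact (Real.log_lt_iff_lt_exp hpos).1 (by linarith)
  · intro x hx0 hx
    have hPD : ∀ n, PP ε (x n, x (n + 1), x (n + 2)) ∈ DD K ε := by
      intro n
      induction n with
      | zero => exact hOD _ hx0
      | succ n ih =>
        have h1 := (state_pos hε ih.1).2
        have h2 : PP ε (x (n + 1), x (n + 2), x (n + 3)) = FF ε (PP ε (x n, x (n + 1), x (n + 2))) :=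
          PP_step hε (by linarith) (hx n)
        have h3 := hD _ ih
        rw [← h2] at h3
        exact h3
    have hx1 : ∀ n, 1 ≤ x n := fun n => (state_pos hε (hPD n).1).1
    refine ⟨fun n => by linarith [hx1 n], ?_⟩
    intro p k hk hp hlim
    -- the limits along arithmetic progressions
    have hpk : ∀ n j : ℕ, p (n + j * k) = p n := by
      intro n j
      induction j with
      | zero => simp
      | succ j ih =>
        rw [Nat.succ_mul, ← Nat.add_assoc, hp, ih]
    have hsub : ∀ n : ℕ, Tendsto (fun j : ℕ => x (n + j * k)) atTop (𝓝 (p n)) := by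
      intro n
      have h1 : Tendsto (fun j : ℕ => n + j * k) atTop atTop :=
        tendsto_atTop_mono (fun j => (Nat.le_mul_of_pos_right j hk).trans (Nat.le_add_left _ _))
          tendsto_id
      have h2 := (hlim.comp h1).add_const (p n)
      rw [zero_add] at h2
      refine h2.congr fun j => ?_
      simp only [Function.comp, hpk n j]
      ring
    have hstate : ∀ n : ℕ, Tendsto (fun j : ℕ => PP ε (x (n + j * k), x (n + 1 + j * k),
        x (n + 2 + j * k))) atTop (𝓝 (PP ε (p n, p (n + 1), p (n + 2)))) := by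
      intro n
      exact ((cont_PP ε).tendsto _).comp
        ((hsub n).prodMk_nhds ((hsub (n + 1)).prodMk_nhds (hsub (n + 2))))
    have hPDj : ∀ n j : ℕ, PP ε (x (n + j * k), x (n + 1 + j * k), x (n + 2 + j * k)) ∈ DD K ε := by
      intro n j
      have h1 := hPD (n + j * k)
      have e1 : n + j * k + 1 = n + 1 + j * k := by ring
      have e2 : n + j * k + 2 = n + 2 + j * k := by ring
      rw [e1, e2] at h1
      exact h1
    have hqB : ∀ n : ℕ, PP ε (p n, p (n + 1), p (n + 2)) ∈ BB := by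
      intro n
      exact isClosed_BB.mem_of_tendsto (hstate n) (Eventually.of_forall fun j => (hPDj n j).1)
    have hqD : ∀ n : ℕ, PP ε (p n, p (n + 1), p (n + 2)) ∈ DD K ε := by
      intro n
      refine ⟨hqB n, ?_⟩
      have h1 := ((cont_uu ε).tendsto _).comp (hstate n)
      have h2 : Tendsto (fun j : ℕ => |Real.log ‖uu ε (PP ε (x (n + j * k), x (n + 1 + j * k),
          x (n + 2 + j * k)))‖ - x₀|) atTop
          (𝓝 |Real.log ‖uu ε (PP ε (p n, p (n + 1), p (n + 2)))‖ - x₀|) := by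
        have h3 : ‖uu ε (PP ε (p n, p (n + 1), p (n + 2)))‖ ≠ 0 := norm_ne_zero_iff.2 (hU _ (hqB n))
        exact (((Real.continuousAt_log h3).tendsto.comp h1.norm).sub_const _).abs
      exact le_of_tendsto h2 (Eventually.of_forall fun j => (hPDj n j).2)
    have hp1 : ∀ n, 1 ≤ p n := fun n => (state_pos hε (hqB n)).1
    have hprec : ∀ n, p (n + 3) = g - ε ^ 2 + p n / p (n + 1) := by
      intro n
      have h0 : p (n + 1) ≠ 0 := by linarith [hp1 (n + 1)]
      have h1 := hsub (n + 3)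
      have h2 : Tendsto (fun j : ℕ => g - ε ^ 2 + x (n + j * k) / x (n + 1 + j * k)) atTop
          (𝓝 (g - ε ^ 2 + p n / p (n + 1))) :=
        (((hsub n).div (hsub (n + 1)) h0)).const_add _
      refine tendsto_nhds_unique h1 (h2.congr fun j => ?_)
      have h3 := hx (n + j * k)
      have e1 : n + j * k + 3 = n + 3 + j * k := by ring
      have e2 : n + j * k + 1 = n + 1 + j * k := by ring
      rw [e1, e2] at h3
      exact h3.symm
    have hit : ∀ n, (FF ε)^[n] (PP ε (p 0, p 1, p 2)) = PP ε (p n, p (n + 1), p (n + 2)) := by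
      intro n
      induction n with
      | zero => rfl
      | succ n ih =>
        rw [Function.iterate_succ_apply', ih]
        exact (PP_step hε (by linarith [hp1 (n + 1)]) (hprec n)).symm
    have hper : (FF ε)^[k] (PP ε (p 0, p 1, p 2)) = PP ε (p 0, p 1, p 2) := by
      rw [hit k]
      have e0 : p k = p 0 := by simpa using hp 0
      have e1 : p (k + 1) = p 1 := by
        have := hp 1
        rwa [Nat.add_comm 1 k] at this
      have e2 : p (k + 2) = p 2 := by
        have := hp 2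
        rwa [Nat.add_comm 2 k] at this
      rw [e0, e1, e2]
    exact not_periodic hρ hU hrel hD hL (hqD 0) hk hper

end Main

end Pool.Agent.NH81.NS
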