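import Pool.Agent.NH81.NS.Stm

/-!
# Project NS, piece LINK: the coordinates conjugate the recurrence to the map `(FA, Fw)`
-/

set_option autoImplicit false

open Set
open scoped ComplexConjugate

namespace Pool.Agent.NH81.NS

namespace LinkAux

lemma g_rel : g ^ 2 + g - 1 = 0 := by
  unfold g
  have h5 : Real.sqrt 5 ^ 2 = 5 := Real.sq_sqrt (by norm_num)
  nlinarith [h5]

lemma g_pos : 0 < g := by
  unfold g
  have : (1 : ℝ) < Real.sqrt 5 := by
    rw [show (1 : ℝ) = Real.sqrt 1 by simp]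
    exact Real.sqrt_lt_sqrt (by norm_num) (by norm_num)
  linarith

lemma sg_sq : sg ^ 2 = 1 - g ^ 2 / 4 := by
  unfold sg
  refine Real.sq_sqrt ?_
  nlinarith [g_rel, g_pos]

lemma gC_rel : (g : ℂ) ^ 2 + g - 1 = 0 := by
  exact_mod_cast congrArg (fun t : ℝ => (t : ℂ)) g_rel

lemma lam_rel : lam ^ 2 + g * lam + 1 = 0 := by
  have h := sg_sq
  apply Complex.ext
  · simp only [lam, pow_two, Complex.add_re, Complex.mul_re, Complex.ofReal_re,
      Complex.ofReal_im, Complex.one_re, Complex.zero_re]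
    nlinarith [h]
  · simp only [lam, pow_two, Complex.add_im, Complex.mul_im, Complex.ofReal_re,
      Complex.ofReal_im, Complex.one_im, Complex.zero_im]
    ring

lemma conj_lam : conj lam = -(g : ℂ) - lam := by
  apply Complex.ext
  · simp only [lam, Complex.conj_re, Complex.sub_re, Complex.neg_re, Complex.ofReal_re]
    ring
  · simp only [lam, Complex.conj_im, Complex.sub_im, Complex.neg_im, Complex.ofReal_im]
    ring

lemma conj_kk : conj kk =
    (23 - 7 * (-(g : ℂ) - lam) - 4 * g + 6 * g * (-(g : ℂ) - lam)) / 55 := by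
  unfold kk
  simp only [map_div₀, map_sub, map_add, map_mul, Complex.conj_ofReal, conj_lam, map_ofNat]

section alg

variable {L G : ℂ} (R1 : L ^ 2 + G * L + 1 = 0) (R2 : G ^ 2 + G - 1 = 0)
include R1 R2

lemma inv_a (a b c : ℂ) :
    (-G - L) ^ 2 * ((23 - 7 * L - 4 * G + 6 * G * L) / 55 * (c + L * b + G * (-G - L) * a)) +
      L ^ 2 * ((23 - 7 * (-G - L) - 4 * G + 6 * G * (-G - L)) / 55 *
        (c + (-G - L) * b + G * L * a)) +
      (2 + G) * ((3 - G) / 11 * (c + G * b + a)) = a := by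
  linear_combination (- (12/55) * L ^ 2 * G ^ 2 * a + (14/55) * L ^ 2 * G * a + (12/55) * L ^ 2 *
      G * b - (14/55) * L ^ 2 * b - (12/55) * L * G ^ 3 * a + (14/55) * L * G ^ 2 * a + (12/55)
      * L * G ^ 2 * b - (14/55) * L * G * b - (6/55) * G ^ 4 * a + (19/55) * G ^ 3 * a - (57/55)
      * G ^ 2 * a - (4/55) * G ^ 2 * b + (6/55) * G ^ 2 * c - (14/55) * G * a + (1/5) * G * b -
      (3/11) * G * c + (14/55) * b + (46/55) * c ) * R1 + ( (4/55) * G ^ 3 * a - (21/55) * G ^ 2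
      * a + (6/55) * G * a - (1/11) * G * b - (4/55) * G * c + (5/11) * a + (14/55) * b +
      (16/55) * c ) * R2

lemma inv_b (a b c : ℂ) :
    (-G - L) * ((23 - 7 * L - 4 * G + 6 * G * L) / 55 * (c + L * b + G * (-G - L) * a)) +
      L * ((23 - 7 * (-G - L) - 4 * G + 6 * G * (-G - L)) / 55 *
        (c + (-G - L) * b + G * L * a)) +
      (1 + G) * ((3 - G) / 11 * (c + G * b + a)) = b := by
  linear_combination ( (6/55) * G ^ 3 * a - (3/11) * G ^ 2 * a + (6/55) * G ^ 2 * b + (46/55) * G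
      * a + (1/55) * G * b - (12/55) * G * c - (46/55) * b + (14/55) * c ) * R1 + (- (4/55) * G
      ^ 2 * a + (21/55) * G * a - (1/11) * G * b - (3/11) * a + (9/55) * b - (1/55) * c ) * R2

lemma inv_c (a b c : ℂ) :
    ((23 - 7 * L - 4 * G + 6 * G * L) / 55 * (c + L * b + G * (-G - L) * a)) +
      ((23 - 7 * (-G - L) - 4 * G + 6 * G * (-G - L)) / 55 *
        (c + (-G - L) * b + G * L * a)) +
      ((3 - G) / 11 * (c + G * b + a)) = c := by
  linear_combination (- (12/55) * G ^ 2 * a + (14/55) * G * a + (12/55) * G * b - (14/55) * b ) *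
      R1 + ( (4/55) * G * a + (6/55) * G * b - (3/11) * a - (14/55) * b - (6/55) * c ) * R2

lemma kk_norm : (23 - 7 * L - 4 * G + 6 * G * L) / 55 * (2 + G * (-G - L) ^ 3) = 1 := by
  linear_combination (- (6/55) * L ^ 2 * G ^ 2 + (7/55) * L ^ 2 * G - (12/55) * L * G ^ 3 +
      (18/55) * L * G ^ 2 - (23/55) * L * G - (6/55) * G ^ 4 + (3/11) * G ^ 3 - (8/11) * G ^ 2 -
      (7/55) * G ) * R1 + ( (4/55) * L * G ^ 2 - (21/55) * L * G + (14/55) * L + (4/55) * G ^ 3
      - (21/55) * G ^ 2 + (2/11) * G + (9/55) ) * R2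

lemma fwd_A (A B W : ℂ) :
    (23 - 7 * L - 4 * G + 6 * G * L) / 55 * ((A + B + W) +
      L * ((-G - L) * A + L * B + (1 + G) * W) +
      G * (-G - L) * ((-G - L) ^ 2 * A + L ^ 2 * B + (2 + G) * W)) = A := by
  linear_combination (- (6/55) * L ^ 2 * G ^ 2 * A - (6/55) * L ^ 2 * G ^ 2 * B + (7/55) * L ^ 2 *
      G * A + (7/55) * L ^ 2 * G * B - (12/55) * L * G ^ 3 * A + (18/55) * L * G ^ 2 * A +
      (4/55) * L * G ^ 2 * B - (29/55) * L * G * A - (17/55) * L * G * B + (7/55) * L * A -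
      (7/55) * L * B - (6/55) * G ^ 4 * A + (3/11) * G ^ 3 * A - (6/55) * G ^ 3 * W - (8/11) * G
      ^ 2 * A + (1/55) * G ^ 2 * W - (3/55) * G * A - (4/55) * G * B + (13/55) * G * W - (23/55)
      * A + (23/55) * B - (7/55) * W ) * R1 + ( (4/55) * L * G ^ 2 * A - (21/55) * L * G * A -
      (2/55) * L * G * W + (14/55) * L * A - (16/55) * L * W + (4/55) * G ^ 3 * A - (21/55) * G
      ^ 2 * A + (4/55) * G ^ 2 * W + (2/11) * G * A - (13/55) * G * W + (9/55) * A - (6/11) * W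
      ) * R2

lemma fwd_w (A B W : ℂ) :
    (3 - G) / 11 * ((A + B + W) + G * ((-G - L) * A + L * B + (1 + G) * W) +
      ((-G - L) ^ 2 * A + L ^ 2 * B + (2 + G) * W)) = W := by
  linear_combination (- (1/11) * G * A - (1/11) * G * B + (3/11) * A + (3/11) * B ) * R1 + (-
      (1/11) * G * W + (2/11) * W ) * R2

end alg

end LinkAux

open LinkAux

namespace LinkAux

lemma cA_eq {ε x y z a b c : ℝ} (hε : ε ≠ 0) (hx : x = 1 + g - ε ^ 2 + ε * a)
    (hy : y = 1 + g - ε ^ 2 + ε * b) (hz : z = 1 + g - ε ^ 2 + ε * c) :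
    cA ε x y z = (23 - 7 * lam - 4 * g + 6 * g * lam) / 55 *
      (c + lam * b + g * (-(g : ℂ) - lam) * a) := by
  have e1 : (z - (1 + g - ε ^ 2)) / ε = c := by rw [hz]; field_simp; ring
  have e2 : (y - (1 + g - ε ^ 2)) / ε = b := by rw [hy]; field_simp; ring
  have e3 : (x - (1 + g - ε ^ 2)) / ε = a := by rw [hx]; field_simp; ring
  unfold cA
  rw [e1, e2, e3, conj_lam]
  rfl

lemma cA_conj {ε x y z a b c : ℝ} (hε : ε ≠ 0) (hx : x = 1 + g - ε ^ 2 + ε * a)
    (hy : y = 1 + g - ε ^ 2 + ε * b) (hz : z = 1 + g - ε ^ 2 + ε * c) :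
    conj (cA ε x y z) = (23 - 7 * (-(g : ℂ) - lam) - 4 * g + 6 * g * (-(g : ℂ) - lam)) / 55 *
      (c + (-(g : ℂ) - lam) * b + g * lam * a) := by
  have e1 : (z - (1 + g - ε ^ 2)) / ε = c := by rw [hz]; field_simp; ring
  have e2 : (y - (1 + g - ε ^ 2)) / ε = b := by rw [hy]; field_simp; ring
  have e3 : (x - (1 + g - ε ^ 2)) / ε = a := by rw [hx]; field_simp; ring
  unfold cA
  rw [e1, e2, e3, map_mul, conj_kk]
  simp only [map_add, map_mul, Complex.conj_ofReal, Complex.conj_conj]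
  rw [conj_lam]

lemma cw_eq {ε x y z a b c : ℝ} (hε : ε ≠ 0) (hx : x = 1 + g - ε ^ 2 + ε * a)
    (hy : y = 1 + g - ε ^ 2 + ε * b) (hz : z = 1 + g - ε ^ 2 + ε * c) :
    ε * cw ε x y z = (3 - g) / 11 * (c + g * b + a) := by
  unfold cw k0
  rw [hz, hy, hx]
  field_simp
  ring

lemma cw_eqC {ε x y z a b c : ℝ} (hε : ε ≠ 0) (hx : x = 1 + g - ε ^ 2 + ε * a)
    (hy : y = 1 + g - ε ^ 2 + ε * b) (hz : z = 1 + g - ε ^ 2 + ε * c) :
    (ε : ℂ) * cw ε x y z = (3 - g) / 11 * (c + g * b + a) := by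
  have h := cw_eq hε hx hy hz
  have h' := congrArg (fun t : ℝ => (t : ℂ)) h
  push_cast at h'
  exact h'

/-- the inverse formulas -/
lemma inverse {ε x y z a b c : ℝ} (hε : ε ≠ 0) (hx : x = 1 + g - ε ^ 2 + ε * a)
    (hy : y = 1 + g - ε ^ 2 + ε * b) (hz : z = 1 + g - ε ^ 2 + ε * c) :
    (conj lam ^ 2 * cA ε x y z + lam ^ 2 * conj (cA ε x y z)) +
      (2 + g) * ε * cw ε x y z = (a : ℂ) ∧
    b0 (cA ε x y z) + (1 + g) * ε * cw ε x y z = (b : ℂ) ∧
    (cA ε x y z + conj (cA ε x y z)) + ε * cw ε x y z = (c : ℂ) := by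
  have hA := cA_eq hε hx hy hz
  have hB := cA_conj hε hx hy hz
  have hW := cw_eqC hε hx hy hz
  refine ⟨?_, ?_, ?_⟩
  · rw [mul_assoc (2 + (g : ℂ)), hB, hA, hW, conj_lam]
    exact inv_a lam_rel gC_rel _ _ _
  · unfold b0
    rw [mul_assoc (1 + (g : ℂ)), hB, hA, hW, conj_lam]
    exact inv_b lam_rel gC_rel _ _ _
  · rw [hB, hA, hW]
    exact inv_c lam_rel gC_rel _ _ _

end LinkAux

theorem link : S_LINK := by
  intro ε hε0
  have hε : ε ≠ 0 := hε0.ne'
  have hεC : (ε : ℂ) ≠ 0 := by exact_mod_cast hε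
  have hg := gC_rel
  have hl := lam_rel
  have hgr := g_rel
  refine ⟨?_, ?_, ?_⟩
  · intro x y z hy
    obtain ⟨a, hx⟩ : ∃ a : ℝ, x = 1 + g - ε ^ 2 + ε * a :=
      ⟨(x - (1 + g - ε ^ 2)) / ε, by field_simp; ring⟩
    obtain ⟨b, hyb⟩ : ∃ b : ℝ, y = 1 + g - ε ^ 2 + ε * b :=
      ⟨(y - (1 + g - ε ^ 2)) / ε, by field_simp; ring⟩
    obtain ⟨c, hz⟩ : ∃ c : ℝ, z = 1 + g - ε ^ 2 + ε * c :=
      ⟨(z - (1 + g - ε ^ 2)) / ε, by field_simp; ring⟩
    have hyC : (y : ℂ) ≠ 0 := by exact_mod_cast hy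
    obtain ⟨ia, ib, ic⟩ := inverse hε hx hyb hz
    have hnew : g - ε ^ 2 + x / y = 1 + g - ε ^ 2 + ε * ((a - b) / y) := by
      have : x - y = ε * (a - b) := by rw [hx, hyb]; ring
      field_simp
      linarith
    have hybC : (y : ℂ) = 1 + g - ε ^ 2 + ε * b := by rw [hyb]; push_cast; ring
    -- the nonlinear part
    set A := cA ε x y z with hA
    set w := cw ε x y z with hw
    have hs : s0 A + ε * w = (a : ℂ) - b := by
      rw [← ia, ← ib]
      unfold s0 mu b0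
      simp only [map_sub, map_pow, Complex.conj_conj]
      ring
    have hb1 : b0 A + ε * ((1 + g) * w - 1) = (b : ℂ) - ε := by
      rw [← ib]; ring
    have hH : HH ε A w = 1 / (y : ℂ) := by
      unfold HH
      rw [hb1, hybC]
      congr 1
      ring
    have hG : GG ε A w = ((-ε * g * (a - b) * (b - ε) / y : ℝ) : ℂ) := by
      unfold GG
      rw [hs, hb1, hH]
      push_cast
      ring
    have key : (a - b) / y - g * (a - b) = -ε * g * (a - b) * (b - ε) / y := by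
      field_simp
      rw [hyb]
      linear_combination (-(a - b)) * hgr
    constructor
    · have h1 := cA_eq hε hyb hz hnew
      have h2 := cA_eq hε hx hyb hz
      rw [h1]
      unfold FA
      rw [hG, ← key, hA, h2]
      unfold kk
      push_cast
      linear_combination ((23 - 7 * lam - 4 * (g : ℂ) + 6 * g * lam) / 55 *
        (-(b : ℂ) + g * a)) * hl + ((23 - 7 * lam - 4 * (g : ℂ) + 6 * g * lam) / 55 *
        (-(b : ℂ))) * hg
    · have h1 := cw_eq hε hyb hz hnew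
      have h2 := cw_eq hε hx hyb hz
      apply mul_left_cancel₀ hε
      rw [h1]
      unfold Fw
      rw [hG, ← key, Complex.ofReal_re, hw]
      have e : ε * (g * cw ε x y z + k0 * ((a - b) / y - g * (a - b)) / ε) =
          g * (ε * cw ε x y z) + k0 * ((a - b) / y - g * (a - b)) := by
        field_simp
      rw [e, h2]
      unfold k0
      linear_combination (-(3 - g) / 11 * b) * hgr
  · intro x y z
    obtain ⟨a, hx⟩ : ∃ a : ℝ, x = 1 + g - ε ^ 2 + ε * a :=
      ⟨(x - (1 + g - ε ^ 2)) / ε, by field_simp; ring⟩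
    obtain ⟨b, hyb⟩ : ∃ b : ℝ, y = 1 + g - ε ^ 2 + ε * b :=
      ⟨(y - (1 + g - ε ^ 2)) / ε, by field_simp; ring⟩
    obtain ⟨c, hz⟩ : ∃ c : ℝ, z = 1 + g - ε ^ 2 + ε * c :=
      ⟨(z - (1 + g - ε ^ 2)) / ε, by field_simp; ring⟩
    obtain ⟨ia, ib, ic⟩ := inverse hε hx hyb hz
    refine ⟨?_, ?_, ?_⟩
    · rw [ia, hx]; push_cast; ring
    · rw [ib, hyb]; push_cast; ring
    · rw [ic, hz]; push_cast; ring
  · intro A w
    have tr : ∀ t : ℂ, ((2 * t.re : ℝ) : ℂ) = t + conj t := by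
      intro t
      rw [Complex.add_conj]
    refine ⟨1 + g - ε ^ 2 + ε * (2 * (conj lam ^ 2 * A).re + (2 + g) * (ε * w)),
      1 + g - ε ^ 2 + ε * (2 * (conj lam * A).re + (1 + g) * (ε * w)),
      1 + g - ε ^ 2 + ε * (2 * A.re + ε * w), ?_, ?_⟩
    · rw [cA_eq hε rfl rfl rfl]
      rw [Complex.ofReal_add, Complex.ofReal_add, Complex.ofReal_add, tr, tr, tr]
      simp only [map_mul, map_pow, Complex.conj_conj]
      simp only [conj_lam, Complex.ofReal_mul,
        Complex.ofReal_add, Complex.ofReal_one, Complex.ofReal_ofNat]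
      exact fwd_A hl hg A (conj A) ((ε : ℂ) * w)
    · apply mul_left_cancel₀ hε
      rw [cw_eq hε rfl rfl rfl]
      apply Complex.ofReal_injective
      rw [Complex.ofReal_mul, Complex.ofReal_add, Complex.ofReal_add, Complex.ofReal_mul g,
        Complex.ofReal_add, Complex.ofReal_add, Complex.ofReal_add, tr, tr, tr]
      simp only [map_mul, map_pow, Complex.conj_conj]
      simp only [conj_lam, Complex.ofReal_mul,
        Complex.ofReal_add, Complex.ofReal_one, Complex.ofReal_ofNat, Complex.ofReal_div,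
        Complex.ofReal_sub]
      exact fwd_w hl hg A (conj A) ((ε : ℂ) * w)

end Pool.Agent.NH81.NS
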