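import Pool.Agent.NH81.NS.Stm

/-!
# Project NS, piece NS-4 (helper49): rotation number of quasi-additive families
-/

set_option autoImplicit false

open Set Filter Topology

namespace Pool.Agent.NH81.NS

namespace Rot

theorem exists_r {L : ℝ} {a : ℕ → ℝ} {c d : ℝ} (h : ∀ n m, |a (n + m) - a n - a m| ≤ L)
    (hb : ∀ n : ℕ, |a n - n * c| ≤ n * d) : ∃ r : ℝ, ∀ n : ℕ, |a n - n * r| ≤ L := by
  have h0 : |a 0| ≤ L := by
    have := h 0 0
    simpa using this
  have hL : 0 ≤ L := (abs_nonneg _).trans h0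
  have hu : Subadditive fun n => a n + L := by
    intro m n
    have := (abs_le.1 (h m n)).2
    change a (m + n) + L ≤ a m + L + (a n + L)
    linarith
  have hv : Subadditive fun n => -a n + L := by
    intro m n
    have := (abs_le.1 (h m n)).1
    change -a (m + n) + L ≤ -a m + L + (-a n + L)
    linarith
  have hbu : BddBelow (range fun n : ℕ => (a n + L) / n) := by
    refine ⟨-(|c| + |d|), ?_⟩
    rintro _ ⟨n, rfl⟩
    rcases Nat.eq_zero_or_pos n with hn | hn
    · subst hn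
      simp only [Nat.cast_zero, div_zero]
      have := abs_nonneg c
      have := abs_nonneg d
      linarith
    · have hn' : (0 : ℝ) < n := by exact_mod_cast hn
      change -(|c| + |d|) ≤ (a n + L) / n
      rw [le_div_iff₀ hn']
      have h1 := (abs_le.1 (hb n)).1
      have h2 := neg_abs_le c
      have h3 := le_abs_self d
      nlinarith
  have hbv : BddBelow (range fun n : ℕ => (-a n + L) / n) := by
    refine ⟨-(|c| + |d|), ?_⟩
    rintro _ ⟨n, rfl⟩
    rcases Nat.eq_zero_or_pos n with hn | hn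
    · subst hn
      simp only [Nat.cast_zero, div_zero]
      have := abs_nonneg c
      have := abs_nonneg d
      linarith
    · have hn' : (0 : ℝ) < n := by exact_mod_cast hn
      change -(|c| + |d|) ≤ (-a n + L) / n
      rw [le_div_iff₀ hn']
      have h1 := (abs_le.1 (hb n)).2
      have h2 := le_abs_self c
      have h3 := le_abs_self d
      nlinarith
  have t1 := hu.tendsto_lim hbu
  have t2 := hv.tendsto_lim hbv
  have t3 : Tendsto (fun n : ℕ => (2 * L) / (n : ℝ)) atTop (𝓝 0) :=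
    tendsto_const_div_atTop_nhds_zero_nat (2 * L)
  have hneg : hv.lim = -hu.lim := by
    have t4 := t1.add t2
    have t5 : (fun n : ℕ => (a n + L) / n + (-a n + L) / n) = fun n : ℕ => (2 * L) / (n : ℝ) := by
      funext n
      rw [← add_div]
      congr 1
      ring
    rw [t5] at t4
    have := tendsto_nhds_unique t4 t3
    linarith
  refine ⟨hu.lim, fun n => ?_⟩
  rcases Nat.eq_zero_or_pos n with hn | hn
  · subst hn
    simpa using h0
  · have hn' : (0 : ℝ) < n := by exact_mod_cast hn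
    have e1 := hu.lim_le_div hbu hn.ne'
    have e2 := hv.lim_le_div hbv hn.ne'
    rw [le_div_iff₀ hn'] at e1 e2
    rw [hneg] at e2
    rw [abs_le]
    constructor <;> nlinarith

end Rot

theorem rot : S_ROT := by
  intro L ε₁ ω θ a hL hε₁ hω hq hc hl
  have hex : ∀ ε, ∃ r : ℝ, ε ∈ Ioc (0 : ℝ) ε₁ → ∀ n : ℕ, |a ε n - n * r| ≤ L := by
    intro ε
    by_cases hε : ε ∈ Ioc (0 : ℝ) ε₁
    · obtain ⟨r, hr⟩ := Rot.exists_r (hq ε hε) (hl ε hε)
      exact ⟨r, fun _ => hr⟩
    · exact ⟨0, fun h => absurd h hε⟩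
  choose r hr using hex
  -- estimate
  have hest : ∀ ε ∈ Ioc (0 : ℝ) ε₁, |r ε - ε ^ 2 * ω| ≤ L * ε ^ 3 := by
    intro ε hε
    by_contra hcon
    push Not at hcon
    obtain ⟨n, hn⟩ := exists_nat_gt (L / (|r ε - ε ^ 2 * ω| - L * ε ^ 3))
    have hd : 0 < |r ε - ε ^ 2 * ω| - L * ε ^ 3 := by linarith
    rw [div_lt_iff₀ hd] at hn
    have h1 := hr ε hε n
    have h2 := hl ε hε n
    have h3 : |(n : ℝ) * r ε - n * (ε ^ 2 * ω)| ≤ L + n * (L * ε ^ 3) := by
      have h4 : (n : ℝ) * r ε - n * (ε ^ 2 * ω) =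
          (a ε n - n * (ε ^ 2 * ω)) - (a ε n - n * r ε) := by ring
      rw [h4]
      exact (abs_sub _ _).trans (by linarith)
    rw [← mul_sub, abs_mul, abs_of_nonneg (Nat.cast_nonneg n)] at h3
    nlinarith
  -- continuity
  have hcont : ContinuousOn r (Ioc 0 ε₁) := by
    have hunif : TendstoUniformlyOn (fun (n : ℕ) ε => a ε n / n) r atTop (Ioc 0 ε₁) := by
      rw [Metric.tendstoUniformlyOn_iff]
      intro e he
      obtain ⟨N, hN⟩ := exists_nat_gt (L / e)
      filter_upwards [eventually_ge_atTop (N + 1)] with n hn ε hε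
      have hn0 : (0 : ℝ) < n := by exact_mod_cast (by omega : 0 < n)
      have hnN : (N : ℝ) ≤ n := by exact_mod_cast (by omega : N ≤ n)
      rw [Real.dist_eq]
      have h1 := hr ε hε n
      have h2 : r ε - a ε n / n = -(a ε n - n * r ε) / n := by
        field_simp
        ring
      rw [h2, abs_div, abs_neg, abs_of_pos hn0, div_lt_iff₀ hn0]
      rw [div_lt_iff₀ he] at hN
      nlinarith
    refine hunif.continuousOn ?_
    exact Frequently.of_forall fun n => (hc n).div_const _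
  -- two different values
  set e3 : ℝ := min ε₁ (|ω| / (4 * L)) with he3
  have hωpos : 0 < |ω| := abs_pos.2 hω
  have he30 : 0 < e3 := lt_min hε₁ (by positivity)
  have he31 : e3 ≤ ε₁ := min_le_left _ _
  have he32 : L * e3 ≤ |ω| / 4 := by
    have h1 : e3 ≤ |ω| / (4 * L) := min_le_right _ _
    rw [le_div_iff₀ (by positivity)] at h1
    linarith
  have hm3 : e3 ∈ Ioc (0 : ℝ) ε₁ := ⟨he30, he31⟩
  have hm2 : e3 / 2 ∈ Ioc (0 : ℝ) ε₁ := ⟨by linarith, by linarith⟩
  have hne : r (e3 / 2) ≠ r e3 := by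
    intro heq
    have h1 := hest e3 hm3
    have h2 := hest (e3 / 2) hm2
    rw [heq] at h2
    have h3 : |e3 ^ 2 * ω - (e3 / 2) ^ 2 * ω| ≤ L * e3 ^ 3 + L * (e3 / 2) ^ 3 := by
      have h4 : e3 ^ 2 * ω - (e3 / 2) ^ 2 * ω =
          (r e3 - (e3 / 2) ^ 2 * ω) - (r e3 - e3 ^ 2 * ω) := by ring
      rw [h4]
      exact (abs_sub _ _).trans (by linarith)
    have h4 : e3 ^ 2 * ω - (e3 / 2) ^ 2 * ω = (3 / 4 * e3 ^ 2) * ω := by ring
    rw [h4, abs_mul, abs_of_nonneg (by positivity : 0 ≤ 3 / 4 * e3 ^ 2)] at h3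
    have h5 : L * e3 ^ 3 + L * (e3 / 2) ^ 3 = 9 / 8 * (L * e3) * e3 ^ 2 := by ring
    rw [h5] at h3
    have h6 : 9 / 8 * (L * e3) * e3 ^ 2 ≤ 9 / 8 * (|ω| / 4) * e3 ^ 2 := by gcongr
    have h7 : 0 < e3 ^ 2 * |ω| := by positivity
    nlinarith
  -- the intermediate value theorem
  have hsub : uIcc (e3 / 2) e3 ⊆ Ioc 0 ε₁ := by
    rw [uIcc_of_le (by linarith)]
    intro x hx
    exact ⟨by linarith [hx.1], hx.2.trans he31⟩
  have hivt := intermediate_value_uIcc (hcont.mono hsub)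
  have hpi := Real.pi_pos
  have hval : ∃ ρ : ℝ, Irrational ρ ∧ 2 * Real.pi * ρ - θ ∈ uIcc (r (e3 / 2)) (r e3) := by
    rcases lt_or_gt_of_ne hne with h | h
    · obtain ⟨ρ, h1, h2, h3⟩ := exists_irrational_btwn
        (show (θ + r (e3 / 2)) / (2 * Real.pi) < (θ + r e3) / (2 * Real.pi) by gcongr)
      rw [div_lt_iff₀ (by positivity)] at h2
      rw [lt_div_iff₀ (by positivity)] at h3
      refine ⟨ρ, h1, ?_⟩
      rw [uIcc_of_le h.le]
      constructor <;> linarith
    · obtain ⟨ρ, h1, h2, h3⟩ := exists_irrational_btwn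
        (show (θ + r e3) / (2 * Real.pi) < (θ + r (e3 / 2)) / (2 * Real.pi) by gcongr)
      rw [div_lt_iff₀ (by positivity)] at h2
      rw [lt_div_iff₀ (by positivity)] at h3
      refine ⟨ρ, h1, ?_⟩
      rw [uIcc_of_ge h.le]
      constructor <;> linarith
  obtain ⟨ρ, hρ, hmem⟩ := hval
  obtain ⟨ε, hε, hrε⟩ := hivt hmem
  refine ⟨ε, hsub hε, ρ, hρ, fun n => ?_⟩
  have h1 := hr ε (hsub hε) n
  have h2 : (n : ℝ) * θ + a ε n - 2 * Real.pi * n * ρ = a ε n - n * r ε := by
    rw [hrε]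
    ring
  rw [h2]
  exact h1

end Pool.Agent.NH81.NS
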