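import Pool.Agent.NH81.NS.Step
import Pool.Agent.NH81.NS.Cone
import Pool.Agent.NH81.NS.Rot
import Pool.Agent.NH81.NS.Link

/-!
# Project NS: assembly
-/

set_option autoImplicit false

open Set Filter Topology
open scoped ComplexConjugate

namespace Pool.Agent.NH81.NS

namespace Main

open Alg Step

theorem exp_two_x₀ : Real.exp (2 * x₀) = (1 + 7 * g) / (3 * (2 * g - 1)) := by
  have hg1 := g_gt
  have hpos : 0 < (1 + 7 * g) / (3 * (2 * g - 1)) := by
    apply div_pos <;> linarith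
  unfold x₀
  rw [mul_div_cancel₀ _ (by norm_num : (2 : ℝ) ≠ 0), Real.exp_log hpos]

theorem v0_re : v0.re = (5 + 35 * g) / 110 := by
  have h : v0.re = (-4 + 6 * (-g / 2) + 27 * g - 13 * g * (-g / 2)) / 55 := by
    simp [v0, lam]
  rw [h]
  have := g_sq
  nlinarith

theorem v0_im : v0.im = (6 - 13 * g) * sg / 55 := by
  have h : v0.im = (6 * sg - 13 * g * sg) / 55 := by
    simp [v0, lam]
  rw [h]
  ring

theorem v1_re : v1.re = (15 - 30 * g) / 110 := by
  have h : v1.re = (27 - 23 * (-g / 2) - 46 * g + 39 * g * (-g / 2)) / 55 := by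
    simp [v1, lam]
  rw [h]
  have := g_sq
  nlinarith

theorem v1_im : v1.im = (39 * g - 23) * sg / 55 := by
  have h : v1.im = (-(23 * sg) + 39 * g * sg) / 55 := by
    simp [v1, lam]
  rw [h]
  ring

theorem v1_neg : v1.re < 0 := by
  have hg1 := g_gt
  rw [v1_re]
  linarith

theorem v_zero : v0.re + v1.re * Real.exp (2 * x₀) = 0 := by
  have hg1 := g_gt
  rw [exp_two_x₀, v0_re, v1_re]
  have h1 : (2 * g - 1) ≠ 0 := by
    have : 0 < 2 * g - 1 := by linarith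
    exact this.ne'
  have h2 : (15 - 30 * g) / 110 * ((1 + 7 * g) / (3 * (2 * g - 1))) = -(5 + 35 * g) / 110 := by
    rw [div_mul_div_comm, div_eq_div_iff (by positivity) (by norm_num)]
    ring
  rw [h2]
  ring

theorem sg_pos : 0 < sg := by
  have hg1 := g_gt
  have hg2 := g_lt
  unfold sg
  apply Real.sqrt_pos.2
  nlinarith

theorem om_pos : 0 < v0.im + v1.im * Real.exp (2 * x₀) := by
  have hg1 := g_gt
  have hg2 := g_lt
  have hs := sg_pos
  have h2 : 7.29 ≤ (1 + 7 * g) / (3 * (2 * g - 1)) := by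
    rw [le_div_iff₀ (by linarith)]
    linarith
  rw [exp_two_x₀, v0_im, v1_im]
  have h3 : 0 < (6 - 13 * g) + (39 * g - 23) * ((1 + 7 * g) / (3 * (2 * g - 1))) := by
    have h4 : 1.1 ≤ 39 * g - 23 := by linarith
    have h5 := mul_le_mul h4 h2 (by norm_num) (by linarith)
    linarith
  have h6 : (6 - 13 * g) * sg / 55 + (39 * g - 23) * sg / 55 *
      ((1 + 7 * g) / (3 * (2 * g - 1))) =
      ((6 - 13 * g) + (39 * g - 23) * ((1 + 7 * g) / (3 * (2 * g - 1)))) * (sg / 55) := by ring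
  rw [h6]
  positivity

theorem Sm_add {X : Type} (F : X → X) (l : X → ℂ) (n m : ℕ) (p : X) :
    Sm F l (n + m) p = Sm F l n p + Sm F l m (F^[n] p) := by
  unfold Sm
  rw [Finset.sum_range_add]
  congr 1
  refine Finset.sum_congr rfl fun j _ => ?_
  rw [← Function.iterate_add_apply, Nat.add_comm]

/-- The map on `ℂ × ℝ`. -/
noncomputable def FF (ε : ℝ) (p : ℂ × ℝ) : ℂ × ℝ := (FA ε p.1 p.2, Fw ε p.1 p.2)

/-- The increments. -/
noncomputable def ll (ε : ℝ) (p : ℂ × ℝ) : ℂ := inc ε p.1 p.2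

/-- The observable. -/
noncomputable def uu (ε : ℝ) (p : ℂ × ℝ) : ℂ := UU ε p.1 p.2

/-- The base domain. -/
def BB : Set (ℂ × ℝ) := {p | Dom p.1 p.2}

/-- The invariant region. -/
def DD (K ε : ℝ) : Set (ℂ × ℝ) := {p | p ∈ BB ∧ |Real.log ‖uu ε p‖ - x₀| ≤ K * ε}

/-- The starting point. -/
noncomputable def ps : ℂ × ℝ := (((Real.exp x₀ : ℝ) : ℂ), 0)

theorem isClosed_BB : IsClosed BB := by
  have h1 : IsClosed {p : ℂ × ℝ | 1 ≤ ‖p.1‖} := isClosed_le continuous_const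
    (continuous_norm.comp continuous_fst)
  have h2 : IsClosed {p : ℂ × ℝ | ‖p.1‖ ≤ 4} := isClosed_le
    (continuous_norm.comp continuous_fst) continuous_const
  have h3 : IsClosed {p : ℂ × ℝ | |p.2| ≤ 30} := isClosed_le
    (continuous_abs.comp continuous_snd) continuous_const
  have : BB = {p : ℂ × ℝ | 1 ≤ ‖p.1‖} ∩ ({p : ℂ × ℝ | ‖p.1‖ ≤ 4} ∩ {p : ℂ × ℝ | |p.2| ≤ 30}) := by
    ext p
    rfl
  rw [this]
  exact h1.inter (h2.inter h3)

theorem cont_UU : Continuous fun q : ℝ × ℂ × ℝ => UU q.1 q.2.1 q.2.2 := by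
  unfold UU QQ KK
  have h1 : Continuous fun q : ℝ × ℂ × ℝ => (q.1 : ℂ) := Complex.continuous_ofReal.comp continuous_fst
  have h2 : Continuous fun q : ℝ × ℂ × ℝ => q.2.1 := continuous_fst.comp continuous_snd
  have h3 : Continuous fun q : ℝ × ℂ × ℝ => (q.2.2 : ℂ) :=
    Complex.continuous_ofReal.comp (continuous_snd.comp continuous_snd)
  have h4 : Continuous fun q : ℝ × ℂ × ℝ => conj q.2.1 := Complex.continuous_conj.comp h2
  fun_prop

theorem cont_uu (ε : ℝ) : Continuous (uu ε) :=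
  cont_UU.comp (continuous_const.prodMk (continuous_id (X := ℂ × ℝ)))

/-- Continuity of the map in all variables. -/
theorem cont_FF : ContinuousOn (fun q : ℝ × (ℂ × ℝ) => FF q.1 q.2)
    {q | q.1 ∈ Ioc (0 : ℝ) (1 / 100) ∧ q.2 ∈ BB} := by
  have h1 : Continuous fun q : ℝ × ℂ × ℝ => (q.1 : ℂ) := Complex.continuous_ofReal.comp continuous_fst
  have h2 : Continuous fun q : ℝ × ℂ × ℝ => q.2.1 := continuous_fst.comp continuous_snd
  have h3 : Continuous fun q : ℝ × ℂ × ℝ => (q.2.2 : ℂ) :=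
    Complex.continuous_ofReal.comp (continuous_snd.comp continuous_snd)
  have h4 : Continuous fun q : ℝ × ℂ × ℝ => conj q.2.1 := Complex.continuous_conj.comp h2
  have hb : Continuous fun q : ℝ × ℂ × ℝ => b0 q.2.1 := by
    unfold b0
    fun_prop
  have hs : Continuous fun q : ℝ × ℂ × ℝ => s0 q.2.1 := by
    unfold s0
    fun_prop
  have hH : ContinuousOn (fun q : ℝ × ℂ × ℝ => HH q.1 q.2.1 q.2.2)
      {q | q.1 ∈ Ioc (0 : ℝ) (1 / 100) ∧ q.2 ∈ BB} := by
    unfold HH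
    refine ContinuousOn.div continuousOn_const ?_ ?_
    · apply Continuous.continuousOn
      fun_prop
    · intro q hq
      exact norm_pos_iff.1 (one_pos.trans_le (den_norm hq.1 hq.2))
  have hG : ContinuousOn (fun q : ℝ × ℂ × ℝ => GG q.1 q.2.1 q.2.2)
      {q | q.1 ∈ Ioc (0 : ℝ) (1 / 100) ∧ q.2 ∈ BB} := by
    unfold GG
    refine ContinuousOn.mul ?_ hH
    apply Continuous.continuousOn
    fun_prop
  unfold FF
  refine ContinuousOn.prodMk ?_ ?_
  · unfold FA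
    exact (Continuous.continuousOn (by fun_prop)).add (continuousOn_const.mul hG)
  · unfold Fw
    refine ContinuousOn.add (Continuous.continuousOn (by fun_prop)) ?_
    refine ContinuousOn.div (continuousOn_const.mul (Complex.continuous_re.comp_continuousOn hG))
      continuousOn_fst ?_
    intro q hq
    exact hq.1.1.ne'

/-- The facts for one small `ε`, with a common rotation number. -/
theorem exists_eps {δ : ℝ} (hδ : 0 < δ) : ∃ ε K L ρ : ℝ, ε ∈ Ioc (0 : ℝ) (1 / 100) ∧ ε < δ ∧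
    Irrational ρ ∧ K * ε ≤ 1 / 10 ∧
    (∀ p ∈ BB, uu ε p ≠ 0) ∧
    (∀ p ∈ BB, uu ε (FF ε p) = lam * uu ε p * Complex.exp (ll ε p)) ∧
    (∀ p ∈ DD K ε, FF ε p ∈ DD K ε) ∧
    (ps ∈ BB ∧ |Real.log ‖uu ε ps‖ - x₀| < K * ε) ∧
    ∀ p ∈ DD K ε, ∀ n : ℕ, |n * Complex.arg lam + Sm (FF ε) (ll ε) n p -
      2 * Real.pi * n * ρ| ≤ L := by
  obtain ⟨ε₀, C, hε₀, hε₀', hC, hstep⟩ := step alg stab
  obtain ⟨R, hR, hform⟩ := alg
  obtain ⟨K0, hK0, HT⟩ := bl_TT
  obtain ⟨K4, hK4, H4⟩ := ((BL.varA.cmul lam).mul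
    ((BL.const v0).add ((BL.varA.mul BL.conjA).cmul v1))).add (BL.eps.mul hR)
  have hg1 := g_gt
  have hg2 := g_lt
  obtain ⟨ε₁, K₁, L, hε₁, hCK, hK₁, hL, hcone⟩ := cone v0 v1 x₀ g 30 (C + 1) v1_neg v_zero
    (by linarith) (by linarith) (by norm_num) (by linarith)
  set ω : ℝ := v0.im + v1.im * Real.exp (2 * x₀) with hω
  have hω0 : 0 < ω := om_pos
  set ε₂ : ℝ := min (min ε₀ ε₁) (min (1 / (2 * (K0 + K4 + 1))) (min (1 / (ω + L + 1)) (δ / 2)))
    with hε₂
  have hε₂0 : 0 < ε₂ := by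
    refine lt_min (lt_min hε₀ hε₁) (lt_min (by positivity) (lt_min (by positivity) (by linarith)))
  -- facts for all small `ε`
  have hsmall : ∀ ε ∈ Ioc (0 : ℝ) ε₂, ε ∈ Ioc (0 : ℝ) ε₀ ∧ ε ∈ Ioc (0 : ℝ) ε₁ ∧
      ε ∈ Ioc (0 : ℝ) (1 / 100) ∧ ε * (K0 + K4) ≤ 1 / 2 ∧ ε * (ω + L) ≤ 1 ∧ ε < δ := by
    intro ε hε
    have a1 : ε ≤ ε₀ := hε.2.trans ((min_le_left _ _).trans (min_le_left _ _))
    have a2 : ε ≤ ε₁ := hε.2.trans ((min_le_left _ _).trans (min_le_right _ _))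
    have a3 : ε ≤ 1 / (2 * (K0 + K4 + 1)) := hε.2.trans ((min_le_right _ _).trans (min_le_left _ _))
    have a4 : ε ≤ 1 / (ω + L + 1) :=
      hε.2.trans ((min_le_right _ _).trans ((min_le_right _ _).trans (min_le_left _ _)))
    have a5 : ε ≤ δ / 2 :=
      hε.2.trans ((min_le_right _ _).trans ((min_le_right _ _).trans (min_le_right _ _)))
    refine ⟨⟨hε.1, a1⟩, ⟨hε.1, a2⟩, ⟨hε.1, a1.trans hε₀'⟩, ?_, ?_, by linarith⟩
    · rw [le_div_iff₀ (by positivity)] at a3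
      nlinarith [hε.1]
    · rw [le_div_iff₀ (by positivity)] at a4
      nlinarith [hε.1]
  have hrel : ∀ ε ∈ Ioc (0 : ℝ) ε₂, ∀ p ∈ BB, uu ε (FF ε p) ≠ 0 ∧
      uu ε (FF ε p) = lam * uu ε p * Complex.exp (ll ε p) := by
    intro ε hε p hp
    obtain ⟨b1, b2, b3, b4, b5, b6⟩ := hsmall ε hε
    have hU : UU ε p.1 p.2 ≠ 0 := ((hstep ε b1).1 p.1 p.2 hp).1
    have hlam0 : lam ≠ 0 := norm_pos_iff.1 (by rw [norm_lam]; exact one_pos)
    have hne : UU ε (FA ε p.1 p.2) (Fw ε p.1 p.2) ≠ 0 := by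
      have h1 : UU ε (FA ε p.1 p.2) (Fw ε p.1 p.2) = lam * p.1 +
          ε * (lam * TT ε p.1 p.2) + ε ^ 2 * (lam * p.1 * (v0 + v1 * (p.1 * conj p.1)) +
            ε * R ε p.1 p.2) := by
        rw [hform ε b3 p.1 p.2 hp, UU_eq]
        ring
      have h2 : ‖(ε : ℂ) * (lam * TT ε p.1 p.2)‖ ≤ ε * K0 := by
        rw [norm_mul, norm_mul, norm_lam, one_mul, Complex.norm_real, Real.norm_eq_abs,
          abs_of_pos hε.1]
        exact mul_le_mul_of_nonneg_left (HT ε b3 p.1 p.2 hp).1 hε.1.le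
      have h3 : ‖(ε : ℂ) ^ 2 * (lam * p.1 * (v0 + v1 * (p.1 * conj p.1)) +
            ε * R ε p.1 p.2)‖ ≤ ε * K4 := by
        rw [norm_mul, norm_pow, Complex.norm_real, Real.norm_eq_abs, abs_of_pos hε.1]
        have h5 := (H4 ε b3 p.1 p.2 hp).1
        have h6 : ε ^ 2 ≤ ε := by nlinarith [hε.1, b3.2]
        exact mul_le_mul h6 h5 (norm_nonneg _) hε.1.le
      have h7 : ‖lam * p.1‖ = ‖p.1‖ := by rw [norm_mul, norm_lam, one_mul]
      have h8 := hp.1
      intro h0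
      rw [h1] at h0
      have h9 : lam * p.1 = -(ε * (lam * TT ε p.1 p.2) + ε ^ 2 * (lam * p.1 *
          (v0 + v1 * (p.1 * conj p.1)) + ε * R ε p.1 p.2)) := by
        linear_combination h0
      have h10 := norm_add_le (ε * (lam * TT ε p.1 p.2) : ℂ) (ε ^ 2 * (lam * p.1 *
          (v0 + v1 * (p.1 * conj p.1)) + ε * R ε p.1 p.2))
      rw [← norm_neg, ← h9, h7] at h10
      linarith
    refine ⟨hne, ?_⟩
    change UU ε (FA ε p.1 p.2) (Fw ε p.1 p.2) = lam * UU ε p.1 p.2 * Complex.exp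
      (Complex.log (UU ε (FA ε p.1 p.2) (Fw ε p.1 p.2) / (lam * UU ε p.1 p.2)))
    rw [Complex.exp_log (div_ne_zero hne (mul_ne_zero hlam0 hU))]
    field_simp
  have hcone' := fun ε (hε : ε ∈ Ioc (0 : ℝ) ε₂) =>
    hcone ε (hsmall ε hε).2.1 (ℂ × ℝ) BB (FF ε) (uu ε) (ll ε) (fun p => p.2) lam norm_lam (by
      intro p hp
      obtain ⟨b1, b2, b3, b4, b5, b6⟩ := hsmall ε hε
      obtain ⟨c1, c2, c3, c4⟩ := (hstep ε b1).1 p.1 p.2 hp
      have e3 : 0 ≤ ε ^ 3 := pow_nonneg hε.1.le 3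
      refine ⟨c1, hp.2.2, c2, (hrel ε hε p hp).2, c3.trans ?_, ?_⟩
      · exact mul_le_mul_of_nonneg_right (by linarith) e3
      · intro p' hp'
        obtain ⟨d1, d2⟩ := c4 p'.1 p'.2 hp'
        have f1 : 0 ≤ ‖UU ε p.1 p.2 - UU ε p'.1 p'.2‖ := norm_nonneg _
        have f2 : 0 ≤ |p.2 - p'.2| := abs_nonneg _
        constructor
        · refine d1.trans ?_
          exact mul_le_mul_of_nonneg_right (mul_le_mul_of_nonneg_right (by linarith) e3)
            (by positivity)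
        · refine d2.trans (add_le_add le_rfl ?_)
          have f3 : 0 ≤ ε * |p.2 - p'.2| := mul_nonneg hε.1.le f2
          exact mul_le_mul_of_nonneg_right (by linarith) (by positivity))
  have hDinv : ∀ ε ∈ Ioc (0 : ℝ) ε₂, ∀ p ∈ DD K₁ ε, FF ε p ∈ DD K₁ ε := by
    intro ε hε p hp
    obtain ⟨h1, h2, _⟩ := (hcone' ε hε).1 p hp.1 hp.2
    exact ⟨h1, h2⟩
  have hDit : ∀ ε ∈ Ioc (0 : ℝ) ε₂, ∀ p ∈ DD K₁ ε, ∀ n : ℕ, (FF ε)^[n] p ∈ DD K₁ ε := by
    intro ε hε p hp n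
    induction n with
    | zero => exact hp
    | succ n ih =>
      rw [Function.iterate_succ_apply']
      exact hDinv ε hε _ ih
  have hps : ∀ ε ∈ Ioc (0 : ℝ) ε₂, ps ∈ BB ∧ |Real.log ‖uu ε ps‖ - x₀| < K₁ * ε := by
    intro ε hε
    obtain ⟨c1, c2, c3⟩ := hstep ε (hsmall ε hε).1
    refine ⟨c2, lt_of_le_of_lt c3 ?_⟩
    have := hε.1
    nlinarith
  have hpsD : ∀ ε ∈ Ioc (0 : ℝ) ε₂, ps ∈ DD K₁ ε := fun ε hε => ⟨(hps ε hε).1, (hps ε hε).2.le⟩
  -- rotation numbers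
  obtain ⟨ε, hε, ρ, hρ, hrot⟩ := rot L ε₂ ω (Complex.arg lam)
    (fun ε n => Sm (FF ε) (ll ε) n ps) hL hε₂0 hω0.ne' (by
      intro ε hε n m
      have h1 := Sm_add (FF ε) (ll ε) n m ps
      have h2 := hDit ε hε ps (hpsD ε hε) n
      have h3 := (hcone' ε hε).2 _ h2.1 ps (hpsD ε hε).1 h2.2 (hpsD ε hε).2 m
      simp only [h1]
      rwa [show Sm (FF ε) (ll ε) n ps + Sm (FF ε) (ll ε) m ((FF ε)^[n] ps) -
        Sm (FF ε) (ll ε) n ps - Sm (FF ε) (ll ε) m ps =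
        Sm (FF ε) (ll ε) m ((FF ε)^[n] ps) - Sm (FF ε) (ll ε) m ps by ring]) (by
      -- continuity
      intro n
      have hit : ∀ j : ℕ, ContinuousOn (fun ε => (FF ε)^[j] ps) (Ioc (0 : ℝ) ε₂) := by
        intro j
        induction j with
        | zero => exact continuousOn_const
        | succ j ih =>
          simp only [Function.iterate_succ_apply']
          have h1 : ContinuousOn (fun ε : ℝ => (ε, (FF ε)^[j] ps)) (Ioc (0 : ℝ) ε₂) :=
            continuousOn_id.prodMk ih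
          exact cont_FF.comp h1 (fun ε hε => ⟨(hsmall ε hε).2.2.1,
            (hDit ε hε ps (hpsD ε hε) j).1⟩)
      have huit : ∀ j : ℕ, ContinuousOn (fun ε => uu ε ((FF ε)^[j] ps)) (Ioc (0 : ℝ) ε₂) := by
        intro j
        have h1 : ContinuousOn (fun ε : ℝ => (ε, (FF ε)^[j] ps)) (Ioc (0 : ℝ) ε₂) :=
          continuousOn_id.prodMk (hit j)
        exact cont_UU.comp_continuousOn h1
      unfold Sm
      refine continuousOn_finsetSum _ fun j _ => ?_
      refine Complex.continuous_im.comp_continuousOn ?_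
      have hlam0 : lam ≠ 0 := norm_pos_iff.1 (by rw [norm_lam]; exact one_pos)
      have h1 : ∀ ε, ll ε ((FF ε)^[j] ps) =
          Complex.log (uu ε ((FF ε)^[j + 1] ps) / (lam * uu ε ((FF ε)^[j] ps))) := by
        intro ε
        rw [Function.iterate_succ_apply']
        rfl
      simp only [h1]
      refine ContinuousOn.clog (ContinuousOn.div (huit (j + 1)) (continuousOn_const.mul (huit j))
        ?_) ?_
      · intro ε hε
        exact mul_ne_zero hlam0 (((hstep ε (hsmall ε hε).1).1 _ _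
          (hDit ε hε ps (hpsD ε hε) j).1).1)
      · intro ε hε
        obtain ⟨b1, b2, b3, b4, b5, b6⟩ := hsmall ε hε
        have hD := hDit ε hε ps (hpsD ε hε) j
        have h2 := ((hcone' ε hε).1 _ hD.1 hD.2).2.2
        rw [h1 ε, Complex.log_im] at h2
        have hne1 : uu ε ((FF ε)^[j + 1] ps) ≠ 0 := by
          rw [Function.iterate_succ_apply']
          exact (hrel ε hε _ hD.1).1
        have hne2 : uu ε ((FF ε)^[j] ps) ≠ 0 := ((hstep ε b1).1 _ _ hD.1).1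
        rw [Complex.mem_slitPlane_iff_arg]
        refine ⟨?_, div_ne_zero hne1 (mul_ne_zero hlam0 hne2)⟩
        intro harg
        rw [harg] at h2
        have h3 := (abs_le.1 h2).2
        have h4 := Real.pi_gt_three
        have h5 : ε ^ 2 * ω ≤ ε * ω := by
          have : ε ^ 2 ≤ ε := by nlinarith [hε.1, b3.2]
          exact mul_le_mul_of_nonneg_right this hω0.le
        have h6 : L * ε ^ 3 ≤ ε * L := by
          have : ε ^ 3 ≤ ε := by
            have e1 : ε ^ 2 ≤ 1 := by nlinarith [hε.1, b3.2]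
            nlinarith [hε.1]
          nlinarith
        nlinarith) (by
      intro ε hε n
      unfold Sm
      have h1 : (n : ℝ) * (ε ^ 2 * ω) = ∑ j ∈ Finset.range n, ε ^ 2 * ω := by simp
      have h2 : (n : ℝ) * (L * ε ^ 3) = ∑ j ∈ Finset.range n, L * ε ^ 3 := by simp
      rw [h1, h2, ← Finset.sum_sub_distrib]
      refine (Finset.abs_sum_le_sum_abs _ _).trans (Finset.sum_le_sum fun j _ => ?_)
      have hD := hDit ε hε ps (hpsD ε hε) j
      exact ((hcone' ε hε).1 _ hD.1 hD.2).2.2)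
  obtain ⟨b1, b2, b3, b4, b5, b6⟩ := hsmall ε hε
  refine ⟨ε, K₁, 2 * L, ρ, b3, b6, hρ, ?_, fun p hp => ((hstep ε b1).1 _ _ hp).1,
    fun p hp => (hrel ε hε p hp).2, hDinv ε hε, hps ε hε, ?_⟩
  · have hK₁0 : 0 ≤ K₁ := by linarith
    exact (mul_le_mul_of_nonneg_left b2.2 hK₁0).trans hK₁
  · intro p hp n
    have h1 := hrot n
    have h2 := (hcone' ε hε).2 p hp.1 ps (hpsD ε hε).1 hp.2 (hpsD ε hε).2 n
    have h3 : n * Complex.arg lam + Sm (FF ε) (ll ε) n p - 2 * Real.pi * n * ρ =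
      (n * Complex.arg lam + Sm (FF ε) (ll ε) n ps - 2 * Real.pi * n * ρ) +
        (Sm (FF ε) (ll ε) n p - Sm (FF ε) (ll ε) n ps) := by ring
    rw [h3]
    refine (abs_add_le _ _).trans ?_
    linarith

end Main

end Pool.Agent.NH81.NS
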