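import Pool.Agent.NH81.NS.Alg

/-!
# Project NS: estimates for one step in the normal form coordinates
-/

set_option autoImplicit false

open Set
open scoped ComplexConjugate

namespace Pool.Agent.NH81.NS

namespace Step

open Alg

/-- `(UU - A) / ε` -/
noncomputable def TT (ε : ℝ) (A : ℂ) (w : ℝ) : ℂ := QQ A + ε * KK A w

theorem bl_TT : BL TT := bl_QQ.add (BL.eps.mul bl_KK)

theorem UU_eq (ε : ℝ) (A : ℂ) (w : ℝ) : UU ε A w = A + ε * TT ε A w := by
  unfold UU TT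
  ring

/-- The logarithm near `1`. -/
theorem klog {δ : ℝ} (hδ : δ ≤ 1 / 2) {z z' : ℂ} (hz : ‖z‖ ≤ δ) (hz' : ‖z'‖ ≤ δ) :
    ‖(Complex.log (1 + z) - z) - (Complex.log (1 + z') - z')‖ ≤ 2 * δ * ‖z - z'‖ := by
  have hconv : Convex ℝ (Metric.closedBall (0 : ℂ) δ) := convex_closedBall _ _
  have hd : ∀ x ∈ Metric.closedBall (0 : ℂ) δ,
      HasDerivWithinAt (fun z : ℂ => Complex.log (1 + z) - z) ((1 + x)⁻¹ - 1)
        (Metric.closedBall (0 : ℂ) δ) x := by
    intro x hx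
    have hx' : ‖x‖ ≤ 1 / 2 := by
      have : ‖x‖ ≤ δ := by simpa using hx
      linarith
    have hs : (1 + x) ∈ Complex.slitPlane := by
      left
      have h1 : -‖x‖ ≤ x.re := by
        have := Complex.abs_re_le_norm x
        exact (abs_le.1 this).1
      simp only [Complex.add_re, Complex.one_re]
      linarith
    have h1 : HasDerivAt (fun z : ℂ => 1 + z) 1 x := by
      simpa using (hasDerivAt_id x).const_add (1 : ℂ)
    have h2 := (h1.clog hs).sub (hasDerivAt_id x)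
    have h3 : HasDerivAt (fun z : ℂ => Complex.log (1 + z) - z) (1 / (1 + x) - 1) x := h2
    rw [one_div] at h3
    exact h3.hasDerivWithinAt
  have hb : ∀ x ∈ Metric.closedBall (0 : ℂ) δ, ‖(1 + x)⁻¹ - 1‖ ≤ 2 * δ := by
    intro x hx
    have hx1 : ‖x‖ ≤ δ := by simpa using hx
    have hx' : ‖x‖ ≤ 1 / 2 := by linarith
    have h1 : 1 / 2 ≤ ‖1 + x‖ := by
      have := norm_sub_norm_le (1 : ℂ) (-x)
      rw [norm_neg, norm_one, sub_neg_eq_add] at this
      linarith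
    have h2 : (1 + x) ≠ 0 := norm_pos_iff.1 (by linarith)
    have h3 : (1 + x)⁻¹ - 1 = -x * (1 + x)⁻¹ := by
      field_simp
      ring
    rw [h3, norm_mul, norm_neg, norm_inv]
    have h4 : ‖1 + x‖⁻¹ ≤ 2 := by
      have := inv_anti₀ (by norm_num : (0 : ℝ) < 1 / 2) h1
      simpa using this
    have h5 := mul_le_mul hx1 h4 (by positivity) (le_trans (norm_nonneg _) hx1)
    linarith
  have := hconv.norm_image_sub_le_of_norm_hasDerivWithin_le hd hb
    (by simpa using hz' : z' ∈ Metric.closedBall (0 : ℂ) δ)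
    (by simpa using hz : z ∈ Metric.closedBall (0 : ℂ) δ)
  exact this

theorem norm_s0 {A : ℂ} (hA : ‖A‖ ≤ 4) : ‖s0 A‖ ≤ 12.95 := by
  have hg1 := g_gt
  have hg2 := g_lt
  have h : s0 A = (1 + g) * (lam * A + conj lam * conj A) := by
    rw [s0_eq, conj_lam]
  rw [h, norm_mul]
  have h2 : ‖(1 + g : ℂ)‖ ≤ 1.6181 := by
    have : (1 + g : ℂ) = ((1 + g : ℝ) : ℂ) := by push_cast; ring
    rw [this, Complex.norm_real, Real.norm_eq_abs, abs_of_pos (by linarith)]
    linarith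
  have h3 : ‖lam * A + conj lam * conj A‖ ≤ 8 := by
    refine (norm_add_le _ _).trans ?_
    rw [norm_mul, norm_mul, RCLike.norm_conj, RCLike.norm_conj, norm_lam]
    linarith
  have := mul_le_mul h2 h3 (norm_nonneg _) (by norm_num)
  linarith

theorem norm_b0 {A : ℂ} (hA : ‖A‖ ≤ 4) : ‖b0 A‖ ≤ 8 := by
  unfold b0
  refine (norm_add_le _ _).trans ?_
  rw [norm_mul, norm_mul, RCLike.norm_conj, RCLike.norm_conj, norm_lam]
  linarith

theorem k0_bd : 0 ≤ k0 * g ^ 2 ∧ k0 * g ^ 2 ≤ 0.0829 := by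
  have hg1 := g_gt
  have hg2 := g_lt
  have hg := g_sq
  unfold k0
  rw [hg]
  constructor
  · exact mul_nonneg (by linarith) (by linarith)
  · nlinarith

theorem exp_x₀ : 2.7 ≤ Real.exp x₀ ∧ Real.exp x₀ ≤ 2.8 := by
  have hg1 := g_gt
  have hg2 := g_lt
  have hpos : 0 < (1 + 7 * g) / (3 * (2 * g - 1)) := by
    apply div_pos <;> linarith
  have h1 : Real.exp x₀ ^ 2 = (1 + 7 * g) / (3 * (2 * g - 1)) := by
    rw [← Real.exp_nat_mul]
    unfold x₀
    have : ((2 : ℕ) : ℝ) * (Real.log ((1 + 7 * g) / (3 * (2 * g - 1))) / 2) =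
        Real.log ((1 + 7 * g) / (3 * (2 * g - 1))) := by
      push_cast
      ring
    rw [this, Real.exp_log hpos]
  have h2 : 7.29 ≤ (1 + 7 * g) / (3 * (2 * g - 1)) := by
    rw [le_div_iff₀ (by linarith)]
    linarith
  have h3 : (1 + 7 * g) / (3 * (2 * g - 1)) ≤ 7.84 := by
    rw [div_le_iff₀ (by linarith)]
    linarith
  have h4 := Real.exp_pos x₀
  constructor <;> nlinarith

theorem log_lip {x y : ℝ} (hx : 1 ≤ x) (hy : 1 ≤ y) : |Real.log x - Real.log y| ≤ |x - y| := by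
  have key : ∀ {x y : ℝ}, 1 ≤ x → 1 ≤ y → Real.log x - Real.log y ≤ |x - y| := by
    intro x y hx hy
    have hx0 : 0 < x := by linarith
    have hy0 : 0 < y := by linarith
    rw [← Real.log_div hx0.ne' hy0.ne']
    have h1 := Real.log_le_sub_one_of_pos (div_pos hx0 hy0)
    have h2 : x / y - 1 = (x - y) / y := by
      field_simp
    rw [h2] at h1
    refine h1.trans ?_
    rw [div_le_iff₀ hy0]
    have h3 := le_abs_self (x - y)
    have h4 := abs_nonneg (x - y)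
    nlinarith
  rw [abs_sub_le_iff]
  refine ⟨key hx hy, ?_⟩
  have := key hy hx
  rwa [abs_sub_comm] at this

end Step

open Alg Step in
/-- NS-STEP -/
theorem step : S_STEP := by
  intro halg hstab
  obtain ⟨R1, hR1, halg⟩ := halg
  obtain ⟨Rw, hRw, hstab⟩ := hstab
  obtain ⟨K0, hK0, HT⟩ := bl_TT
  have hlow : ∀ ε ∈ Ioc (0 : ℝ) (1 / 100), ε ≤ 1 / (10 * (K0 + 1)) → ∀ A w, Dom A w →
      (1 / 2 : ℝ) ≤ ‖UU ε A w‖ := by
    intro ε hε he A w h
    have h1 := (HT ε hε A w h).1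
    have h2 : ε * K0 ≤ 1 / 2 := by
      rw [le_div_iff₀ (by positivity)] at he
      nlinarith [hε.1]
    rw [UU_eq]
    have h3 := norm_sub_norm_le A (-(ε * TT ε A w))
    rw [norm_neg, sub_neg_eq_add, norm_mul, Complex.norm_real, Real.norm_eq_abs,
      abs_of_pos hε.1] at h3
    have h4 := mul_le_mul_of_nonneg_left h1 hε.1.le
    linarith [h.1]
  set ε' : ℝ := 1 / (10 * (K0 + 1)) with hε'
  have hε'0 : 0 < ε' := by positivity
  set i : ℝ → ℂ → ℝ → ℂ := fun ε A w => if ε ≤ ε' then (UU ε A w)⁻¹ else 0 with hi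
  have hiBL : BL i := BL.inv_if (by norm_num : (0 : ℝ) < 1 / 2) bl_UU hlow
  set e : ℝ → ℂ → ℝ → ℂ := fun ε A w => A * (v0 + v1 * (A * conj A)) * i ε A w +
    ε * (lam⁻¹ * R1 ε A w * i ε A w) with he
  have hvBL : BL fun _ A _ => v0 + v1 * (A * conj A) :=
    (BL.const _).add ((BL.varA.mul BL.conjA).cmul _)
  have heBL : BL e := ((BL.varA.mul hvBL).mul hiBL).add (BL.eps.mul ((hR1.cmul _).mul hiBL))
  set r : ℝ → ℂ → ℝ → ℂ := fun ε A w => -(TT ε A w * i ε A w * (v0 + v1 * (A * conj A))) -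
    v1 * (A * conj (TT ε A w) + TT ε A w * conj A + ε * (TT ε A w * conj (TT ε A w))) +
    lam⁻¹ * R1 ε A w * i ε A w with hr
  have hrBL : BL r := ((((bl_TT.mul hiBL).mul hvBL).neg).sub (BL.cmul _
    (((BL.varA.mul bl_TT.conj').add (bl_TT.mul BL.conjA)).add
      (BL.eps.mul (bl_TT.mul bl_TT.conj'))))).add ((hR1.cmul _).mul hiBL)
  obtain ⟨Ke, hKe, He⟩ := heBL
  obtain ⟨Kr, hKr, Hr⟩ := hrBL
  obtain ⟨K1, hK1, H1⟩ := (bl_s0.mul bl_b0).cmul ((k0 : ℂ) * (g : ℂ) ^ 2)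
  obtain ⟨K2, hK2, H2⟩ := hRw
  obtain ⟨K3, hK3, H3⟩ := bl_JJ.cmul kk
  set ε₀ : ℝ := min (min (1 / 100) ε') (min (1 / (2 * (Ke + 1)))
    (min (1 / (10 * (K3 + 1))) (1 / (K2 + 1)))) with hε₀
  have hε₀0 : 0 < ε₀ := by
    refine lt_min (lt_min (by norm_num) hε'0) (lt_min (by positivity)
      (lt_min (by positivity) (by positivity)))
  have hlam0 : lam ≠ 0 := norm_pos_iff.1 (by rw [norm_lam]; exact one_pos)
  have hg1 := g_gt
  have hg2 := g_lt
  refine ⟨ε₀, 2 * (2 * Ke ^ 2 + Kr) + (2 * K1 + 2 * K2 + 2 * K1 * K0) + K0 + 1, hε₀0,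
    (min_le_left _ _).trans (min_le_left _ _), by positivity, ?_⟩
  intro ε hε
  have hεpos := hε.1
  have hε1 : ε ∈ Ioc (0 : ℝ) (1 / 100) :=
    ⟨hε.1, hε.2.trans ((min_le_left _ _).trans (min_le_left _ _))⟩
  have hεε' : ε ≤ ε' := hε.2.trans ((min_le_left _ _).trans (min_le_right _ _))
  have hεKe : ε * Ke ≤ 1 / 2 := by
    have : ε ≤ 1 / (2 * (Ke + 1)) := hε.2.trans ((min_le_right _ _).trans (min_le_left _ _))
    rw [le_div_iff₀ (by positivity)] at this
    nlinarith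
  have hεK3 : ε * K3 ≤ 1 / 10 := by
    have : ε ≤ 1 / (10 * (K3 + 1)) :=
      hε.2.trans ((min_le_right _ _).trans ((min_le_right _ _).trans (min_le_left _ _)))
    rw [le_div_iff₀ (by positivity)] at this
    nlinarith
  have hεK2 : ε * K2 ≤ 1 := by
    have : ε ≤ 1 / (K2 + 1) :=
      hε.2.trans ((min_le_right _ _).trans ((min_le_right _ _).trans (min_le_right _ _)))
    rw [le_div_iff₀ (by positivity)] at this
    nlinarith
  have hεK0 : ε * K0 ≤ 1 / 10 := by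
    have := hεε'
    rw [hε', le_div_iff₀ (by positivity)] at this
    nlinarith
  have hε2 : ε ≤ 1 / 100 := hε1.2
  have hnε : ‖(ε : ℂ)‖ = ε := by
    rw [Complex.norm_real, Real.norm_eq_abs, abs_of_pos hεpos]
  -- closeness of `UU` and `A`
  have hclose : ∀ A w, Dom A w → ‖UU ε A w - A‖ ≤ ε * K0 := by
    intro A w h
    rw [UU_eq, add_sub_cancel_left, norm_mul, hnε]
    exact mul_le_mul_of_nonneg_left (HT ε hε1 A w h).1 hεpos.le
  -- the main formula
  have hmain : ∀ A w, Dom A w → rem ε A w =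
      (Complex.log (1 + ε ^ 2 * e ε A w) - ε ^ 2 * e ε A w) + ε ^ 3 * r ε A w := by
    intro A w h
    have hU : UU ε A w ≠ 0 := norm_pos_iff.1 (by linarith [hlow ε hε1 hεε' A w h])
    have hi1 : i ε A w = (UU ε A w)⁻¹ := by
      simp only [hi, if_pos hεε']
    have hUi : UU ε A w * i ε A w = 1 := by
      rw [hi1, mul_inv_cancel₀ hU]
    have hquot : UU ε (FA ε A w) (Fw ε A w) / (lam * UU ε A w) = 1 + ε ^ 2 * e ε A w := by
      rw [div_eq_iff (mul_ne_zero hlam0 hU), halg ε hε1 A w h]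
      simp only [he]
      have hl : lam * lam⁻¹ = 1 := mul_inv_cancel₀ hlam0
      linear_combination (-(lam * ε ^ 2 * A * (v0 + v1 * (A * conj A))) -
        ε ^ 3 * R1 ε A w * lam * lam⁻¹) * hUi - ε ^ 3 * R1 ε A w * hl
    have hnorm : (‖UU ε A w‖ : ℂ) ^ 2 = UU ε A w * conj (UU ε A w) := by
      rw [Complex.mul_conj, Complex.normSq_eq_norm_sq]
      push_cast
      ring
    have hconjU : conj (UU ε A w) = conj A + ε * conj (TT ε A w) := by
      rw [UU_eq, map_add, map_mul, Complex.conj_ofReal]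
    unfold rem inc
    rw [hquot, hnorm, hconjU]
    rw [UU_eq] at hUi ⊢
    simp only [he, hr]
    linear_combination ((ε : ℂ) ^ 2 * (v0 + v1 * (A * conj A))) * hUi
  have he_small : ∀ A w, Dom A w → ‖(ε : ℂ) ^ 2 * e ε A w‖ ≤ ε ^ 2 * Ke := by
    intro A w h
    rw [norm_mul, norm_pow, hnε]
    exact mul_le_mul_of_nonneg_left (He ε hε1 A w h).1 (by positivity)
  have hδ : ε ^ 2 * Ke ≤ 1 / 2 := by nlinarith
  have hlog0 : Complex.log (1 + 0) - 0 = 0 := by simp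
  have hε4 : ε ^ 4 ≤ ε ^ 3 := by
    have : 0 ≤ ε ^ 3 := by positivity
    nlinarith
  -- conversion
  have hconv : ∀ A w A' w', Dom A w → Dom A' w' →
      ‖A - A'‖ ≤ 2 * ‖UU ε A w - UU ε A' w'‖ + 2 * (ε * K0) * |w - w'| := by
    intro A w A' w' h h'
    have h1 := (HT ε hε1 A w h).2 A' w' h'
    have h2 : A - A' = (UU ε A w - UU ε A' w') - ε * (TT ε A w - TT ε A' w') := by
      rw [UU_eq, UU_eq]
      ring
    have h3 : ‖A - A'‖ ≤ ‖UU ε A w - UU ε A' w'‖ + ε * (K0 * (‖A - A'‖ + |w - w'|)) := by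
      conv_lhs => rw [h2]
      refine (norm_sub_le _ _).trans ?_
      rw [norm_mul, hnε]
      have := mul_le_mul_of_nonneg_left h1 hεpos.le
      linarith
    have h4 := norm_nonneg (A - A')
    have h5 := abs_nonneg (w - w')
    have h6 : ε * (K0 * (‖A - A'‖ + |w - w'|)) = ε * K0 * ‖A - A'‖ + ε * K0 * |w - w'| := by ring
    rw [h6] at h3
    have h7 : ε * K0 * ‖A - A'‖ ≤ 1 / 10 * ‖A - A'‖ := mul_le_mul_of_nonneg_right hεK0 h4
    have h8 : 0 ≤ ε * K0 * |w - w'| := by positivity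
    have h9 := norm_nonneg (UU ε A w - UU ε A' w')
    linarith
  refine ⟨fun A w h => ⟨norm_pos_iff.1 (by linarith [hlow ε hε1 hεε' A w h]), ?_, ?_, ?_⟩,
    ?_, ?_⟩
  · -- invariance
    intro hlogU
    have hUpos : 0 < ‖UU ε A w‖ := by linarith [hlow ε hε1 hεε' A w h]
    obtain ⟨hx1, hx2⟩ := exp_x₀
    have h1 : ‖UU ε A w‖ = Real.exp (Real.log ‖UU ε A w‖) := (Real.exp_log hUpos).symm
    have hexp : (0.9 : ℝ) ≤ Real.exp (-(1 / 10)) := by
      have := Real.add_one_le_exp (-(1 / 10) : ℝ)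
      linarith
    obtain ⟨hl1, hl2⟩ := abs_le.1 hlogU
    have h2 : 2.43 ≤ ‖UU ε A w‖ := by
      rw [h1]
      have : Real.exp (x₀ + -(1 / 10)) ≤ Real.exp (Real.log ‖UU ε A w‖) :=
        Real.exp_le_exp.2 (by linarith)
      rw [Real.exp_add] at this
      have h3 := mul_le_mul hx1 hexp (by norm_num) (by linarith)
      linarith
    have h3 : ‖UU ε A w‖ ≤ 3.12 := by
      have h4 : Real.exp (Real.log ‖UU ε A w‖) * Real.exp (-(1 / 10)) ≤ Real.exp x₀ := by
        rw [← Real.exp_add]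
        exact Real.exp_le_exp.2 (by linarith)
      rw [← h1] at h4
      have h5 := mul_le_mul_of_nonneg_left hexp hUpos.le
      linarith
    have h4 := hclose A w h
    have hA1 : ‖A‖ ≤ 3.3 := by
      have := norm_sub_norm_le A (UU ε A w)
      rw [norm_sub_rev] at this
      linarith
    have hA2 : 2.3 ≤ ‖A‖ := by
      have := norm_sub_norm_le (UU ε A w) A
      linarith
    have h5 : ‖(ε : ℂ) * (kk * JJ ε A w)‖ ≤ 1 / 10 := by
      rw [norm_mul, hnε]
      have := mul_le_mul_of_nonneg_left (H3 ε hε1 A w h).1 hεpos.le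
      linarith
    have h6 : ‖lam * A‖ = ‖A‖ := by rw [norm_mul, norm_lam, one_mul]
    refine ⟨?_, ?_, ?_⟩
    · rw [FA_eq hε1 h]
      have := norm_sub_norm_le (lam * A) (-(ε * (kk * JJ ε A w)))
      rw [norm_neg, sub_neg_eq_add, h6] at this
      linarith
    · rw [FA_eq hε1 h]
      have := norm_add_le (lam * A) (ε * (kk * JJ ε A w))
      linarith
    · have h7 : |Fw ε A w| = ‖(Fw ε A w : ℂ)‖ := by
        rw [Complex.norm_real, Real.norm_eq_abs]
      rw [h7, hstab ε hε1 A w h]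
      refine (norm_add_le _ _).trans ?_
      have h8 : ‖(ε : ℂ) * Rw ε A w‖ ≤ 1 := by
        rw [norm_mul, hnε]
        have := mul_le_mul_of_nonneg_left (H2 ε hε1 A w h).1 hεpos.le
        linarith
      have h9 : ‖(g : ℂ) * w - k0 * g ^ 2 * (s0 A * b0 A)‖ ≤ 28 := by
        refine (norm_sub_le _ _).trans ?_
        have e1 : ‖(g : ℂ) * w‖ ≤ 0.6181 * 30 := by
          rw [norm_mul, Complex.norm_real, Complex.norm_real, Real.norm_eq_abs, Real.norm_eq_abs,
            abs_of_pos (by linarith)]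
          exact mul_le_mul hg2.le h.2.2 (abs_nonneg _) (by norm_num)
        have e2 : ‖(k0 : ℂ) * g ^ 2 * (s0 A * b0 A)‖ ≤ 0.0829 * (12.95 * 8) := by
          rw [norm_mul]
          have e3 : ‖(k0 : ℂ) * g ^ 2‖ ≤ 0.0829 := by
            have : (k0 : ℂ) * g ^ 2 = ((k0 * g ^ 2 : ℝ) : ℂ) := by push_cast; ring
            rw [this, Complex.norm_real, Real.norm_eq_abs, abs_of_nonneg k0_bd.1]
            exact k0_bd.2
          have e4 : ‖s0 A * b0 A‖ ≤ 12.95 * 8 := by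
            rw [norm_mul]
            exact mul_le_mul (norm_s0 h.2.1) (norm_b0 h.2.1) (norm_nonneg _) (by norm_num)
          exact mul_le_mul e3 e4 (norm_nonneg _) (by norm_num)
        linarith
      linarith
  · -- bound of the remainder
    rw [hmain A w h]
    refine (norm_add_le _ _).trans ?_
    have h1 := klog hδ (he_small A w h) (by simpa using by positivity : ‖(0 : ℂ)‖ ≤ ε ^ 2 * Ke)
    rw [hlog0, sub_zero, sub_zero] at h1
    have h2 : 2 * (ε ^ 2 * Ke) * ‖(ε : ℂ) ^ 2 * e ε A w‖ ≤ 2 * (ε ^ 2 * Ke) * (ε ^ 2 * Ke) :=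
      mul_le_mul_of_nonneg_left (he_small A w h) (by positivity)
    have h3 : ‖(ε : ℂ) ^ 3 * r ε A w‖ ≤ ε ^ 3 * Kr := by
      rw [norm_mul, norm_pow, hnε]
      exact mul_le_mul_of_nonneg_left (Hr ε hε1 A w h).1 (by positivity)
    have h4 : 2 * (ε ^ 2 * Ke) * (ε ^ 2 * Ke) ≤ 2 * Ke ^ 2 * ε ^ 3 := by
      have : 2 * (ε ^ 2 * Ke) * (ε ^ 2 * Ke) = 2 * Ke ^ 2 * ε ^ 4 := by ring
      rw [this]
      exact mul_le_mul_of_nonneg_left hε4 (by positivity)
    have h5 : 0 ≤ ε ^ 3 * (2 * Ke ^ 2 + Kr + (2 * K1 + 2 * K2 + 2 * K1 * K0) + K0 + 1) := by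
      positivity
    nlinarith
  · intro A' w' h'
    have hd0 : 0 ≤ ‖A - A'‖ + |w - w'| := by positivity
    have hcv := hconv A w A' w' h h'
    have hw0 := abs_nonneg (w - w')
    have hU0 := norm_nonneg (UU ε A w - UU ε A' w')
    have hd : ‖A - A'‖ + |w - w'| ≤ 2 * (‖UU ε A w - UU ε A' w'‖ + |w - w'|) := by
      have : 2 * (ε * K0) * |w - w'| ≤ 1 * |w - w'| :=
        mul_le_mul_of_nonneg_right (by linarith) hw0
      linarith
    constructor
    · rw [hmain A w h, hmain A' w' h']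
      have h1 := klog hδ (he_small A w h) (he_small A' w' h')
      have h2 : ‖(ε : ℂ) ^ 2 * e ε A w - ε ^ 2 * e ε A' w'‖ ≤
          ε ^ 2 * (Ke * (‖A - A'‖ + |w - w'|)) := by
        rw [← mul_sub, norm_mul, norm_pow, hnε]
        exact mul_le_mul_of_nonneg_left ((He ε hε1 A w h).2 A' w' h') (by positivity)
      have h3 : ‖(ε : ℂ) ^ 3 * r ε A w - ε ^ 3 * r ε A' w'‖ ≤
          ε ^ 3 * (Kr * (‖A - A'‖ + |w - w'|)) := by
        rw [← mul_sub, norm_mul, norm_pow, hnε]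
        exact mul_le_mul_of_nonneg_left ((Hr ε hε1 A w h).2 A' w' h') (by positivity)
      have h4 : (Complex.log (1 + ε ^ 2 * e ε A w) - ε ^ 2 * e ε A w + ε ^ 3 * r ε A w) -
          (Complex.log (1 + ε ^ 2 * e ε A' w') - ε ^ 2 * e ε A' w' + ε ^ 3 * r ε A' w') =
          ((Complex.log (1 + ε ^ 2 * e ε A w) - ε ^ 2 * e ε A w) -
          (Complex.log (1 + ε ^ 2 * e ε A' w') - ε ^ 2 * e ε A' w')) +
          ((ε : ℂ) ^ 3 * r ε A w - ε ^ 3 * r ε A' w') := by ring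
      rw [h4]
      have h5 : 2 * (ε ^ 2 * Ke) * ‖(ε : ℂ) ^ 2 * e ε A w - ε ^ 2 * e ε A' w'‖ ≤
          2 * Ke ^ 2 * ε ^ 3 * (‖A - A'‖ + |w - w'|) := by
        have e1 := mul_le_mul_of_nonneg_left h2 (by positivity : 0 ≤ 2 * (ε ^ 2 * Ke))
        refine e1.trans ?_
        have e2 : 2 * (ε ^ 2 * Ke) * (ε ^ 2 * (Ke * (‖A - A'‖ + |w - w'|))) =
          2 * Ke ^ 2 * ε ^ 4 * (‖A - A'‖ + |w - w'|) := by ring
        rw [e2]
        exact mul_le_mul_of_nonneg_right (mul_le_mul_of_nonneg_left hε4 (by positivity)) hd0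
      have h6 : ‖((Complex.log (1 + ε ^ 2 * e ε A w) - ε ^ 2 * e ε A w) -
          (Complex.log (1 + ε ^ 2 * e ε A' w') - ε ^ 2 * e ε A' w')) +
          ((ε : ℂ) ^ 3 * r ε A w - ε ^ 3 * r ε A' w')‖ ≤
          (2 * Ke ^ 2 + Kr) * ε ^ 3 * (‖A - A'‖ + |w - w'|) := by
        refine (norm_add_le _ _).trans ?_
        have e3 : (2 * Ke ^ 2 + Kr) * ε ^ 3 * (‖A - A'‖ + |w - w'|) =
          2 * Ke ^ 2 * ε ^ 3 * (‖A - A'‖ + |w - w'|) +
            ε ^ 3 * (Kr * (‖A - A'‖ + |w - w'|)) := by ring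
        rw [e3]
        linarith
      refine h6.trans ?_
      have h7 : (2 * Ke ^ 2 + Kr) * ε ^ 3 * (‖A - A'‖ + |w - w'|) ≤
          (2 * Ke ^ 2 + Kr) * ε ^ 3 * (2 * (‖UU ε A w - UU ε A' w'‖ + |w - w'|)) :=
        mul_le_mul_of_nonneg_left hd (by positivity)
      refine h7.trans ?_
      have h8 : 0 ≤ ((2 * K1 + 2 * K2 + 2 * K1 * K0) + K0 + 1) * ε ^ 3 *
          (‖UU ε A w - UU ε A' w'‖ + |w - w'|) := by positivity
      nlinarith
    · have h1 : |Fw ε A w - Fw ε A' w'| = ‖(Fw ε A w : ℂ) - (Fw ε A' w' : ℂ)‖ := by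
        rw [← Complex.ofReal_sub, Complex.norm_real, Real.norm_eq_abs]
      rw [h1, hstab ε hε1 A w h, hstab ε hε1 A' w' h']
      have hDom : Dom A' w := ⟨h'.1, h'.2.1, h.2.2⟩
      have h2 := (H1 ε hε1 A w h).2 A' w hDom
      rw [sub_self, abs_zero, add_zero] at h2
      have h3 := (H2 ε hε1 A w h).2 A' w' h'
      have h4 : (g : ℂ) * w - k0 * g ^ 2 * (s0 A * b0 A) + ε * Rw ε A w -
          (g * w' - k0 * g ^ 2 * (s0 A' * b0 A') + ε * Rw ε A' w') =
          g * (w - w') + (-(k0 * g ^ 2 * (s0 A * b0 A) - k0 * g ^ 2 * (s0 A' * b0 A')) +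
            ε * (Rw ε A w - Rw ε A' w')) := by ring
      rw [h4]
      have h5 : ‖(g : ℂ) * (w - w')‖ = g * |w - w'| := by
        rw [norm_mul, Complex.norm_real, ← Complex.ofReal_sub, Complex.norm_real,
          Real.norm_eq_abs, Real.norm_eq_abs, abs_of_pos (by linarith)]
      have h6 : ‖(ε : ℂ) * (Rw ε A w - Rw ε A' w')‖ ≤ ε * (K2 * (‖A - A'‖ + |w - w'|)) := by
        rw [norm_mul, hnε]
        exact mul_le_mul_of_nonneg_left h3 hεpos.le
      have h7 : ‖(g : ℂ) * (w - w') +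
          (-(k0 * g ^ 2 * (s0 A * b0 A) - k0 * g ^ 2 * (s0 A' * b0 A')) +
            ε * (Rw ε A w - Rw ε A' w'))‖ ≤
          g * |w - w'| + (K1 * ‖A - A'‖ + ε * (K2 * (‖A - A'‖ + |w - w'|))) := by
        refine (norm_add_le _ _).trans ?_
        rw [h5]
        refine add_le_add le_rfl ((norm_add_le _ _).trans ?_)
        rw [norm_neg]
        exact add_le_add h2 h6
      refine h7.trans ?_
      have h8 : K1 * ‖A - A'‖ ≤
          K1 * (2 * ‖UU ε A w - UU ε A' w'‖ + 2 * (ε * K0) * |w - w'|) :=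
        mul_le_mul_of_nonneg_left hcv hK1
      have h9 : ε * (K2 * (‖A - A'‖ + |w - w'|)) ≤
          ε * (K2 * (2 * (‖UU ε A w - UU ε A' w'‖ + |w - w'|))) :=
        mul_le_mul_of_nonneg_left (mul_le_mul_of_nonneg_left hd hK2) hεpos.le
      have h10 : ε * (K2 * (2 * (‖UU ε A w - UU ε A' w'‖ + |w - w'|))) ≤
          2 * K2 * ‖UU ε A w - UU ε A' w'‖ + 2 * K2 * (ε * |w - w'|) := by
        have : ε * ‖UU ε A w - UU ε A' w'‖ ≤ 1 * ‖UU ε A w - UU ε A' w'‖ :=
          mul_le_mul_of_nonneg_right (by linarith) hU0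
        have h11 := mul_le_mul_of_nonneg_left this (by positivity : 0 ≤ 2 * K2)
        nlinarith
      have h12 : 0 ≤ (2 * (2 * Ke ^ 2 + Kr) + K0 + 1) *
          (‖UU ε A w - UU ε A' w'‖ + ε * |w - w'|) := by positivity
      have h13 : 0 ≤ 2 * K1 * K0 * ‖UU ε A w - UU ε A' w'‖ := by positivity
      have h14 : 0 ≤ 2 * K1 * (ε * |w - w'|) := by positivity
      nlinarith
  · obtain ⟨hx1, hx2⟩ := exp_x₀
    have hn : ‖((Real.exp x₀ : ℝ) : ℂ)‖ = Real.exp x₀ := by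
      rw [Complex.norm_real, Real.norm_eq_abs, abs_of_pos (Real.exp_pos _)]
    refine ⟨?_, ?_, ?_⟩
    · rw [hn]; linarith
    · rw [hn]; linarith
    · rw [abs_zero]; norm_num
  · obtain ⟨hx1, hx2⟩ := exp_x₀
    have hn : ‖((Real.exp x₀ : ℝ) : ℂ)‖ = Real.exp x₀ := by
      rw [Complex.norm_real, Real.norm_eq_abs, abs_of_pos (Real.exp_pos _)]
    have hdom : Dom ((Real.exp x₀ : ℝ) : ℂ) 0 := by
      refine ⟨?_, ?_, ?_⟩
      · rw [hn]; linarith
      · rw [hn]; linarith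
      · rw [abs_zero]; norm_num
    have h1 := hclose _ _ hdom
    have h2 : |‖UU ε ((Real.exp x₀ : ℝ) : ℂ) 0‖ - Real.exp x₀| ≤ ε * K0 := by
      have := abs_norm_sub_norm_le (UU ε ((Real.exp x₀ : ℝ) : ℂ) 0) ((Real.exp x₀ : ℝ) : ℂ)
      rw [hn] at this
      linarith
    have h3 : 1 ≤ ‖UU ε ((Real.exp x₀ : ℝ) : ℂ) 0‖ := by
      have := (abs_le.1 h2).1
      linarith
    have h4 := log_lip h3 (by linarith : 1 ≤ Real.exp x₀)
    rw [Real.log_exp] at h4
    have h5 : 0 ≤ (2 * (2 * Ke ^ 2 + Kr) + (2 * K1 + 2 * K2 + 2 * K1 * K0) + 1) * ε := by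
      positivity
    nlinarith

end Pool.Agent.NH81.NS
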