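import Mathlib

/-!
# Project NS: `x_{n+1} = γ + x_{n-2} / x_{n-1}` has solutions which do not converge to periodic ones

Definitions and the statements of the pieces.

`x_n = x̄ + ε y_n`, `x̄ = φ - ε ^ 2`, `γ = g - ε ^ 2`, `g = (√5 - 1) / 2`, `φ = 1 / g = 1 + g`.
The eigenvalues of the linearisation at `ε = 0` are `g` and `lam`, `conj lam`, with
`lam ^ 2 + g * lam + 1 = 0`, `‖lam‖ = 1`.
-/

set_option autoImplicit false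

open Set
open scoped ComplexConjugate

namespace Pool.Agent.NH81.NS

/-- The critical value of the parameter. -/
noncomputable def g : ℝ := (Real.sqrt 5 - 1) / 2

/-- The imaginary part of the eigenvalue. -/
noncomputable def sg : ℝ := Real.sqrt (1 - g ^ 2 / 4)

/-- The critical eigenvalue. -/
noncomputable def lam : ℂ := ⟨-g / 2, sg⟩

/-- `1 / (2 + g * conj lam ^ 3)` -/
noncomputable def kk : ℂ := (23 - 7 * lam - 4 * g + 6 * g * lam) / 55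

/-- `1 / (3 + φ)` -/
noncomputable def k0 : ℝ := (3 - g) / 11

/-- `mu = conj lam ^ 2 - conj lam` -/
noncomputable def mu : ℂ := conj lam ^ 2 - conj lam

noncomputable def al : ℂ := (13 + 8 * lam - 19 * g + g * lam) / 55
noncomputable def be : ℂ := (-9 - 14 * lam - 8 * g + 12 * g * lam) / 55
noncomputable def ga : ℂ := (-2 + 3 * lam - 14 * g + 21 * g * lam) / 55
noncomputable def ka1 : ℂ := (-8 + lam - g - 4 * g * lam) / 11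
noncomputable def ka2 : ℂ := (-1 - lam + 3 * g - g * lam) / 11
noncomputable def ka3 : ℂ := (26 - 6 * lam - 38 * g + 13 * g * lam) / 55
noncomputable def ka4 : ℂ := (15 - 34 * lam - 25 * g + 47 * g * lam) / 55
noncomputable def ka5 : ℂ := (9 - 2 * g + 5 * g * lam) / 55
noncomputable def ka6 : ℂ := (-1 + 7 * lam - 7 * g - 6 * g * lam) / 55
noncomputable def v0 : ℂ := (-4 + 6 * lam + 27 * g - 13 * g * lam) / 55
noncomputable def v1 : ℂ := (27 - 23 * lam - 46 * g + 39 * g * lam) / 55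

/-- `b0 = 2 Re (conj lam * A)` -/
noncomputable def b0 (A : ℂ) : ℂ := conj lam * A + lam * conj A

/-- `s0 = 2 Re (mu * A)` -/
noncomputable def s0 (A : ℂ) : ℂ := mu * A + conj mu * conj A

/-- `1 / y` with `y = x̄ + ε b`, `b = b0 + ε φ w`, `φ = 1 + g`, `x̄ = φ - ε ^ 2` -/
noncomputable def HH (ε : ℝ) (A : ℂ) (w : ℝ) : ℂ :=
  1 / ((1 + g) + ε * (b0 A + ε * ((1 + g) * w - 1)))

/-- The nonlinear part of the recurrence. -/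
noncomputable def GG (ε : ℝ) (A : ℂ) (w : ℝ) : ℂ :=
  -ε * g * (s0 A + ε * w) * (b0 A + ε * ((1 + g) * w - 1)) * HH ε A w

/-- The map, first coordinate. -/
noncomputable def FA (ε : ℝ) (A : ℂ) (w : ℝ) : ℂ := lam * A + kk * GG ε A w

/-- The map, second coordinate. -/
noncomputable def Fw (ε : ℝ) (A : ℂ) (w : ℝ) : ℝ := g * w + k0 * (GG ε A w).re / ε

noncomputable def QQ (A : ℂ) : ℂ := al * A ^ 2 + be * A * conj A + ga * conj A ^ 2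

noncomputable def KK (A : ℂ) (w : ℝ) : ℂ :=
  w * (ka1 * A + ka2 * conj A) + ka3 * A ^ 3 + ka4 * A * conj A ^ 2 + ka5 * conj A ^ 3 +
    ka6 * conj A

/-- The normal form coordinate. -/
noncomputable def UU (ε : ℝ) (A : ℂ) (w : ℝ) : ℂ := A + ε * QQ A + ε ^ 2 * KK A w

/-- The domain. -/
def Dom (A : ℂ) (w : ℝ) : Prop := 1 ≤ ‖A‖ ∧ ‖A‖ ≤ 4 ∧ |w| ≤ 30

/-- Bounded and Lipschitz on the domain, uniformly in `ε`. -/
def BL (f : ℝ → ℂ → ℝ → ℂ) : Prop := ∃ K : ℝ, 0 ≤ K ∧ ∀ ε ∈ Ioc (0 : ℝ) (1 / 100),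
  ∀ (A : ℂ) (w : ℝ), Dom A w → ‖f ε A w‖ ≤ K ∧ ∀ (A' : ℂ) (w' : ℝ), Dom A' w' →
    ‖f ε A w - f ε A' w'‖ ≤ K * (‖A - A'‖ + |w - w'|)

/-- NS-ALG: the normal form. -/
def S_ALG : Prop := ∃ R : ℝ → ℂ → ℝ → ℂ, BL R ∧ ∀ ε ∈ Ioc (0 : ℝ) (1 / 100),
  ∀ (A : ℂ) (w : ℝ), Dom A w → UU ε (FA ε A w) (Fw ε A w) =
    lam * UU ε A w + lam * ε ^ 2 * A * (v0 + v1 * (A * conj A)) + ε ^ 3 * R ε A w

/-- NS-W: the stable direction. -/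
def S_W : Prop := ∃ R : ℝ → ℂ → ℝ → ℂ, BL R ∧ ∀ ε ∈ Ioc (0 : ℝ) (1 / 100),
  ∀ (A : ℂ) (w : ℝ), Dom A w →
    (Fw ε A w : ℂ) = g * w - k0 * g ^ 2 * (s0 A * b0 A) + ε * R ε A w

/-- `exp (2 * x₀) = - Re v0 / Re v1`, about `7.52` -/
noncomputable def x₀ : ℝ := Real.log ((1 + 7 * g) / (3 * (2 * g - 1))) / 2

/-- The increment of the logarithm of `UU`, minus `i θ₀`. -/
noncomputable def inc (ε : ℝ) (A : ℂ) (w : ℝ) : ℂ :=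
  Complex.log (UU ε (FA ε A w) (Fw ε A w) / (lam * UU ε A w))

/-- The remainder. -/
noncomputable def rem (ε : ℝ) (A : ℂ) (w : ℝ) : ℂ :=
  inc ε A w - ε ^ 2 * (v0 + v1 * (‖UU ε A w‖ : ℂ) ^ 2)

/-- NS-STEP: the estimates for one step in the coordinates `UU`, `w`. -/
def S_STEP : Prop := S_ALG → S_W → ∃ ε₀ C : ℝ, 0 < ε₀ ∧ ε₀ ≤ 1 / 100 ∧ 0 < C ∧
  ∀ ε ∈ Ioc (0 : ℝ) ε₀,
    (∀ (A : ℂ) (w : ℝ), Dom A w → UU ε A w ≠ 0 ∧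
      (|Real.log ‖UU ε A w‖ - x₀| ≤ 1 / 10 → Dom (FA ε A w) (Fw ε A w)) ∧
      ‖rem ε A w‖ ≤ C * ε ^ 3 ∧
      ∀ (A' : ℂ) (w' : ℝ), Dom A' w' →
        ‖rem ε A w - rem ε A' w'‖ ≤ C * ε ^ 3 * (‖UU ε A w - UU ε A' w'‖ + |w - w'|) ∧
        |Fw ε A w - Fw ε A' w'| ≤
          g * |w - w'| + C * (‖UU ε A w - UU ε A' w'‖ + ε * |w - w'|)) ∧
    Dom (Real.exp x₀ : ℝ) 0 ∧ |Real.log ‖UU ε (Real.exp x₀ : ℝ) 0‖ - x₀| ≤ C * ε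

/-- The sum of the imaginary parts of `ℓ` along the orbit of `p`. -/
noncomputable def Sm {X : Type} (F : X → X) (l : X → ℂ) (n : ℕ) (p : X) : ℝ :=
  ∑ j ∈ Finset.range n, (l (F^[j] p)).im

/-- NS-CONE: invariance of the annulus, preservation of the order, and its consequence that the
rotation of two orbits differs by a bounded amount. Abstract statement. -/
def S_CONE : Prop := ∀ (v v' : ℂ) (x₁ q M C : ℝ), v'.re < 0 → v.re + v'.re * Real.exp (2 * x₁) = 0 →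
  0 ≤ q → q < 1 → 0 < M → 0 < C → ∃ ε₁ K₁ L : ℝ, 0 < ε₁ ∧ C ≤ K₁ ∧ K₁ * ε₁ ≤ 1 / 10 ∧ 0 < L ∧
  ∀ ε ∈ Ioc (0 : ℝ) ε₁, ∀ (X : Type) (B : Set X) (F : X → X) (U l : X → ℂ) (W : X → ℝ) (m : ℂ),
    ‖m‖ = 1 →
    (∀ p ∈ B, U p ≠ 0 ∧ |W p| ≤ M ∧ (|Real.log ‖U p‖ - x₁| ≤ 1 / 10 → F p ∈ B) ∧
      U (F p) = m * U p * Complex.exp (l p) ∧
      ‖l p - ε ^ 2 * (v + v' * (‖U p‖ : ℂ) ^ 2)‖ ≤ C * ε ^ 3 ∧
      ∀ p' ∈ B, ‖(l p - ε ^ 2 * (v + v' * (‖U p‖ : ℂ) ^ 2)) -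
          (l p' - ε ^ 2 * (v + v' * (‖U p'‖ : ℂ) ^ 2))‖ ≤
          C * ε ^ 3 * (‖U p - U p'‖ + |W p - W p'|) ∧
        |W (F p) - W (F p')| ≤ q * |W p - W p'| + C * (‖U p - U p'‖ + ε * |W p - W p'|)) →
    (∀ p ∈ B, |Real.log ‖U p‖ - x₁| ≤ K₁ * ε → F p ∈ B ∧
      |Real.log ‖U (F p)‖ - x₁| ≤ K₁ * ε ∧
      |(l p).im - ε ^ 2 * (v.im + v'.im * Real.exp (2 * x₁))| ≤ L * ε ^ 3) ∧
    ∀ p ∈ B, ∀ p' ∈ B, |Real.log ‖U p‖ - x₁| ≤ K₁ * ε → |Real.log ‖U p'‖ - x₁| ≤ K₁ * ε →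
      ∀ n, |Sm F l n p - Sm F l n p'| ≤ L

/-- NS-ROT: existence and continuity of the rotation number, and the intermediate value theorem. -/
def S_ROT : Prop := ∀ (L ε₁ ω θ : ℝ) (a : ℝ → ℕ → ℝ), 0 < L → 0 < ε₁ → ω ≠ 0 →
  (∀ ε ∈ Ioc (0 : ℝ) ε₁, ∀ n m, |a ε (n + m) - a ε n - a ε m| ≤ L) →
  (∀ n, ContinuousOn (fun ε => a ε n) (Ioc (0 : ℝ) ε₁)) →
  (∀ ε ∈ Ioc (0 : ℝ) ε₁, ∀ n : ℕ, |a ε n - n * (ε ^ 2 * ω)| ≤ n * (L * ε ^ 3)) →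
  ∃ ε ∈ Ioc (0 : ℝ) ε₁, ∃ ρ : ℝ, Irrational ρ ∧
    ∀ n : ℕ, |n * θ + a ε n - 2 * Real.pi * n * ρ| ≤ L

/-- The coordinate `A` of the state `(x, y, z) = (x_{n-2}, x_{n-1}, x_n)`; `x̄ = 1 + g - ε ^ 2`. -/
noncomputable def cA (ε x y z : ℝ) : ℂ :=
  kk * (((z - (1 + g - ε ^ 2)) / ε : ℝ) + lam * ((y - (1 + g - ε ^ 2)) / ε : ℝ) +
    g * conj lam * ((x - (1 + g - ε ^ 2)) / ε : ℝ))

/-- The coordinate `w` of the state. -/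
noncomputable def cw (ε x y z : ℝ) : ℝ :=
  k0 * ((z - (1 + g - ε ^ 2)) + g * (y - (1 + g - ε ^ 2)) + (x - (1 + g - ε ^ 2))) / ε ^ 2

/-- NS-LINK: the coordinates conjugate the recurrence to the map `(FA, Fw)`; inverse formulas. -/
def S_LINK : Prop := ∀ ε : ℝ, 0 < ε →
  (∀ x y z : ℝ, y ≠ 0 →
    cA ε y z (g - ε ^ 2 + x / y) = FA ε (cA ε x y z) (cw ε x y z) ∧
    cw ε y z (g - ε ^ 2 + x / y) = Fw ε (cA ε x y z) (cw ε x y z)) ∧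
  (∀ x y z : ℝ,
    (x : ℂ) = (1 + g - ε ^ 2) + ε * ((conj lam ^ 2 * cA ε x y z + lam ^ 2 * conj (cA ε x y z)) +
      (2 + g) * ε * cw ε x y z) ∧
    (y : ℂ) = (1 + g - ε ^ 2) + ε * (b0 (cA ε x y z) + (1 + g) * ε * cw ε x y z) ∧
    (z : ℂ) = (1 + g - ε ^ 2) + ε * ((cA ε x y z + conj (cA ε x y z)) + ε * cw ε x y z)) ∧
  ∀ (A : ℂ) (w : ℝ), ∃ x y z : ℝ, cA ε x y z = A ∧ cw ε x y z = w

end Pool.Agent.NH81.NS
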